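import Mathlib

/-!
# Twisted Lie algebras of matrices

A complex Lie algebra `G` of matrices which is stable under `X ↦ u Xᴴ u⁻¹`, where `u` is a diagonal
unitary matrix, with a real diagonal element `w` whose centraliser in `G` consists of diagonal
matrices. The value of `w` may be the same at several indices.
-/

namespace Pc0b458L

variable {ι : Type} [Fintype ι] [DecidableEq ι]

/-- the real diagonal elements -/
def Car (G : Submodule ℂ (Matrix ι ι ℂ)) : Set (ι → ℝ) :=
  {f | Matrix.diagonal (fun i => (f i : ℂ)) ∈ G}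

structure Tw (G : Submodule ℂ (Matrix ι ι ℂ)) (u : ι → ℂ) (w : ι → ℝ) : Prop where
  lie : ∀ X ∈ G, ∀ Y ∈ G, X * Y - Y * X ∈ G
  unit : ∀ i, ‖u i‖ = 1
  twist : ∀ X ∈ G, Matrix.diagonal u * X.conjTranspose * Matrix.diagonal (fun i => (u i)⁻¹) ∈ G
  mem : w ∈ Car G
  /-- the centraliser of `w` consists of diagonal matrices -/
  diag : ∀ X ∈ G, (∀ i j, X i j ≠ 0 → w i = w j) → ∀ i j, i ≠ j → X i j = 0
  /-- `w` is generic -/
  gen : ∀ f ∈ Car G, ∀ i j k l, w i - w j = w k - w l → f i - f j = f k - f l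
  uw : ∀ i j, w i = w j → u i = u j

/-- `X` is supported on the pairs with difference `b` -/
def Sup (w : ι → ℝ) (b : ℝ) (X : Matrix ι ι ℂ) : Prop := ∀ i j, X i j ≠ 0 → w i - w j = b

/-- the component of `X` of difference `b` -/
noncomputable def comp (w : ι → ℝ) (b : ℝ) (X : Matrix ι ι ℂ) : Matrix ι ι ℂ :=
  Matrix.of fun i j => if w i - w j = b then X i j else 0

end Pc0b458L
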