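import Mathlib
import Pool.Agent.Lib.Pc0b458L.Tw

/-!
# Strings and coroots
-/

namespace Pc0b458L

open Matrix

variable {ι : Type} [Fintype ι] [DecidableEq ι] {G : Submodule ℂ (Matrix ι ι ℂ)} {u : ι → ℂ}
  {w : ι → ℝ}

lemma Tw.u_ne (h : Tw G u w) (i : ι) : u i ≠ 0 := by
  intro h0
  have := h.unit i
  rw [h0, norm_zero] at this
  exact zero_ne_one this

lemma Tw.conj_mem_diag (h : Tw G u w) {p : ι → ℂ} (hp : diagonal p ∈ G) :
    diagonal (fun i => (starRingEnd ℂ) (p i)) ∈ G := by
  have h1 := h.twist _ hp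
  have h2 : diagonal u * (diagonal p)ᴴ * diagonal (fun i => (u i)⁻¹) =
      diagonal (fun i => (starRingEnd ℂ) (p i)) := by
    rw [diagonal_conjTranspose, diagonal_mul_diagonal, diagonal_mul_diagonal]
    congr 1
    funext i
    have := h.u_ne i
    rw [Pi.star_apply, mul_comm (u i), mul_assoc, mul_inv_cancel₀ this, mul_one]
    rfl
  rwa [h2] at h1

/-- real and imaginary parts of the diagonal elements -/
lemma Tw.re_im_mem (h : Tw G u w) {p : ι → ℂ} (hp : diagonal p ∈ G) :
    (fun i => (p i).re) ∈ Car G ∧ (fun i => (p i).im) ∈ Car G := by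
  have h1 := h.conj_mem_diag hp
  constructor
  · have h2 := G.smul_mem (1 / 2 : ℂ) (G.add_mem hp h1)
    have h3 : (1 / 2 : ℂ) • (diagonal p + diagonal (fun i => (starRingEnd ℂ) (p i))) =
        diagonal (fun i => (((p i).re : ℝ) : ℂ)) := by
      rw [diagonal_add, ← diagonal_smul]
      congr 1
      funext i
      simp only [Pi.smul_apply, smul_eq_mul]
      rw [Complex.add_conj]
      push_cast
      ring
    rw [h3] at h2
    exact h2
  · have h2 := G.smul_mem (1 / (2 * Complex.I) : ℂ) (G.sub_mem hp h1)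
    have h3 : (1 / (2 * Complex.I) : ℂ) • (diagonal p - diagonal (fun i => (starRingEnd ℂ) (p i))) =
        diagonal (fun i => (((p i).im : ℝ) : ℂ)) := by
      rw [diagonal_sub, ← diagonal_smul]
      congr 1
      funext i
      simp only [Pi.smul_apply, smul_eq_mul]
      rw [Complex.sub_conj]
      have : (2 * Complex.I) ≠ 0 := by simp
      field_simp
      push_cast
      ring
    rw [h3] at h2
    exact h2

/-- the bracket of two opposite components -/
lemma Tw.core (h : Tw G u w) {X Y : Matrix ι ι ℂ} (hX : X ∈ G) (hY : Y ∈ G) {b : ℝ}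
    (hXb : Sup w b X) (hYb : Sup w (-b) Y) :
    X * Y - Y * X = diagonal (fun i => (X * Y - Y * X) i i) ∧
      ∀ f ∈ Car G, ∀ i j, w i - w j = b →
        ∑ k, (f k : ℂ) * (X * Y - Y * X) k k = ((f i - f j : ℝ) : ℂ) * trace (X * Y) := by
  constructor
  · have h1 := h.diag _ (h.lie X hX Y hY) (by
      intro i j hij
      by_contra hne
      apply hij
      rw [Matrix.sub_apply, mul_apply, mul_apply, Finset.sum_eq_zero, Finset.sum_eq_zero, sub_zero]
      · intro k _
        by_contra hk
        have h2 := hYb i k (left_ne_zero_of_mul hk)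
        have h3 := hXb k j (right_ne_zero_of_mul hk)
        apply hne
        linarith
      · intro k _
        by_contra hk
        have h2 := hXb i k (left_ne_zero_of_mul hk)
        have h3 := hYb k j (right_ne_zero_of_mul hk)
        apply hne
        linarith)
    ext i j
    rw [diagonal_apply]
    split_ifs with hij
    · rw [hij]
    · exact h1 i j hij
  · intro f hf i j hij
    have e1 : ∀ k, (f k : ℂ) * (X * Y - Y * X) k k =
        ∑ l, (f k : ℂ) * (X k l * Y l k) - ∑ l, (f k : ℂ) * (X l k * Y k l) := by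
      intro k
      rw [Matrix.sub_apply, mul_apply, mul_apply, mul_sub, Finset.mul_sum, Finset.mul_sum]
      congr 1
      refine Finset.sum_congr rfl (fun l _ => ?_)
      ring
    rw [Finset.sum_congr rfl (fun k _ => e1 k), Finset.sum_sub_distrib]
    have e2 : ∑ k, ∑ l, (f k : ℂ) * (X l k * Y k l) = ∑ k, ∑ l, (f l : ℂ) * (X k l * Y l k) := by
      rw [Finset.sum_comm]
    rw [e2, ← Finset.sum_sub_distrib, trace, Finset.mul_sum]
    refine Finset.sum_congr rfl (fun k _ => ?_)
    rw [← Finset.sum_sub_distrib, diag_apply, mul_apply, Finset.mul_sum]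
    refine Finset.sum_congr rfl (fun l _ => ?_)
    rw [← sub_mul]
    by_cases hkl : X k l = 0
    · rw [hkl, zero_mul, mul_zero, mul_zero]
    · have h3 := h.gen f hf k l i j (by rw [hXb k l hkl, hij])
      congr 1
      rw [← h3]
      push_cast
      ring

/-- the normalised bracket is real -/
lemma Tw.real_part (h : Tw G u w) {X Y : Matrix ι ι ℂ} (hX : X ∈ G) (hY : Y ∈ G) {b : ℝ}
    (hXb : Sup w b X) (hYb : Sup w (-b) Y) (h0 : X ≠ 0) (hκ : trace (X * Y) ≠ 0) :
    ∃ q ∈ Car G, (∀ f ∈ Car G, ∀ i j, w i - w j = b → ∑ k, f k * q k = f i - f j) ∧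
      X * Y - Y * X = diagonal (fun i => trace (X * Y) * (q i : ℂ)) := by
  obtain ⟨hd, hs⟩ := h.core hX hY hXb hYb
  set κ := trace (X * Y) with hκd
  set p : ι → ℂ := fun i => (X * Y - Y * X) i i with hp
  have hpG : diagonal p ∈ G := by
    rw [← hd]
    exact h.lie X hX Y hY
  set qc : ι → ℂ := fun i => κ⁻¹ * p i with hqc
  have hqG : diagonal qc ∈ G := by
    have h1 := G.smul_mem κ⁻¹ hpG
    rw [← diagonal_smul] at h1
    exact h1
  obtain ⟨hre, him⟩ := h.re_im_mem hqG
  obtain ⟨i₀, j₀, hij⟩ : ∃ i j, X i j ≠ 0 := by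
    by_contra hcon
    push Not at hcon
    exact h0 (by ext i j; exact hcon i j)
  have hb0 := hXb i₀ j₀ hij
  have hsum : ∀ f ∈ Car G, ∀ i j, w i - w j = b → ∑ k, (f k : ℂ) * qc k = ((f i - f j : ℝ) : ℂ) := by
    intro f hf i j hij'
    have h1 := hs f hf i j hij'
    have h2 : ∑ k, (f k : ℂ) * qc k = κ⁻¹ * ∑ k, (f k : ℂ) * (X * Y - Y * X) k k := by
      rw [Finset.mul_sum]
      refine Finset.sum_congr rfl (fun k _ => ?_)
      rw [hqc, hp]
      ring
    rw [h2, h1, mul_comm (((f i - f j : ℝ) : ℂ)), ← mul_assoc, inv_mul_cancel₀ hκ, one_mul]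
  have him0 : ∀ i, (qc i).im = 0 := by
    have h1 := congrArg Complex.im (hsum _ him i₀ j₀ hb0)
    rw [Complex.ofReal_im, Complex.im_sum] at h1
    have h2 : ∀ k ∈ Finset.univ, (((qc k).im : ℂ) * qc k).im = (qc k).im ^ 2 := by
      intro k _
      rw [Complex.im_ofReal_mul]
      ring
    rw [Finset.sum_congr rfl h2] at h1
    intro i
    have h3 := (Finset.sum_eq_zero_iff_of_nonneg (fun k _ => sq_nonneg _)).1 h1 i
      (Finset.mem_univ i)
    exact pow_eq_zero_iff (two_ne_zero) |>.1 h3
  have hqr : ∀ i, qc i = (((qc i).re : ℝ) : ℂ) := by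
    intro i
    apply Complex.ext
    · simp
    · rw [him0 i, Complex.ofReal_im]
  refine ⟨fun i => (qc i).re, hre, ?_, ?_⟩
  · intro f hf i j hij'
    have h1 := hsum f hf i j hij'
    have h2 : ((∑ k, f k * (qc k).re : ℝ) : ℂ) = ((f i - f j : ℝ) : ℂ) := by
      rw [← h1]
      push_cast
      refine Finset.sum_congr rfl (fun k _ => ?_)
      rw [← hqr k]
    exact_mod_cast h2
  · rw [hd]
    congr 1
    funext i
    rw [← hqr i]
    show p i = κ * (κ⁻¹ * p i)
    rw [← mul_assoc, mul_inv_cancel₀ hκ, one_mul]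

/-- M5 with the adjoint in `G` as a hypothesis -/
theorem Tw.coroot_of_star (h : Tw G u w) {X : Matrix ι ι ℂ} (hX : X ∈ G) (hXs : Xᴴ ∈ G) {b : ℝ}
    (hs : Sup w b X) (h0 : X ≠ 0) :
    ∃ t ∈ Car G, (∀ f ∈ Car G, ∀ i j, w i - w j = b → ∑ k, f k * t k = f i - f j) ∧
      ∃ κ : ℝ, 0 < κ ∧ X * Xᴴ - Xᴴ * X = diagonal (fun i => ((κ * t i : ℝ) : ℂ)) := by
  have hYb : Sup w (-b) Xᴴ := by
    intro i j hij
    rw [conjTranspose_apply] at hij
    have h1 := hs j i (fun h2 => hij (by rw [h2, star_zero]))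
    linarith
  set κ : ℝ := ∑ i, ∑ j, ‖X i j‖ ^ 2 with hκ
  have htr : trace (X * Xᴴ) = (κ : ℂ) := by
    rw [trace, hκ]
    push_cast
    refine Finset.sum_congr rfl (fun i _ => ?_)
    rw [diag_apply, mul_apply]
    refine Finset.sum_congr rfl (fun j _ => ?_)
    rw [conjTranspose_apply, ← Complex.mul_conj']
    rfl
  have hκ0 : 0 < κ := by
    obtain ⟨i₀, j₀, hij⟩ : ∃ i j, X i j ≠ 0 := by
      by_contra hcon
      push Not at hcon
      exact h0 (by ext i j; exact hcon i j)
    rw [hκ]
    refine Finset.sum_pos' (fun i _ => Finset.sum_nonneg (fun j _ => by positivity))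
      ⟨i₀, Finset.mem_univ _, Finset.sum_pos' (fun j _ => by positivity)
        ⟨j₀, Finset.mem_univ _, by positivity⟩⟩
  obtain ⟨q, hq, hf, hd⟩ := h.real_part hX hXs hs hYb h0 (by
    rw [htr]
    exact_mod_cast hκ0.ne')
  refine ⟨q, hq, hf, κ, hκ0, ?_⟩
  rw [hd, htr]
  congr 1
  funext i
  push_cast
  rfl

/-- the sum over the pairs whose second index has value `a` -/
noncomputable def zt (w : ι → ℝ) (X Y : Matrix ι ι ℂ) (a : ℝ) : ℂ :=
  ∑ k, if w k = a then ∑ i, X i k * Y k i else 0

omit [DecidableEq ι] in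
lemma zt_shift {X Y : Matrix ι ι ℂ} {b : ℝ} (hXb : Sup w b X) (a : ℝ) :
    zt w X Y (a - b) = ∑ i, if w i = a then ∑ k, X i k * Y k i else 0 := by
  unfold zt
  have e1 : ∀ k, (if w k = a - b then ∑ i, X i k * Y k i else 0) =
      ∑ i, if w i = a then X i k * Y k i else 0 := by
    intro k
    split_ifs with hk
    · refine Finset.sum_congr rfl (fun i _ => ?_)
      by_cases h0 : X i k = 0
      · rw [h0, zero_mul, ite_self]
      · have := hXb i k h0
        rw [if_pos (by linarith)]
    · symm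
      refine Finset.sum_eq_zero (fun i _ => ?_)
      by_cases h0 : X i k = 0
      · rw [h0, zero_mul, ite_self]
      · have := hXb i k h0
        rw [if_neg (fun h1 => hk (by linarith))]
  rw [Finset.sum_congr rfl (fun k _ => e1 k), Finset.sum_comm]
  refine Finset.sum_congr rfl (fun i _ => ?_)
  split_ifs with hi
  · rfl
  · simp

lemma zt_step {X Y : Matrix ι ι ℂ} {b : ℝ} (hXb : Sup w b X) {κ : ℂ} {q : ι → ℝ}
    (hd : X * Y - Y * X = diagonal (fun i => κ * (q i : ℂ))) (a : ℝ) :
    zt w X Y (a - b) - zt w X Y a = κ * ((∑ i, if w i = a then q i else 0 : ℝ) : ℂ) := by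
  rw [zt_shift hXb]
  unfold zt
  rw [← Finset.sum_sub_distrib]
  push_cast
  rw [Finset.mul_sum]
  refine Finset.sum_congr rfl (fun i _ => ?_)
  split_ifs with hi
  · have h1 := congrFun (congrFun hd i) i
    rw [diagonal_apply_eq, Matrix.sub_apply, mul_apply, mul_apply] at h1
    rw [← h1]
    congr 1
    refine Finset.sum_congr rfl (fun k _ => ?_)
    ring
  · simp

omit [DecidableEq ι] in
lemma zt_ne {X Y : Matrix ι ι ℂ} {b : ℝ} (hXb : Sup w b X) {a : ℝ} (h : zt w X Y a ≠ 0) :
    (∃ k, w k = a) ∧ ∃ i, w i = a + b := by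
  unfold zt at h
  obtain ⟨k, _, hk⟩ := Finset.exists_ne_zero_of_sum_ne_zero h
  split_ifs at hk with h1
  · obtain ⟨i, _, hi⟩ := Finset.exists_ne_zero_of_sum_ne_zero hk
    have := hXb i k (left_ne_zero_of_mul hi)
    exact ⟨⟨k, h1⟩, i, by linarith⟩
  · exact absurd rfl hk

omit [DecidableEq ι] in
/-- no infinite progression of values -/
lemma no_run (w : ι → ℝ) {b : ℝ} (hb : b ≠ 0) (a : ℝ) : ¬ ∀ n : ℕ, ∃ i, w i = a + n * b := by
  intro h
  choose f hf using h
  have hinj : Function.Injective f := by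
    intro m n hmn
    have h1 := hf m
    have h2 := hf n
    rw [hmn] at h1
    have h3 : (m : ℝ) * b = n * b := by linarith
    exact_mod_cast mul_right_cancel₀ hb h3
  exact not_injective_infinite_finite f hinj

omit [DecidableEq ι] in
/-- an increasing sequence with a positive value: the partial sums cannot be negative -/
lemma run_up {z : ℝ → ℝ} {q : ι → ℝ} {b s : ℝ} (hb : b ≠ 0) (hs : 0 < s)
    (hq0 : ∀ i j, w i = w j → q i = q j) (hqs : ∀ i j, w i - w j = b → q i - q j = s)
    (hstep : ∀ a, z (a - b) - z a = ∑ i, if w i = a then q i else 0)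
    (hne : ∀ a, z a ≠ 0 → (∃ k, w k = a) ∧ ∃ i, w i = a + b)
    (a : ℝ) (hz : z a < 0) (i : ι) (hi : w i = a) (hqi : 0 < q i) : False := by
  have key : ∀ n : ℕ, z (a + n * b) < 0 ∧ ∃ i, w i = a + n * b ∧ 0 < q i := by
    intro n
    induction n with
    | zero =>
      simp only [Nat.cast_zero, zero_mul, add_zero]
      exact ⟨hz, i, hi, hqi⟩
    | succ n ih =>
      obtain ⟨h1, i', h2, h3⟩ := ih
      obtain ⟨_, i'', h4⟩ := hne _ h1.ne
      have h5 : q i'' - q i' = s := hqs _ _ (by rw [h4, h2]; ring)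
      have h6 : w i'' = a + ((n + 1 : ℕ) : ℝ) * b := by rw [h4]; push_cast; ring
      refine ⟨?_, i'', h6, by linarith⟩
      have h7 := hstep (a + ((n + 1 : ℕ) : ℝ) * b)
      have h8 : a + ((n + 1 : ℕ) : ℝ) * b - b = a + n * b := by push_cast; ring
      rw [h8] at h7
      have h9 : 0 < ∑ i, if w i = a + ((n + 1 : ℕ) : ℝ) * b then q i else 0 := by
        refine Finset.sum_pos' (fun k _ => ?_) ⟨i'', Finset.mem_univ _, ?_⟩
        · split_ifs with hk
          · rw [hq0 k i'' (by rw [hk, h6])]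
            linarith
          · exact le_rfl
        · rw [if_pos h6]
          linarith
      linarith
  exact no_run w hb a (fun n => by
    obtain ⟨_, i, hi, _⟩ := key n
    exact ⟨i, hi⟩)

omit [DecidableEq ι] in
/-- the same downwards -/
lemma run_down {z : ℝ → ℝ} {q : ι → ℝ} {b s : ℝ} (hb : b ≠ 0) (hs : 0 < s)
    (hq0 : ∀ i j, w i = w j → q i = q j) (hqs : ∀ i j, w i - w j = b → q i - q j = s)
    (hstep : ∀ a, z (a - b) - z a = ∑ i, if w i = a then q i else 0)
    (hne : ∀ a, z a ≠ 0 → (∃ k, w k = a) ∧ ∃ i, w i = a + b)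
    (a : ℝ) (hz : z a < 0) (i : ι) (hi : w i = a) (hqi : q i < 0) : False := by
  have key : ∀ n : ℕ, z (a + n * (-b)) < 0 ∧ ∃ i, w i = a + n * (-b) ∧ q i < 0 := by
    intro n
    induction n with
    | zero =>
      simp only [Nat.cast_zero, zero_mul, add_zero]
      exact ⟨hz, i, hi, hqi⟩
    | succ n ih =>
      obtain ⟨h1, i', h2, h3⟩ := ih
      have h7 := hstep (a + n * (-b))
      have h8 : a + n * (-b) - b = a + ((n + 1 : ℕ) : ℝ) * (-b) := by push_cast; ring
      rw [h8] at h7
      have h9 : ∑ i, (if w i = a + n * (-b) then q i else 0) < 0 := by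
        have h10 : 0 < ∑ i, -(if w i = a + n * (-b) then q i else 0) := by
          refine Finset.sum_pos' (fun k _ => ?_) ⟨i', Finset.mem_univ _, ?_⟩
          · split_ifs with hk
            · rw [hq0 k i' (by rw [hk, h2])]
              linarith
            · simp
          · rw [if_pos h2]
            linarith
        rw [Finset.sum_neg_distrib] at h10
        linarith
      have h11 : z (a + ((n + 1 : ℕ) : ℝ) * (-b)) < 0 := by linarith
      obtain ⟨⟨i'', h4⟩, _⟩ := hne _ h11.ne
      have h5 : q i' - q i'' = s := hqs _ _ (by rw [h4, h2]; push_cast; ring)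
      exact ⟨h11, i'', h4, by linarith⟩
  exact no_run w (neg_ne_zero.2 hb) a (fun n => by
    obtain ⟨_, i, hi, _⟩ := key n
    exact ⟨i, hi⟩)

omit [DecidableEq ι] in
/-- the partial sums are positive -/
lemma run_pos {z : ℝ → ℝ} {q : ι → ℝ} {b s : ℝ} (hb : b ≠ 0) (hs : 0 < s)
    (hq0 : ∀ i j, w i = w j → q i = q j) (hqs : ∀ i j, w i - w j = b → q i - q j = s)
    (hstep : ∀ a, z (a - b) - z a = ∑ i, if w i = a then q i else 0)
    (hne : ∀ a, z a ≠ 0 → (∃ k, w k = a) ∧ ∃ i, w i = a + b)
    {i j : ι} (hij : w i - w j = b) : 0 < z (w j) := by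
  by_contra hcon
  push Not at hcon
  have hqij := hqs i j hij
  rcases lt_or_ge 0 (q i) with h1 | h1
  · -- upwards from `w i`
    have h2 := hstep (w i)
    have h3 : w i - b = w j := by linarith
    rw [h3] at h2
    have h4 : 0 < ∑ k, if w k = w i then q k else 0 := by
      refine Finset.sum_pos' (fun k _ => ?_) ⟨i, Finset.mem_univ _, ?_⟩
      · split_ifs with hk
        · rw [hq0 k i hk]
          linarith
        · exact le_rfl
      · rw [if_pos rfl]
        exact h1
    exact run_up hb hs hq0 hqs hstep hne (w i) (by linarith) i rfl h1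
  · -- downwards from `w j`
    have h2 := hstep (w j)
    have hqj : q j < 0 := by linarith
    have h4 : ∑ k, (if w k = w j then q k else 0) < 0 := by
      have h10 : 0 < ∑ k, -(if w k = w j then q k else 0) := by
        refine Finset.sum_pos' (fun k _ => ?_) ⟨j, Finset.mem_univ _, ?_⟩
        · split_ifs with hk
          · rw [hq0 k j hk]
            linarith
          · simp
        · rw [if_pos rfl]
          linarith
      rw [Finset.sum_neg_distrib] at h10
      linarith
    have h5 : z (w j - b) < 0 := by linarith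
    obtain ⟨⟨k, hk⟩, _⟩ := hne _ h5.ne
    have h6 : q j - q k = s := hqs _ _ (by rw [hk]; ring)
    exact run_down hb hs hq0 hqs hstep hne (w j - b) h5 k hk (by linarith)

/-- M3: strings -/
theorem Tw.string (h : Tw G u w) {X : Matrix ι ι ℂ} (hX : X ∈ G) {b : ℝ} (hb : b ≠ 0)
    (hs : Sup w b X) (h0 : X ≠ 0) :
    ∃ c : ℂ, ‖c‖ = 1 ∧ ∀ i j, w i - w j = b → u i = c * u j := by
  set Y : Matrix ι ι ℂ := diagonal u * Xᴴ * diagonal (fun i => (u i)⁻¹) with hYdef
  have hY : Y ∈ G := h.twist X hX
  have hYe : ∀ i j, Y i j = u i * (starRingEnd ℂ) (X j i) * (u j)⁻¹ := by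
    intro i j
    rw [hYdef, mul_diagonal, diagonal_mul, conjTranspose_apply]
    rfl
  have hYb : Sup w (-b) Y := by
    intro i j hij
    rw [hYe] at hij
    have h1 := hs j i (fun h2 => hij (by rw [h2, map_zero, mul_zero, zero_mul]))
    linarith
  obtain ⟨i₀, j₀, hij⟩ : ∃ i j, X i j ≠ 0 := by
    by_contra hcon
    push Not at hcon
    exact h0 (by ext i j; exact hcon i j)
  have hb0 := hs i₀ j₀ hij
  -- the sums are twisted sums of squares
  have hzt : ∀ i j, w i - w j = b → zt w X Y (w j) =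
      u j * (u i)⁻¹ * ((∑ k, if w k = w j then ∑ i, ‖X i k‖ ^ 2 else 0 : ℝ) : ℂ) := by
    intro i j hij'
    unfold zt
    push_cast
    rw [Finset.mul_sum]
    refine Finset.sum_congr rfl (fun k _ => ?_)
    split_ifs with hk
    · push_cast
      rw [Finset.mul_sum]
      refine Finset.sum_congr rfl (fun l _ => ?_)
      rw [hYe]
      by_cases hX0 : X l k = 0
      · rw [hX0]; simp
      · have h1 := hs l k hX0
        rw [h.uw k j hk, h.uw l i (by linarith), ← Complex.mul_conj']
        ring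
    · simp
  -- the trace does not vanish
  have hκ : trace (X * Y) ≠ 0 := by
    intro hκ
    obtain ⟨hd, hsum⟩ := h.core hX hY hs hYb
    set p : ι → ℂ := fun i => (X * Y - Y * X) i i with hp
    have hpG : diagonal p ∈ G := by
      rw [← hd]
      exact h.lie X hX Y hY
    obtain ⟨hre, him⟩ := h.re_im_mem hpG
    have hp0 : ∀ k, p k = 0 := by
      have h1 := congrArg Complex.re (hsum _ hre i₀ j₀ hb0)
      have h2 := congrArg Complex.im (hsum _ him i₀ j₀ hb0)
      rw [hκ, mul_zero, Complex.zero_re, Complex.re_sum] at h1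
      rw [hκ, mul_zero, Complex.zero_im, Complex.im_sum] at h2
      have h3 : ∀ k ∈ Finset.univ, (((p k).re : ℂ) * (X * Y - Y * X) k k).re = (p k).re ^ 2 := by
        intro k _
        rw [Complex.re_ofReal_mul]
        show (p k).re * (p k).re = _
        ring
      have h4 : ∀ k ∈ Finset.univ, (((p k).im : ℂ) * (X * Y - Y * X) k k).im = (p k).im ^ 2 := by
        intro k _
        rw [Complex.im_ofReal_mul]
        show (p k).im * (p k).im = _
        ring
      rw [Finset.sum_congr rfl h3] at h1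
      rw [Finset.sum_congr rfl h4] at h2
      intro k
      have h5 := (Finset.sum_eq_zero_iff_of_nonneg (fun k _ => sq_nonneg _)).1 h1 k
        (Finset.mem_univ k)
      have h6 := (Finset.sum_eq_zero_iff_of_nonneg (fun k _ => sq_nonneg _)).1 h2 k
        (Finset.mem_univ k)
      apply Complex.ext
      · exact pow_eq_zero_iff (two_ne_zero) |>.1 h5
      · exact pow_eq_zero_iff (two_ne_zero) |>.1 h6
    have hstep : ∀ a, zt w X Y (a - b) - zt w X Y a = 0 := by
      intro a
      have h1 := zt_step (κ := 1) (q := fun _ => 0) hs (by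
        rw [hd]
        congr 1
        funext k
        show p k = _
        rw [hp0 k]
        simp) a
      rw [h1]
      simp
    have hne0 : zt w X Y (w j₀) ≠ 0 := by
      rw [hzt i₀ j₀ hb0]
      refine mul_ne_zero (mul_ne_zero (h.u_ne _) (inv_ne_zero (h.u_ne _))) ?_
      have : 0 < ∑ k, if w k = w j₀ then ∑ i, ‖X i k‖ ^ 2 else 0 := by
        refine Finset.sum_pos' (fun k _ => ?_) ⟨j₀, Finset.mem_univ _, ?_⟩
        · split_ifs
          · exact Finset.sum_nonneg (fun i _ => by positivity)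
          · exact le_rfl
        · rw [if_pos rfl]
          exact Finset.sum_pos' (fun i _ => by positivity) ⟨i₀, Finset.mem_univ _, by positivity⟩
      exact_mod_cast this.ne'
    have hall : ∀ n : ℕ, zt w X Y (w j₀ + n * b) ≠ 0 := by
      intro n
      induction n with
      | zero => simpa using hne0
      | succ n ih =>
        have h1 := hstep (w j₀ + ((n + 1 : ℕ) : ℝ) * b)
        have h2 : w j₀ + ((n + 1 : ℕ) : ℝ) * b - b = w j₀ + n * b := by push_cast; ring
        rw [h2] at h1
        rw [← sub_eq_zero.1 h1]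
        exact ih
    exact no_run w hb (w j₀) (fun n => (zt_ne hs (hall n)).1)
  obtain ⟨q, hq, hqf, hd⟩ := h.real_part hX hY hs hYb h0 hκ
  set κ := trace (X * Y) with hκd
  -- the values of `q`
  have hq0 : ∀ i j, w i = w j → q i = q j := by
    intro i j hij'
    have := h.gen q hq i j j j (by rw [hij', sub_self])
    linarith
  set s := ∑ k, q k * q k with hsdef
  have hqs : ∀ i j, w i - w j = b → q i - q j = s := fun i j hij' => (hqf q hq i j hij').symm
  have hs0 : 0 < s := by
    have h1 : 0 ≤ s := Finset.sum_nonneg (fun k _ => mul_self_nonneg _)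
    rcases eq_or_lt_of_le h1 with h2 | h2
    · exfalso
      have h3 : ∀ k, q k = 0 := by
        intro k
        have h4 := (Finset.sum_eq_zero_iff_of_nonneg (fun k _ => mul_self_nonneg _)).1 h2.symm k
          (Finset.mem_univ k)
        exact mul_self_eq_zero.1 h4
      have h5 := hqf w h.mem i₀ j₀ hb0
      rw [Finset.sum_eq_zero (fun k _ => by rw [h3 k, mul_zero]), hb0] at h5
      exact hb h5.symm
    · exact h2
  -- the normalised sums
  set z : ℝ → ℂ := fun a => κ⁻¹ * zt w X Y a with hz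
  have hstepc : ∀ a, z (a - b) - z a = ((∑ i, if w i = a then q i else 0 : ℝ) : ℂ) := by
    intro a
    rw [hz]
    simp only
    rw [← mul_sub, zt_step hs hd a, ← mul_assoc, inv_mul_cancel₀ hκ, one_mul]
  have hnec : ∀ a, z a ≠ 0 → (∃ k, w k = a) ∧ ∃ i, w i = a + b := fun a ha =>
    zt_ne hs (right_ne_zero_of_mul ha)
  have him : ∀ a, (z a).im = 0 := by
    intro a
    by_contra hne
    have hall : ∀ n : ℕ, (z (a + n * b)).im ≠ 0 := by
      intro n
      induction n with
      | zero => simpa using hne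
      | succ n ih =>
        have h1 := congrArg Complex.im (hstepc (a + ((n + 1 : ℕ) : ℝ) * b))
        have h2 : a + ((n + 1 : ℕ) : ℝ) * b - b = a + n * b := by push_cast; ring
        rw [h2, Complex.sub_im, Complex.ofReal_im] at h1
        rw [← sub_eq_zero.1 h1]
        exact ih
    exact no_run w hb a (fun n => (hnec _ (fun h1 => hall n (by rw [h1, Complex.zero_im]))).1)
  have hpos : ∀ i j, w i - w j = b → 0 < (z (w j)).re := by
    intro i j hij'
    refine run_pos (z := fun a => (z a).re) hb hs0 hq0 hqs ?_ ?_ hij'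
    · intro a
      have h1 := congrArg Complex.re (hstepc a)
      rw [Complex.sub_re, Complex.ofReal_re] at h1
      exact h1
    · intro a ha
      exact hnec a (fun h1 => ha (by rw [h1, Complex.zero_re]))
  have hκn : (‖κ‖ : ℂ) ≠ 0 := by exact_mod_cast norm_ne_zero_iff.2 hκ
  refine ⟨(‖κ‖ : ℂ) / κ, ?_, ?_⟩
  · rw [norm_div, Complex.norm_real, norm_norm, div_self (norm_ne_zero_iff.2 hκ)]
  · intro i j hij'
    have h1 := hpos i j hij'
    set r := (z (w j)).re with hr
    have h2 : z (w j) = (r : ℂ) := by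
      apply Complex.ext
      · simp [hr]
      · rw [him, Complex.ofReal_im]
    set N : ℝ := ∑ k, if w k = w j then ∑ i, ‖X i k‖ ^ 2 else 0 with hN
    have h3 : κ * (r : ℂ) = u j * (u i)⁻¹ * (N : ℂ) := by
      rw [← h2, hz]
      simp only
      rw [← mul_assoc, mul_inv_cancel₀ hκ, one_mul, hzt i j hij']
    have hN0 : 0 ≤ N := by
      refine Finset.sum_nonneg (fun k _ => ?_)
      split_ifs
      · exact Finset.sum_nonneg (fun i _ => by positivity)
      · exact le_rfl
    have h4 : ‖κ‖ * r = N := by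
      have h5 := congrArg norm h3
      rw [norm_mul, norm_mul, norm_mul, norm_inv, h.unit, h.unit, Complex.norm_real,
        Complex.norm_real, Real.norm_of_nonneg h1.le, Real.norm_of_nonneg hN0] at h5
      simpa using h5
    have hr0 : (r : ℂ) ≠ 0 := by exact_mod_cast h1.ne'
    have hui := h.u_ne i
    rw [← h4] at h3
    push_cast at h3
    have h6 : κ * u i = u j * (‖κ‖ : ℂ) := by
      have h7 : (κ * u i) * (r : ℂ) = (u j * (‖κ‖ : ℂ)) * (r : ℂ) := by
        calc (κ * u i) * (r : ℂ) = (κ * (r : ℂ)) * u i := by ring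
          _ = (u j * (u i)⁻¹ * ((‖κ‖ : ℂ) * (r : ℂ))) * u i := by rw [h3]
          _ = (u j * (‖κ‖ : ℂ)) * (r : ℂ) * ((u i)⁻¹ * u i) := by ring
          _ = _ := by rw [inv_mul_cancel₀ hui, mul_one]
      exact mul_right_cancel₀ hr0 h7
    rw [div_mul_eq_mul_div, eq_div_iff hκ, mul_comm (u i), h6, mul_comm]

end Pc0b458L
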