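import Pool.Agent.Lib.Pc0b458L.Star
import Pool.Agent.Lib.Pc0b458L.String

/-!
# Coroots
-/

namespace Pc0b458L

open Matrix

variable {ι : Type} [Fintype ι] [DecidableEq ι] {G : Submodule ℂ (Matrix ι ι ℂ)} {u : ι → ℂ}
  {w : ι → ℝ}

/-- M5: coroots -/
theorem Tw.coroot (h : Tw G u w) {X : Matrix ι ι ℂ} (hX : X ∈ G) {b : ℝ} (hb : b ≠ 0)
    (hs : Sup w b X) (h0 : X ≠ 0) :
    ∃ t ∈ Car G, (∀ f ∈ Car G, ∀ i j, w i - w j = b → ∑ k, f k * t k = f i - f j) ∧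
      ∃ κ : ℝ, 0 < κ ∧ X * Xᴴ - Xᴴ * X = diagonal (fun i => ((κ * t i : ℝ) : ℂ)) :=
  h.coroot_of_star hX (h.star hX) hs h0

end Pc0b458L
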