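import Pool.Agent.Lib.Pc0b458L.ListProd
import Pool.Agent.Lib.Pc0b458L.Coroot

/-!
# Indices whose difference is a sum of roots

`share`: if the difference of the values at `i` and at `j` is a sum of roots then `i` and `j` are
connected by edges and by pairs of indices with the same value. `real3`: the product of a central
element over a set of indices, if there are at most three connected components and if opposite
indices are connected.
-/

open Finset

namespace Pc0b458L

open Matrix

variable {ι : Type} [Fintype ι] [DecidableEq ι] {G : Submodule ℂ (Matrix ι ι ℂ)} {u : ι → ℂ}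
  {w : ι → ℝ}

/-- the relation generated by edges and by pairs of indices with the same value -/
def Conn (G : Submodule ℂ (Matrix ι ι ℂ)) : ι → ι → Prop :=
  Relation.EqvGen fun i j => Edge G (i, j) ∨ ∀ f ∈ Car G, f i = f j

/-- `φ` is a sum of roots -/
def InQ (G : Submodule ℂ (Matrix ι ι ℂ)) (φ : (ι → ℝ) → ℝ) : Prop :=
  ∃ l : List (ι × ι), (∀ e ∈ l, Edge G e) ∧ ∀ f ∈ Car G, φ f = (l.map fun e => f e.1 - f e.2).sum

omit [Fintype ι] in
theorem InQ.add {φ ψ : (ι → ℝ) → ℝ} (h : InQ G φ) (h' : InQ G ψ) : InQ G fun f => φ f + ψ f := by
  obtain ⟨l, hl, h1⟩ := h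
  obtain ⟨l', hl', h1'⟩ := h'
  refine ⟨l ++ l', ?_, fun f hf => ?_⟩
  · intro e he
    rcases List.mem_append.1 he with h3 | h3
    · exact hl e h3
    · exact hl' e h3
  · beta_reduce
    rw [h1 f hf, h1' f hf, List.map_append, List.sum_append]

omit [Fintype ι] in
theorem InQ.congr {φ ψ : (ι → ℝ) → ℝ} (h : InQ G φ) (h' : ∀ f ∈ Car G, ψ f = φ f) : InQ G ψ := by
  obtain ⟨l, hl, h1⟩ := h
  exact ⟨l, hl, fun f hf => by rw [h' f hf, h1 f hf]⟩

theorem Tw.edge_rev (h : Tw G u w) {i j : ι} (hij : Edge G (i, j)) : Edge G (j, i) := by
  obtain ⟨X, hX, h0⟩ := hij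
  refine ⟨Xᴴ, h.star hX, ?_⟩
  rw [conjTranspose_apply]
  exact fun h1 => h0 (star_eq_zero.1 h1)

theorem InQ.neg (h : Tw G u w) {φ : (ι → ℝ) → ℝ} (hφ : InQ G φ) : InQ G fun f => -φ f := by
  obtain ⟨l, hl, h1⟩ := hφ
  refine ⟨l.map Prod.swap, ?_, fun f hf => ?_⟩
  · intro e he
    obtain ⟨e', he', rfl⟩ := List.mem_map.1 he
    exact h.edge_rev (hl e' he')
  · beta_reduce
    rw [h1 f hf, List.map_map]
    clear h1 hl
    induction l with
    | nil => simp
    | cons e l ih =>
      simp only [List.map_cons, List.sum_cons, Function.comp_apply, Prod.fst_swap,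
        Prod.snd_swap] at ih ⊢
      rw [← ih]
      ring

theorem Conn.inQ (h : Tw G u w) {i j : ι} (hij : Conn G i j) : InQ G fun f => f i - f j := by
  induction hij with
  | rel i j hij =>
    rcases hij with hij | hij
    · exact ⟨[(i, j)], by simpa using hij, fun f _ => by simp⟩
    · exact ⟨[], by simp, fun f hf => by beta_reduce; rw [hij f hf]; simp⟩
  | refl i => exact ⟨[], by simp, fun f _ => by simp⟩
  | symm i j _ ih => exact (ih.neg h).congr fun f _ => by ring
  | trans i j k _ _ ih1 ih2 => exact (ih1.add ih2).congr fun f _ => by ring

/-- if the difference of the values at `i` and `j` is a sum of roots then `i` and `j` are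
connected -/
theorem Tw.share (h : Tw G u w) (l : List (ι × ι)) (hl : ∀ e ∈ l, Edge G e) (i i' : ι)
    (h0 : ∀ f ∈ Car G, f i - f i' = (l.map fun e => f e.1 - f e.2).sum) : Conn G i i' := by
  classical
  induction hn : l.length using Nat.strong_induction_on generalizing l i i' with
  | _ n ih =>
    match l, hl, h0, hn with
    | [], _, h0, _ =>
      refine Relation.EqvGen.rel _ _ (Or.inr fun f hf => ?_)
      have := h0 f hf
      rw [List.map_nil, List.sum_nil] at this
      linarith
    | e :: l', hl, h0, hn =>
      have hlt : l'.length < n := by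
        rw [← hn, List.length_cons]
        exact Nat.lt_succ_self _
      by_cases hd : w e.1 - w e.2 = 0
      · refine ih l'.length hlt l' (fun x hx => hl x (List.mem_cons_of_mem _ hx)) i i'
          (fun f hf => ?_) rfl
        have h1 := h0 f hf
        rw [List.map_cons, List.sum_cons] at h1
        have h2 : f e.1 - f e.2 = 0 := by
          have := h.gen f hf e.1 e.2 e.1 e.1 (by rw [hd, sub_self])
          rwa [sub_self] at this
        rwa [h2, zero_add] at h1
      · obtain ⟨X, hX, hXs, hXne⟩ := h.edge_comp (hl e List.mem_cons_self)
        obtain ⟨t, ht, htb, κ, hκ, hXX⟩ := h.coroot hX hd hXs (ne_zero_of_entry hXne)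
        have hpos : 0 < t e.1 - t e.2 := by
          have h1 := htb t ht e.1 e.2 rfl
          rw [← h1]
          have h2 : 0 ≤ ∑ k, t k * t k := Finset.sum_nonneg fun k _ => mul_self_nonneg _
          rcases h2.lt_or_eq with h3 | h3
          · exact h3
          · exfalso
            have h4 : ∀ k, t k = 0 := fun k => by
              have := (Finset.sum_eq_zero_iff_of_nonneg
                (fun k _ => mul_self_nonneg (t k))).mp h3.symm k (Finset.mem_univ k)
              exact mul_self_eq_zero.mp this
            have h5 := htb w h.mem e.1 e.2 rfl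
            simp only [h4, mul_zero, Finset.sum_const_zero] at h5
            exact hd h5.symm
        by_cases hex : ∃ e' ∈ l', t e'.1 - t e'.2 < 0
        · -- two edges are replaced by one
          obtain ⟨e', he', hneg⟩ := hex
          have hd' : w e'.1 - w e'.2 ≠ 0 := by
            intro hz
            have := h.gen t ht e'.1 e'.2 e'.1 e'.1 (by rw [hz, sub_self])
            rw [sub_self] at this
            rw [this] at hneg
            exact lt_irrefl _ hneg
          have heE' := hl e' (List.mem_cons_of_mem _ he')
          obtain ⟨s, hs, hsb⟩ := h.edge_coroot heE'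
          obtain ⟨Z, hZ, hZs, hZne⟩ := h.edge_comp heE'
          have hsc : ∑ k, t k * s k < 0 := by
            rw [hsb t ht e'.1 e'.2 rfl]
            exact hneg
          have hY := h.bracket hX hZ hd hd' hXs hZs (ne_zero_of_entry hXne)
            (ne_zero_of_entry hZne) ht hs htb hsb hsc
          have hYG := h.lie X hX Z hZ
          obtain ⟨p, q, hpq⟩ : ∃ p q, (X * Z - Z * X) p q ≠ 0 := by
            by_contra hcon
            push Not at hcon
            exact hY (by ext p q; exact hcon p q)
          have hkey : ∀ f ∈ Car G, f p - f q = (f e.1 - f e.2) + (f e'.1 - f e'.2) := by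
            have hcases : (∃ m, X p m ≠ 0 ∧ Z m q ≠ 0) ∨ (∃ m, Z p m ≠ 0 ∧ X m q ≠ 0) := by
              by_contra hcon
              push Not at hcon
              apply hpq
              rw [Matrix.sub_apply, Matrix.mul_apply, Matrix.mul_apply]
              rw [Finset.sum_eq_zero, Finset.sum_eq_zero, sub_zero]
              · intro m _
                by_cases h1 : Z p m = 0
                · rw [h1, zero_mul]
                · rw [hcon.2 m h1, mul_zero]
              · intro m _
                by_cases h1 : X p m = 0
                · rw [h1, zero_mul]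
                · rw [hcon.1 m h1, mul_zero]
            intro f hf
            rcases hcases with ⟨m, h1, h2⟩ | ⟨m, h1, h2⟩
            · have b1 := h.gen f hf p m e.1 e.2 (hXs p m h1)
              have b2 := h.gen f hf m q e'.1 e'.2 (hZs m q h2)
              linarith
            · have b1 := h.gen f hf p m e'.1 e'.2 (hZs p m h1)
              have b2 := h.gen f hf m q e.1 e.2 (hXs m q h2)
              linarith
          have hperm := List.perm_cons_erase he'
          have hlen : (l'.erase e').length + 1 = l'.length := by
            rw [hperm.length_eq, List.length_cons]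
          refine ih ((p, q) :: l'.erase e').length (by
              rw [List.length_cons, hlen]
              exact hlt) ((p, q) :: l'.erase e') ?_ i i' ?_ rfl
          · intro x hx
            rcases List.mem_cons.mp hx with rfl | hx
            · exact ⟨_, hYG, hpq⟩
            · exact hl x (List.mem_cons_of_mem _ (List.mem_of_mem_erase hx))
          · intro f hf
            have h1 := h0 f hf
            rw [List.map_cons, List.sum_cons, (hperm.map _).sum_eq, List.map_cons,
              List.sum_cons] at h1
            rw [List.map_cons, List.sum_cons]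
            show _ = f p - f q + _
            rw [hkey f hf]
            linarith
        · -- the first root is removed from one of the two values
          push Not at hex
          have hsum : 0 < t i - t i' := by
            rw [h0 t ht, List.map_cons, List.sum_cons]
            have h2 : 0 ≤ (l'.map fun e => t e.1 - t e.2).sum := by
              apply List.sum_nonneg
              intro x hx
              obtain ⟨y, hy, rfl⟩ := List.mem_map.mp hx
              exact hex y hy
            linarith
          have hdiag : ∀ k, (X * Xᴴ) k k - (Xᴴ * X) k k = ((κ * t k : ℝ) : ℂ) := by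
            intro k
            have h1 := congrFun (congrFun hXX k) k
            rwa [Matrix.sub_apply, diagonal_apply_eq] at h1
          have hrow : ∀ k, (X * Xᴴ) k k = ((∑ m, Complex.normSq (X k m) : ℝ) : ℂ) := by
            intro k
            rw [Matrix.mul_apply, Complex.ofReal_sum]
            refine Finset.sum_congr rfl fun m _ => ?_
            rw [conjTranspose_apply]
            exact Complex.mul_conj _
          have hcol : ∀ k, (Xᴴ * X) k k = ((∑ m, Complex.normSq (X m k) : ℝ) : ℂ) := by
            intro k
            rw [Matrix.mul_apply, Complex.ofReal_sum]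
            refine Finset.sum_congr rfl fun m _ => ?_
            rw [conjTranspose_apply, mul_comm]
            exact Complex.mul_conj _
          have hreal : ∀ k, ∑ m, Complex.normSq (X k m) - ∑ m, Complex.normSq (X m k) =
              κ * t k := by
            intro k
            have h1 := hdiag k
            rw [hrow, hcol] at h1
            exact_mod_cast h1
          have htail : ∀ x ∈ l', Edge G x := fun x hx => hl x (List.mem_cons_of_mem _ hx)
          rcases lt_or_ge 0 (t i) with hti | hti
          · -- an edge from `i`
            obtain ⟨k, hk⟩ : ∃ k, X i k ≠ 0 := by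
              by_contra hcon
              push Not at hcon
              have h1 := hreal i
              have h2 : ∑ m, Complex.normSq (X i m) = 0 :=
                Finset.sum_eq_zero fun m _ => by rw [hcon m, map_zero]
              have h3 : 0 ≤ ∑ m, Complex.normSq (X m i) :=
                Finset.sum_nonneg fun m _ => Complex.normSq_nonneg _
              have h4 := mul_pos hκ hti
              linarith
            have hE : Edge G (i, k) := ⟨X, hX, hk⟩
            refine Relation.EqvGen.trans _ _ _ (Relation.EqvGen.rel _ _ (Or.inl hE)) ?_
            refine ih l'.length hlt l' htail k i' (fun f hf => ?_) rfl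
            have h1 := h0 f hf
            rw [List.map_cons, List.sum_cons] at h1
            have h2 := h.gen f hf i k e.1 e.2 (hXs i k hk)
            linarith
          · -- an edge to `i'`
            have hti' : t i' < 0 := by linarith
            obtain ⟨k, hk⟩ : ∃ k, X k i' ≠ 0 := by
              by_contra hcon
              push Not at hcon
              have h1 := hreal i'
              have h2 : ∑ m, Complex.normSq (X m i') = 0 :=
                Finset.sum_eq_zero fun m _ => by rw [hcon m, map_zero]
              have h3 : 0 ≤ ∑ m, Complex.normSq (X i' m) :=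
                Finset.sum_nonneg fun m _ => Complex.normSq_nonneg _
              have h4 := mul_neg_of_pos_of_neg hκ hti'
              linarith
            have hE : Edge G (k, i') := ⟨X, hX, hk⟩
            refine Relation.EqvGen.trans _ _ _ ?_ (Relation.EqvGen.rel _ _ (Or.inl hE))
            refine ih l'.length hlt l' htail i k (fun f hf => ?_) rfl
            have h1 := h0 f hf
            rw [List.map_cons, List.sum_cons] at h1
            have h2 := h.gen f hf k i' e.1 e.2 (hXs k i' hk)
            linarith

theorem Tw.conn_of_inQ (h : Tw G u w) {i j : ι} (hij : InQ G fun f => f i - f j) : Conn G i j := by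
  obtain ⟨l, hl, h0⟩ := hij
  exact h.share l hl i j h0

omit [Fintype ι] in
theorem conn_const {z : ι → ℂ} (hze : ∀ i j, Edge G (i, j) → z i = z j)
    (hzw : ∀ i j, (∀ f ∈ Car G, f i = f j) → z i = z j) {i j : ι} (hij : Conn G i j) :
    z i = z j := by
  induction hij with
  | rel i j hij =>
    rcases hij with hij | hij
    · exact hze i j hij
    · exact hzw i j hij
  | refl i => rfl
  | symm i j _ ih => exact ih.symm
  | trans i j k _ _ ih1 ih2 => exact ih1.trans ih2

/-- the product of a central element over a set of indices -/
theorem Tw.real3 (h : Tw G u w) {z : ι → ℂ} (hze : ∀ i j, Edge G (i, j) → z i = z j)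
    (hzw : ∀ i j, (∀ f ∈ Car G, f i = f j) → z i = z j)
    (hbar : ∀ i, ∃ j, (∀ f ∈ Car G, f i + f j = 0) ∧ z i * z j = 1 ∧ Conn G i j)
    (h3 : ∀ a : Fin 4 → ι, ∃ p q, p ≠ q ∧ Conn G (a p) (a q))
    {n : ℕ} (I : Finset ι) (hI : I.card = 2 * n) (hs : ∀ f ∈ Car G, ∑ i ∈ I, f i = 0) :
    ∏ i ∈ I, z i = 1 := by
  have hsq : ∀ i, z i * z i = 1 := by
    intro i
    obtain ⟨j, -, h1, h2⟩ := hbar i
    rwa [← conn_const hze hzw h2] at h1
  have htwo : ∀ i, InQ G fun f => f i + f i := by
    intro i
    obtain ⟨j, h1, -, h2⟩ := hbar i
    refine (h2.inQ h).congr fun f hf => ?_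
    have := h1 f hf
    linarith
  have key : ∀ n (I : Finset ι), I.card = 2 * n → InQ G (fun f => ∑ i ∈ I, f i) →
      ∏ i ∈ I, z i = 1 := by
    intro n
    induction n with
    | zero =>
      intro I hI _
      rw [Finset.card_eq_zero.1 hI, prod_empty]
    | succ n ih =>
      intro I hI hQ
      -- two connected elements
      obtain ⟨a, ha, b, hb, hab, hconn⟩ : ∃ a ∈ I, ∃ b ∈ I, a ≠ b ∧ Conn G a b := by
        rcases Nat.eq_zero_or_pos n with rfl | hn
        · obtain ⟨a, b, hab, rfl⟩ := Finset.card_eq_two.1 hI
          refine ⟨a, by simp, b, by simp, hab, ?_⟩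
          apply h.conn_of_inQ
          have h1 : InQ G fun f => (∑ i ∈ ({a, b} : Finset ι), f i) + -(f b + f b) :=
            hQ.add ((htwo b).neg h)
          refine h1.congr fun f _ => ?_
          rw [Finset.sum_pair hab]
          ring
        · have h4 : 4 ≤ I.card := by omega
          obtain ⟨I', hI', hc⟩ := Finset.exists_subset_card_eq h4
          let e := (Finset.equivFin I').symm
          let a : Fin 4 → ι := fun k => (e (Fin.cast hc.symm k) : ι)
          have ha : Function.Injective a := by
            intro p q hpq
            have h5 := e.injective (Subtype.ext hpq)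
            exact Fin.cast_injective _ h5
          obtain ⟨p, q, hpq, hcn⟩ := h3 a
          exact ⟨a p, hI' (e _).2, a q, hI' (e _).2, fun h6 => hpq (ha h6), hcn⟩
      have hb' : b ∈ I.erase a := Finset.mem_erase.2 ⟨hab.symm, hb⟩
      have e1 : ∀ F : ι → ℝ, ∑ i ∈ I, F i = F a + (F b + ∑ i ∈ (I.erase a).erase b, F i) := by
        intro F
        rw [← Finset.add_sum_erase _ F ha, ← Finset.add_sum_erase _ F hb']
      have e2 : ∏ i ∈ I, z i = z a * (z b * ∏ i ∈ (I.erase a).erase b, z i) := by
        rw [← Finset.mul_prod_erase _ z ha, ← Finset.mul_prod_erase _ z hb']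
      have hcard : ((I.erase a).erase b).card = 2 * n := by
        rw [Finset.card_erase_of_mem hb', Finset.card_erase_of_mem ha, hI]
        omega
      have hQ' : InQ G fun f => ∑ i ∈ (I.erase a).erase b, f i := by
        have h1 : InQ G fun f => ((∑ i ∈ I, f i) + -(f b + f b)) + -(f a - f b) :=
          (hQ.add ((htwo b).neg h)).add ((hconn.inQ h).neg h)
        refine h1.congr fun f _ => ?_
        rw [e1]
        ring
      rw [e2, ih _ hcard hQ', mul_one, ← conn_const hze hzw hconn]
      exact hsq a
  exact key n I hI ⟨[], by simp, fun f hf => by beta_reduce; rw [hs f hf]; simp⟩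

end Pc0b458L
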