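import Pool.Agent.Lib.Pc0b458L.Share

/-!
# Products of a central element over sets of indices, and codes of length `Pl`

The indices are distributed to places; the indices of one place are connected. `par pl I` is the
vector of the parities of the numbers of elements of `I` of the places.
-/

open Finset

namespace Pc0b458L

open Matrix

variable {ι : Type} [Fintype ι] [DecidableEq ι] {G : Submodule ℂ (Matrix ι ι ℂ)} {u : ι → ℂ}
  {w : ι → ℝ}

/-- the parities of the numbers of elements of `I` of the places -/
def par {Pl : Type} [DecidableEq Pl] (pl : ι → Pl) (I : Finset ι) : Pl → ZMod 2 :=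
  fun s => ((I.filter (fun i => pl i = s)).card : ZMod 2)

omit [Fintype ι] in
theorem InQ.zero : InQ G fun _ => 0 := ⟨[], by simp, fun f _ => by simp⟩

omit [Fintype ι] in
theorem InQ.sum {κ : Type} (S : Finset κ) (φ : κ → (ι → ℝ) → ℝ) (h : ∀ k ∈ S, InQ G (φ k)) :
    InQ G fun f => ∑ k ∈ S, φ k f := by
  classical
  induction S using Finset.induction_on with
  | empty => exact InQ.zero.congr fun f _ => by simp
  | insert a S ha ih =>
    have h1 := (h a (Finset.mem_insert_self a S)).add
      (ih fun k hk => h k (Finset.mem_insert_of_mem hk))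
    exact h1.congr fun f _ => by rw [Finset.sum_insert ha]

private theorem val_add (a b : ZMod 2) :
    (a + b).val = a.val + b.val ∨ (a + b).val + 2 = a.val + b.val := by
  revert a b
  decide

omit [Fintype ι] in
theorem par_insert {Pl : Type} [DecidableEq Pl] (pl : ι → Pl) {a : ι} {I : Finset ι}
    (ha : a ∉ I) : par pl (insert a I) = Pi.single (pl a) 1 + par pl I := by
  funext s
  simp only [par, Pi.add_apply]
  rw [Finset.filter_insert]
  by_cases hs : pl a = s
  · subst hs
    rw [if_pos rfl, Finset.card_insert_of_notMem (fun h => ha (Finset.mem_filter.1 h).1),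
      Pi.single_eq_same]
    push_cast
    ring
  · rw [if_neg hs, Pi.single_eq_of_ne (fun h => hs h.symm), zero_add]

omit [Fintype ι] in
theorem par_empty {Pl : Type} [DecidableEq Pl] (pl : ι → Pl) :
    par pl (∅ : Finset ι) = 0 := by
  funext s
  simp [par]

theorem Tw.code (h : Tw G u w) {z : ι → ℂ} (hze : ∀ i j, Edge G (i, j) → z i = z j)
    (hzw : ∀ i j, w i = w j → z i = z j) {Pl : Type} [Fintype Pl] [DecidableEq Pl] (pl : ι → Pl)
    (hpl : ∀ i j, pl i = pl j → Conn G i j)
    (hbar : ∀ i, ∃ j, pl j = pl i ∧ (∀ f ∈ Car G, f i + f j = 0) ∧ z i * z j = 1)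
    (W : Set (Finset ι)) (hW : ∀ I ∈ W, ∀ f ∈ Car G, ∑ i ∈ I, f i = 0)
    (hcode : AddSubgroup.closure (par pl '' W) ≤
      AddSubgroup.closure {v | v ∈ AddSubgroup.closure (par pl '' W) ∧
        ∃ a b, a ≠ b ∧ v = Pi.single a 1 + Pi.single b 1}) :
    ∀ I ∈ W, ∏ i ∈ I, z i = 1 := by
  classical
  have hzc : ∀ i j, Conn G i j → z i = z j := fun i j hij =>
    conn_const hze (fun i j hf => hzw i j (hf w h.mem)) hij
  have hsq : ∀ i, z i * z i = 1 := by
    intro i
    obtain ⟨j, hj, -, h1⟩ := hbar i
    rwa [← hzc i j (hpl i j hj.symm)] at h1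
  have htwo : ∀ i, InQ G fun f => f i + f i := by
    intro i
    obtain ⟨j, hj, h1, -⟩ := hbar i
    refine ((hpl i j hj.symm).inQ h).congr fun f hf => ?_
    have := h1 f hf
    linarith
  -- representatives
  let ρ : Pl → (ι → ℝ) → ℝ := fun s f => if hs : ∃ i, pl i = s then f hs.choose else 0
  let ζ : Pl → ℂ := fun s => if hs : ∃ i, pl i = s then z hs.choose else 1
  have hρ : ∀ i, InQ G fun f => f i - ρ (pl i) f := by
    intro i
    have hs : ∃ j, pl j = pl i := ⟨i, rfl⟩
    refine ((hpl i hs.choose hs.choose_spec.symm).inQ h).congr fun f _ => ?_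
    simp only [ρ, dif_pos hs]
  have hρ2 : ∀ s, InQ G fun f => 2 * ρ s f := by
    intro s
    by_cases hs : ∃ i, pl i = s
    · refine (htwo hs.choose).congr fun f _ => ?_
      simp only [ρ, dif_pos hs]
      ring
    · refine InQ.zero.congr fun f _ => ?_
      simp only [ρ, dif_neg hs, mul_zero]
  have hζ : ∀ i, z i = ζ (pl i) := by
    intro i
    have hs : ∃ j, pl j = pl i := ⟨i, rfl⟩
    simp only [ζ, dif_pos hs]
    exact hzc i _ (hpl i _ hs.choose_spec.symm)
  have hζ2 : ∀ s, ζ s * ζ s = 1 := by
    intro s
    by_cases hs : ∃ i, pl i = s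
    · simp only [ζ, dif_pos hs]
      exact hsq _
    · simp only [ζ, dif_neg hs, mul_one]
  -- the functional and the character of a vector
  let L : (Pl → ZMod 2) → (ι → ℝ) → ℝ := fun v f => ∑ s, ((v s).val : ℝ) * ρ s f
  let χ : (Pl → ZMod 2) → ℂ := fun v => ∏ s, ζ s ^ (v s).val
  have hχ0 : χ 0 = 1 := by
    simp [χ]
  have hχadd : ∀ v v', χ (v + v') = χ v * χ v' := by
    intro v v'
    simp only [χ, ← Finset.prod_mul_distrib]
    refine Finset.prod_congr rfl fun s _ => ?_
    rw [← pow_add, Pi.add_apply]
    rcases val_add (v s) (v' s) with h1 | h1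
    · rw [h1]
    · rw [← h1, pow_add, pow_two, hζ2, mul_one]
  have hχ1 : ∀ s, χ (Pi.single s 1) = ζ s := by
    intro s
    simp only [χ]
    rw [Finset.prod_eq_single s]
    · rw [Pi.single_eq_same]
      have : (1 : ZMod 2).val = 1 := rfl
      rw [this, pow_one]
    · intro t _ ht
      rw [Pi.single_eq_of_ne ht, ZMod.val_zero, pow_zero]
    · intro hs
      exact absurd (Finset.mem_univ s) hs
  have hχI : ∀ I : Finset ι, ∏ i ∈ I, z i = χ (par pl I) := by
    intro I
    induction I using Finset.induction_on with
    | empty => rw [par_empty, hχ0, Finset.prod_empty]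
    | insert a I ha ih => rw [Finset.prod_insert ha, par_insert pl ha, hχadd, hχ1, ih, hζ]
  have hLadd : ∀ v v', InQ G fun f => L (v + v') f - L v f - L v' f := by
    intro v v'
    have h1 : InQ G fun f => ∑ s, (((v s + v' s).val : ℝ) - (v s).val - (v' s).val) * ρ s f := by
      apply InQ.sum
      intro s _
      rcases val_add (v s) (v' s) with h1 | h1
      · refine InQ.zero.congr fun f _ => ?_
        rw [h1]
        push_cast
        ring
      · refine ((hρ2 s).neg h).congr fun f _ => ?_
        have h2 : ((v s).val : ℝ) + (v' s).val = (v s + v' s).val + 2 := by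
          exact_mod_cast h1.symm
        have h3 : ((v s + v' s).val : ℝ) - (v s).val - (v' s).val = -2 := by linarith
        rw [h3]
        ring
    refine h1.congr fun f _ => ?_
    simp only [L, Pi.add_apply, sub_mul, Finset.sum_sub_distrib]
  have hL1 : ∀ s f, L (Pi.single s 1) f = ρ s f := by
    intro s f
    simp only [L]
    rw [Finset.sum_eq_single s]
    · rw [Pi.single_eq_same]
      have : (1 : ZMod 2).val = 1 := rfl
      rw [this, Nat.cast_one, one_mul]
    · intro t _ ht
      rw [Pi.single_eq_of_ne ht, ZMod.val_zero, Nat.cast_zero, zero_mul]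
    · intro hs
      exact absurd (Finset.mem_univ s) hs
  have hL0 : ∀ f, L 0 f = 0 := by
    intro f
    simp [L]
  have hLI : ∀ I : Finset ι, InQ G fun f => ∑ i ∈ I, f i - L (par pl I) f := by
    intro I
    induction I using Finset.induction_on with
    | empty =>
      refine InQ.zero.congr fun f _ => ?_
      rw [par_empty, hL0, Finset.sum_empty, sub_zero]
    | insert a I ha ih =>
      refine ((ih.add (hρ a)).add ((hLadd (Pi.single (pl a) 1) (par pl I)).neg h)).congr
        fun f _ => ?_
      rw [Finset.sum_insert ha, par_insert pl ha, hL1]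
      ring
  -- the vectors of the code
  have hsupp : ∀ I s, (¬∃ i, pl i = s) → par pl I s = 0 := by
    intro I s hs
    have : I.filter (fun i => pl i = s) = ∅ := by
      rw [Finset.filter_eq_empty_iff]
      intro i _ hi
      exact hs ⟨i, hi⟩
    simp only [par, this, Finset.card_empty, Nat.cast_zero]
  have hC : ∀ v ∈ AddSubgroup.closure (par pl '' W), InQ G (L v) ∧
      ∀ s, (¬∃ i, pl i = s) → v s = 0 := by
    intro v hv
    induction hv using AddSubgroup.closure_induction with
    | mem v hv =>
      obtain ⟨I, hI, rfl⟩ := hv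
      refine ⟨((hLI I).neg h).congr fun f hf => ?_, fun s hs => hsupp I s hs⟩
      rw [hW I hI f hf]
      ring
    | zero => exact ⟨InQ.zero.congr fun f _ => hL0 f, fun s _ => rfl⟩
    | add v v' _ _ ih ih' =>
      refine ⟨((ih.1.add ih'.1).add (hLadd v v')).congr fun f _ => by ring, fun s hs => ?_⟩
      rw [Pi.add_apply, ih.2 s hs, ih'.2 s hs, add_zero]
    | neg v _ ih =>
      have : -v = v := by
        funext s
        rw [Pi.neg_apply]
        exact ZMod.neg_eq_self_mod_two _
      rw [this]
      exact ih
  have hpairs : ∀ v ∈ AddSubgroup.closure {v | v ∈ AddSubgroup.closure (par pl '' W) ∧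
      ∃ a b, a ≠ b ∧ v = Pi.single a 1 + Pi.single b 1}, χ v = 1 := by
    intro v hv
    induction hv using AddSubgroup.closure_induction with
    | mem v hv =>
      obtain ⟨hvC, a, b, hab, rfl⟩ := hv
      obtain ⟨h1, h2⟩ := hC _ hvC
      have ha : ∃ i, pl i = a := by
        by_contra hc
        have := h2 a hc
        rw [Pi.add_apply, Pi.single_eq_same, Pi.single_eq_of_ne hab, add_zero] at this
        exact one_ne_zero this
      have hb : ∃ i, pl i = b := by
        by_contra hc
        have := h2 b hc
        rw [Pi.add_apply, Pi.single_eq_same, Pi.single_eq_of_ne hab.symm, zero_add] at this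
        exact one_ne_zero this
      have h3 : InQ G fun f => f ha.choose - f hb.choose := by
        refine ((h1.add ((hLadd (Pi.single a 1) (Pi.single b 1)).neg h)).add
          ((htwo hb.choose).neg h)).congr fun f _ => ?_
        rw [hL1, hL1]
        simp only [ρ, dif_pos ha, dif_pos hb]
        ring
      have h4 : ζ a = ζ b := by
        simp only [ζ, dif_pos ha, dif_pos hb]
        exact hzc _ _ (h.conn_of_inQ h3)
      rw [hχadd, hχ1, hχ1, h4, hζ2]
    | zero => exact hχ0
    | add v v' _ _ ih ih' => rw [hχadd, ih, ih', one_mul]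
    | neg v _ ih =>
      have : -v = v := by
        funext s
        rw [Pi.neg_apply]
        exact ZMod.neg_eq_self_mod_two _
      rw [this]
      exact ih
  intro I hI
  rw [hχI]
  exact hpairs _ (hcode (AddSubgroup.subset_closure ⟨I, hI, rfl⟩))

end Pc0b458L
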