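import Pool.Agent.Lib.Pc0b458L.Share

/-!
# Weights with sum zero

If the sum of the values at the indices `a k` is a sum of roots then there are indices `b k`,
connected with `a k`, such that the sum of the values at the `b k` is zero.
-/

open Finset

namespace Pc0b458L

open Matrix

variable {ι : Type} [Fintype ι] [DecidableEq ι] {G : Submodule ℂ (Matrix ι ι ℂ)} {u : ι → ℂ}
  {w : ι → ℝ}

theorem Tw.zero_sum_list (h : Tw G u w) {r : ℕ} (l : List (ι × ι)) (hl : ∀ e ∈ l, Edge G e)
    (a : Fin r → ι)
    (h0 : ∀ f ∈ Car G, ∑ k, f (a k) = (l.map fun e => f e.1 - f e.2).sum) :
    ∃ b : Fin r → ι, (∀ k, Conn G (a k) (b k)) ∧ ∀ f ∈ Car G, ∑ k, f (b k) = 0 := by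
  classical
  induction hn : l.length using Nat.strong_induction_on generalizing l a with
  | _ n ih =>
    match l, hl, h0, hn with
    | [], _, h0, _ =>
      exact ⟨a, fun k => Relation.EqvGen.refl _, fun f hf => by
        rw [h0 f hf, List.map_nil, List.sum_nil]⟩
    | e :: l', hl, h0, hn =>
      have hlt : l'.length < n := by
        rw [← hn, List.length_cons]
        exact Nat.lt_succ_self _
      by_cases hd : w e.1 - w e.2 = 0
      · refine ih l'.length hlt l' (fun x hx => hl x (List.mem_cons_of_mem _ hx)) a
          (fun f hf => ?_) rfl
        have h1 := h0 f hf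
        rw [List.map_cons, List.sum_cons] at h1
        have h2 : f e.1 - f e.2 = 0 := by
          have := h.gen f hf e.1 e.2 e.1 e.1 (by rw [hd, sub_self])
          rwa [sub_self] at this
        rwa [h2, zero_add] at h1
      · obtain ⟨X, hX, hXs, hXne⟩ := h.edge_comp (hl e List.mem_cons_self)
        obtain ⟨t, ht, htb, κ, hκ, hXX⟩ := h.coroot hX hd hXs (ne_zero_of_entry hXne)
        have hpos : 0 < t e.1 - t e.2 := by
          have h1 := htb t ht e.1 e.2 rfl
          rw [← h1]
          have h2 : 0 ≤ ∑ k, t k * t k := Finset.sum_nonneg fun k _ => mul_self_nonneg _
          rcases h2.lt_or_eq with h3 | h3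
          · exact h3
          · exfalso
            have h4 : ∀ k, t k = 0 := fun k => by
              have := (Finset.sum_eq_zero_iff_of_nonneg
                (fun k _ => mul_self_nonneg (t k))).mp h3.symm k (Finset.mem_univ k)
              exact mul_self_eq_zero.mp this
            have h5 := htb w h.mem e.1 e.2 rfl
            simp only [h4, mul_zero, Finset.sum_const_zero] at h5
            exact hd h5.symm
        by_cases hex : ∃ e' ∈ l', t e'.1 - t e'.2 < 0
        · -- two edges are replaced by one
          obtain ⟨e', he', hneg⟩ := hex
          have hd' : w e'.1 - w e'.2 ≠ 0 := by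
            intro hz
            have := h.gen t ht e'.1 e'.2 e'.1 e'.1 (by rw [hz, sub_self])
            rw [sub_self] at this
            rw [this] at hneg
            exact lt_irrefl _ hneg
          have heE' := hl e' (List.mem_cons_of_mem _ he')
          obtain ⟨s, hs, hsb⟩ := h.edge_coroot heE'
          obtain ⟨Z, hZ, hZs, hZne⟩ := h.edge_comp heE'
          have hsc : ∑ k, t k * s k < 0 := by
            rw [hsb t ht e'.1 e'.2 rfl]
            exact hneg
          have hY := h.bracket hX hZ hd hd' hXs hZs (ne_zero_of_entry hXne)
            (ne_zero_of_entry hZne) ht hs htb hsb hsc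
          have hYG := h.lie X hX Z hZ
          obtain ⟨p, q, hpq⟩ : ∃ p q, (X * Z - Z * X) p q ≠ 0 := by
            by_contra hcon
            push Not at hcon
            exact hY (by ext p q; exact hcon p q)
          have hkey : ∀ f ∈ Car G, f p - f q = (f e.1 - f e.2) + (f e'.1 - f e'.2) := by
            have hcases : (∃ m, X p m ≠ 0 ∧ Z m q ≠ 0) ∨ (∃ m, Z p m ≠ 0 ∧ X m q ≠ 0) := by
              by_contra hcon
              push Not at hcon
              apply hpq
              rw [Matrix.sub_apply, Matrix.mul_apply, Matrix.mul_apply]
              rw [Finset.sum_eq_zero, Finset.sum_eq_zero, sub_zero]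
              · intro m _
                by_cases h1 : Z p m = 0
                · rw [h1, zero_mul]
                · rw [hcon.2 m h1, mul_zero]
              · intro m _
                by_cases h1 : X p m = 0
                · rw [h1, zero_mul]
                · rw [hcon.1 m h1, mul_zero]
            intro f hf
            rcases hcases with ⟨m, h1, h2⟩ | ⟨m, h1, h2⟩
            · have b1 := h.gen f hf p m e.1 e.2 (hXs p m h1)
              have b2 := h.gen f hf m q e'.1 e'.2 (hZs m q h2)
              linarith
            · have b1 := h.gen f hf p m e'.1 e'.2 (hZs p m h1)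
              have b2 := h.gen f hf m q e.1 e.2 (hXs m q h2)
              linarith
          have hperm := List.perm_cons_erase he'
          have hlen : (l'.erase e').length + 1 = l'.length := by
            rw [hperm.length_eq, List.length_cons]
          refine ih ((p, q) :: l'.erase e').length (by
              rw [List.length_cons, hlen]
              exact hlt) ((p, q) :: l'.erase e') ?_ a ?_ rfl
          · intro x hx
            rcases List.mem_cons.mp hx with rfl | hx
            · exact ⟨_, hYG, hpq⟩
            · exact hl x (List.mem_cons_of_mem _ (List.mem_of_mem_erase hx))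
          · intro f hf
            have h1 := h0 f hf
            rw [List.map_cons, List.sum_cons, (hperm.map _).sum_eq, List.map_cons,
              List.sum_cons] at h1
            rw [List.map_cons, List.sum_cons]
            show _ = f p - f q + _
            rw [hkey f hf]
            linarith
        · -- the first root is removed from one of the values
          push Not at hex
          have hsum : 0 < ∑ k, t (a k) := by
            rw [h0 t ht, List.map_cons, List.sum_cons]
            have h2 : 0 ≤ (l'.map fun e => t e.1 - t e.2).sum := by
              apply List.sum_nonneg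
              intro x hx
              obtain ⟨y, hy, rfl⟩ := List.mem_map.mp hx
              exact hex y hy
            linarith
          have hdiag : ∀ k, (X * Xᴴ) k k - (Xᴴ * X) k k = ((κ * t k : ℝ) : ℂ) := by
            intro k
            have h1 := congrFun (congrFun hXX k) k
            rwa [Matrix.sub_apply, diagonal_apply_eq] at h1
          have hrow : ∀ k, (X * Xᴴ) k k = ((∑ m, Complex.normSq (X k m) : ℝ) : ℂ) := by
            intro k
            rw [Matrix.mul_apply, Complex.ofReal_sum]
            refine Finset.sum_congr rfl fun m _ => ?_
            rw [conjTranspose_apply]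
            exact Complex.mul_conj _
          have hcol : ∀ k, (Xᴴ * X) k k = ((∑ m, Complex.normSq (X m k) : ℝ) : ℂ) := by
            intro k
            rw [Matrix.mul_apply, Complex.ofReal_sum]
            refine Finset.sum_congr rfl fun m _ => ?_
            rw [conjTranspose_apply, mul_comm]
            exact Complex.mul_conj _
          have hreal : ∀ k, ∑ m, Complex.normSq (X k m) - ∑ m, Complex.normSq (X m k) =
              κ * t k := by
            intro k
            have h1 := hdiag k
            rw [hrow, hcol] at h1
            exact_mod_cast h1
          have htail : ∀ x ∈ l', Edge G x := fun x hx => hl x (List.mem_cons_of_mem _ hx)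
          obtain ⟨k₀, hk₀⟩ : ∃ k₀, 0 < t (a k₀) := by
            by_contra hcon
            push Not at hcon
            have h1 : ∑ k, t (a k) ≤ 0 := Finset.sum_nonpos fun k _ => hcon k
            linarith
          -- an edge from `a k₀`
          obtain ⟨m, hm⟩ : ∃ m, X (a k₀) m ≠ 0 := by
            by_contra hcon
            push Not at hcon
            have h1 := hreal (a k₀)
            have h2 : ∑ m, Complex.normSq (X (a k₀) m) = 0 :=
              Finset.sum_eq_zero fun m _ => by rw [hcon m, map_zero]
            have h3 : 0 ≤ ∑ m, Complex.normSq (X m (a k₀)) :=
              Finset.sum_nonneg fun m _ => Complex.normSq_nonneg _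
            have h4 := mul_pos hκ hk₀
            linarith
          have hE : Edge G (a k₀, m) := ⟨X, hX, hm⟩
          obtain ⟨b, hb1, hb2⟩ := ih l'.length hlt l' htail (Function.update a k₀ m)
            (fun f hf => by
              have h1 := h0 f hf
              rw [List.map_cons, List.sum_cons] at h1
              have h2 := h.gen f hf (a k₀) m e.1 e.2 (hXs (a k₀) m hm)
              have h3 : ∑ k, f (Function.update a k₀ m k) + f (a k₀) =
                  ∑ k, f (a k) + f m := by
                rw [← Finset.add_sum_erase _ _ (Finset.mem_univ k₀),
                  ← Finset.add_sum_erase _ (fun k => f (a k)) (Finset.mem_univ k₀),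
                  Function.update_self]
                have h4 : ∑ k ∈ univ.erase k₀, f (Function.update a k₀ m k) =
                    ∑ k ∈ univ.erase k₀, f (a k) := by
                  refine Finset.sum_congr rfl fun k hk => ?_
                  rw [Function.update_of_ne (Finset.ne_of_mem_erase hk)]
                rw [h4]
                ring
              linarith) rfl
          refine ⟨b, fun k => ?_, hb2⟩
          have h5 := hb1 k
          rcases eq_or_ne k k₀ with rfl | hk
          · rw [Function.update_self] at h5
            exact Relation.EqvGen.trans _ _ _ (Relation.EqvGen.rel _ _ (Or.inl hE)) h5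
          · rwa [Function.update_of_ne hk] at h5

/-- **Weights with sum zero.** -/
theorem Tw.zero_sum (h : Tw G u w) {r : ℕ} (a : Fin r → ι) (hQ : InQ G fun f => ∑ k, f (a k)) :
    ∃ b : Fin r → ι, (∀ k, Conn G (a k) (b k)) ∧ ∀ f ∈ Car G, ∑ k, f (b k) = 0 := by
  obtain ⟨l, hl, h0⟩ := hQ
  exact h.zero_sum_list l hl a h0

end Pc0b458L
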