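import Pool.Agent.Lib.Pc0b458L.Ratio
import Pool.Agent.Lib.Pc0b458L.Share
import Pool.Agent.Lib.Pc0b458L.Code
import Pool.Agent.Lib.Pc0b458L.Quad1

/-!
# Relations of size at most four

`Tw.quadcode`: the product of `u` over the elements of `W` is one if the code of the parity vectors
of the elements of `W` is spanned by its words of weight at most four and if the product of `u` is one
over all sets of four indices which are killed by all diagonal matrices which kill the elements of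
`W` and normalise `G`.
-/

open Finset

namespace Pc0b458L

open Matrix

variable {ι : Type} [Fintype ι] [DecidableEq ι] {G : Submodule ℂ (Matrix ι ι ℂ)} {u : ι → ℂ}
  {w : ι → ℝ}

/-- `t` normalises `G`, it has the same value at indices with the same weight and its values at
indices with opposite weights are inverse to each other -/
structure Gd (G : Submodule ℂ (Matrix ι ι ℂ)) (t : ι → ℂ) : Prop where
  ne : ∀ i, t i ≠ 0
  nrm : Nrm G t
  same : ∀ i j, (∀ f ∈ Car G, f i = f j) → t i = t j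
  pair : ∀ i j, (∀ f ∈ Car G, f i + f j = 0) → t i * t j = 1

/-- `φ` is a sum of roots and `τ` is the product of the corresponding ratios of values of `t` -/
def RQ (G : Submodule ℂ (Matrix ι ι ℂ)) (t : ι → ℂ) (φ : (ι → ℝ) → ℝ) (τ : ℂ) : Prop :=
  ∃ l : List (ι × ι), (∀ e ∈ l, Edge G e) ∧
    (∀ f ∈ Car G, φ f = (l.map fun e => f e.1 - f e.2).sum) ∧
    τ = (l.map fun e => t e.1 / t e.2).prod

section

variable {t : ι → ℂ} {φ ψ : (ι → ℝ) → ℝ} {σ τ : ℂ}

omit [Fintype ι] in
theorem RQ.one : RQ G t (fun _ => 0) 1 := ⟨[], by simp, fun f _ => by simp, by simp⟩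

omit [Fintype ι] in
theorem RQ.mul (h : RQ G t φ σ) (h' : RQ G t ψ τ) : RQ G t (fun f => φ f + ψ f) (σ * τ) := by
  obtain ⟨l, hl, h1, h2⟩ := h
  obtain ⟨l', hl', h1', h2'⟩ := h'
  refine ⟨l ++ l', ?_, fun f hf => ?_, ?_⟩
  · intro e he
    rcases List.mem_append.1 he with h3 | h3
    · exact hl e h3
    · exact hl' e h3
  · beta_reduce
    rw [h1 f hf, h1' f hf, List.map_append, List.sum_append]
  · rw [h2, h2', List.map_append, List.prod_append]

omit [Fintype ι] in
theorem RQ.congr (h : RQ G t φ σ) (h1 : ∀ f ∈ Car G, ψ f = φ f) (h2 : τ = σ) : RQ G t ψ τ := by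
  obtain ⟨l, hl, h3, h4⟩ := h
  exact ⟨l, hl, fun f hf => by rw [h1 f hf, h3 f hf], by rw [h2, h4]⟩

theorem RQ.inv (h : Tw G u w) (hφ : RQ G t φ τ) : RQ G t (fun f => -φ f) τ⁻¹ := by
  obtain ⟨l, hl, h1, h2⟩ := hφ
  refine ⟨l.map Prod.swap, ?_, fun f hf => ?_, ?_⟩
  · intro e he
    obtain ⟨e', he', rfl⟩ := List.mem_map.1 he
    exact h.edge_rev (hl e' he')
  · beta_reduce
    rw [h1 f hf, List.map_map]
    clear h1 h2 hl
    induction l with
    | nil => simp
    | cons e l ih =>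
      simp only [List.map_cons, List.sum_cons, Function.comp_apply, Prod.fst_swap,
        Prod.snd_swap] at ih ⊢
      rw [← ih]
      ring
  · rw [h2, List.map_map]
    clear h1 h2 hl
    induction l with
    | nil => simp
    | cons e l ih =>
      simp only [List.map_cons, List.prod_cons, Function.comp_apply, Prod.fst_swap,
        Prod.snd_swap] at ih ⊢
      rw [← ih, mul_inv, inv_div]

omit [Fintype ι] in
theorem RQ.inQ (h : RQ G t φ τ) : InQ G φ := by
  obtain ⟨l, hl, h1, -⟩ := h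
  exact ⟨l, hl, h1⟩

theorem RQ.zero_eq (h : Tw G u w) (ht : Gd G t) (h1 : RQ G t φ τ) (h0 : ∀ f ∈ Car G, φ f = 0) :
    τ = 1 := by
  obtain ⟨l, hl, h2, h3⟩ := h1
  rw [h3]
  refine h.list_ratio ht.ne ht.nrm (fun i j hij => ht.same i j fun f hf => ?_) l hl
    (fun f hf => by rw [← h2 f hf, h0 f hf])
  have := h.gen f hf i j j j (by rw [hij])
  linarith

theorem RQ.unique (h : Tw G u w) (ht : Gd G t) (h1 : RQ G t φ σ) (h2 : RQ G t φ τ) : σ = τ := by
  have h3 := (h1.mul (h2.inv h)).zero_eq h ht (fun f _ => by ring)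
  have h4 : τ ≠ 0 := by
    intro h0
    rw [h0, _root_.inv_zero, mul_zero] at h3
    exact zero_ne_one h3
  field_simp at h3
  exact h3

theorem Conn.rq (h : Tw G u w) (ht : Gd G t) {i j : ι} (hij : Conn G i j) :
    RQ G t (fun f => f i - f j) (t i / t j) := by
  induction hij with
  | rel i j hij =>
    rcases hij with hij | hij
    · exact ⟨[(i, j)], by simpa using hij, fun f _ => by simp, by simp⟩
    · refine RQ.one.congr (fun f hf => by rw [hij f hf, sub_self]) ?_
      rw [ht.same i j hij, div_self (ht.ne j)]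
  | refl i => exact RQ.one.congr (fun f _ => by rw [sub_self]) (div_self (ht.ne i))
  | symm i j _ ih => exact (ih.inv h).congr (fun f _ => by ring) (inv_div _ _).symm
  | trans i j k _ _ ih1 ih2 =>
    exact (ih1.mul ih2).congr (fun f _ => by ring) (div_mul_div_cancel₀ (ht.ne j)).symm

/-- the sum of the values at two connected indices -/
theorem Gd.add (h : Tw G u w) (ht : Gd G t) {i j k : ι} (hij : Conn G i j)
    (hjk : Conn G j k) (h0 : ∀ f ∈ Car G, f j + f k = 0) :
    RQ G t (fun f => f i + f j) (t i * t j) := by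
  refine (Conn.rq h ht (Relation.EqvGen.trans _ _ _ hij hjk)).congr (fun f hf => ?_) ?_
  · have := h0 f hf
    linarith
  · have h1 := ht.pair j k h0
    rw [eq_div_iff (ht.ne k), mul_assoc, h1, mul_one]

end

/-! ### codes -/

section

variable {Pl : Type} [Fintype Pl] [DecidableEq Pl]

/-- the sum of the values at representatives -/
def Phi (ρ : Pl → ι) (v : Pl → ZMod 2) (f : ι → ℝ) : ℝ := ∑ s, ((v s).val : ℝ) * f (ρ s)

/-- the product of the values at representatives -/
def Tau (ρ : Pl → ι) (t : ι → ℂ) (v : Pl → ZMod 2) : ℂ := ∏ s, t (ρ s) ^ (v s).val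

private theorem val_add' (a b : ZMod 2) :
    (a + b).val = a.val + b.val ∨ (a + b).val + 2 = a.val + b.val := by
  revert a b
  decide

omit [Fintype ι] [DecidableEq ι] [DecidableEq Pl] in
theorem Tau_ne {ρ : Pl → ι} {t : ι → ℂ} (ht : ∀ i, t i ≠ 0) (v : Pl → ZMod 2) :
    Tau ρ t v ≠ 0 := Finset.prod_ne_zero_iff.2 fun _ _ => pow_ne_zero _ (ht _)

omit [Fintype ι] in
theorem RQ.prod {t : ι → ℂ} {κ : Type} (S : Finset κ) (φ : κ → (ι → ℝ) → ℝ) (τ : κ → ℂ)
    (h : ∀ k ∈ S, RQ G t (φ k) (τ k)) : RQ G t (fun f => ∑ k ∈ S, φ k f) (∏ k ∈ S, τ k) := by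
  classical
  induction S using Finset.induction_on with
  | empty => exact RQ.one.congr (fun f _ => by simp) (by simp)
  | insert a S ha ih =>
    have h1 := (h a (Finset.mem_insert_self a S)).mul
      (ih fun k hk => h k (Finset.mem_insert_of_mem hk))
    exact h1.congr (fun f _ => by rw [Finset.sum_insert ha]) (by rw [Finset.prod_insert ha])

omit [DecidableEq Pl] in
theorem Tau_add (h : Tw G u w) {t : ι → ℂ} (ht : Gd G t) {ρ : Pl → ι}
    (hρ : ∀ s, ∃ k, Conn G (ρ s) k ∧ ∀ f ∈ Car G, f (ρ s) + f k = 0) (v v' : Pl → ZMod 2) :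
    RQ G t (fun f => Phi ρ v f + Phi ρ v' f - Phi ρ (v + v') f)
      (Tau ρ t v * Tau ρ t v' / Tau ρ t (v + v')) := by
  have h1 : ∀ s ∈ (univ : Finset Pl), RQ G t
      (fun f => ((v s).val : ℝ) * f (ρ s) + ((v' s).val : ℝ) * f (ρ s) -
        (((v + v') s).val : ℝ) * f (ρ s))
      (t (ρ s) ^ (v s).val * t (ρ s) ^ (v' s).val / t (ρ s) ^ ((v + v') s).val) := by
    intro s _
    have hne := ht.ne (ρ s)
    rcases val_add' (v s) (v' s) with h2 | h2
    · refine RQ.one.congr (fun f _ => ?_) ?_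
      · rw [Pi.add_apply, h2]
        push_cast
        ring
      · rw [Pi.add_apply, h2, ← pow_add, div_self (pow_ne_zero _ hne)]
    · obtain ⟨k, hk, h0⟩ := hρ s
      refine (ht.add h (Relation.EqvGen.refl _) hk h0).congr (fun f _ => ?_) ?_
      · have h3 : ((v s).val : ℝ) + ((v' s).val : ℝ) = (((v + v') s).val : ℝ) + 2 := by
          rw [Pi.add_apply]
          exact_mod_cast h2.symm
        linear_combination (f (ρ s)) * h3
      · rw [Pi.add_apply, ← pow_add, ← h2, pow_add, mul_comm, mul_div_assoc,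
          div_self (pow_ne_zero _ hne), mul_one, pow_two]
  refine (RQ.prod univ _ _ h1).congr (fun f _ => ?_) ?_
  · unfold Phi
    rw [← Finset.sum_add_distrib, ← Finset.sum_sub_distrib]
  · unfold Tau
    rw [← Finset.prod_mul_distrib, ← Finset.prod_div_distrib]

/-- a set of indices and its parity vector -/
theorem par_rq (h : Tw G u w) {t : ι → ℂ} (ht : Gd G t) (pl : ι → Pl) {ρ : Pl → ι}
    (hpl : ∀ i, Conn G i (ρ (pl i)))
    (hρ : ∀ s, ∃ k, Conn G (ρ s) k ∧ ∀ f ∈ Car G, f (ρ s) + f k = 0) (I : Finset ι) :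
    RQ G t (fun f => ∑ i ∈ I, f i - Phi ρ (par pl I) f) ((∏ i ∈ I, t i) / Tau ρ t (par pl I)) := by
  induction I using Finset.induction_on with
  | empty =>
    refine RQ.one.congr (fun f _ => ?_) ?_
    · rw [par_empty]
      simp [Phi]
    · rw [par_empty]
      simp [Tau]
  | insert a I ha ih =>
    rw [par_insert pl ha]
    have h1 := Tau_add h ht hρ (Pi.single (pl a) 1) (par pl I)
    have h2 : RQ G t (fun f => f a - Phi ρ (Pi.single (pl a) 1) f)
        (t a / Tau ρ t (Pi.single (pl a) 1)) := by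
      refine ((hpl a).rq h ht).congr (fun f _ => ?_) ?_
      · congr 1
        unfold Phi
        rw [Finset.sum_eq_single (pl a)]
        · rw [Pi.single_eq_same]
          simp [ZMod.val_one]
        · intro s _ hs
          rw [Pi.single_eq_of_ne hs]
          simp
        · intro hs
          exact absurd (Finset.mem_univ _) hs
      · congr 1
        unfold Tau
        rw [Finset.prod_eq_single (pl a)]
        · rw [Pi.single_eq_same]
          simp [ZMod.val_one]
        · intro s _ hs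
          rw [Pi.single_eq_of_ne hs]
          simp
        · intro hs
          exact absurd (Finset.mem_univ _) hs
    refine ((ih.mul h2).mul h1).congr (fun f _ => ?_) ?_
    · rw [Finset.sum_insert ha]
      ring
    · rw [Finset.prod_insert ha]
      have n1 := Tau_ne (ρ := ρ) ht.ne (par pl I)
      have n2 := Tau_ne (ρ := ρ) ht.ne (Pi.single (pl a) 1 : Pl → ZMod 2)
      field_simp

/-- the vectors for which the value of `t` is one -/
def KK (h : Tw G u w) {t : ι → ℂ} (ht : Gd G t) (ρ : Pl → ι)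
    (hρ : ∀ s, ∃ k, Conn G (ρ s) k ∧ ∀ f ∈ Car G, f (ρ s) + f k = 0) :
    AddSubgroup (Pl → ZMod 2) where
  carrier := {v | RQ G t (Phi ρ v) (Tau ρ t v)}
  zero_mem' := by
    show RQ G t (Phi ρ 0) (Tau ρ t 0)
    refine RQ.one.congr (fun f _ => ?_) ?_
    · simp [Phi]
    · simp [Tau]
  add_mem' := by
    intro v v' hv hv'
    have h1 : RQ G t (Phi ρ v) (Tau ρ t v) := hv
    have h2 : RQ G t (Phi ρ v') (Tau ρ t v') := hv'
    have h3 := (h1.mul h2).mul ((Tau_add h ht hρ v v').inv h)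
    refine h3.congr (fun f _ => ?_) ?_
    · ring
    · have n1 := Tau_ne (ρ := ρ) ht.ne v
      have n2 := Tau_ne (ρ := ρ) ht.ne v'
      have n3 := Tau_ne (ρ := ρ) ht.ne (v + v')
      field_simp
  neg_mem' := by
    intro v hv
    have : -v = v := by
      funext s
      exact ZMod.neg_eq_self_mod_two (v s)
    rw [this]
    exact hv

omit [DecidableEq Pl] in
theorem mem_KK {h : Tw G u w} {t : ι → ℂ} {ht : Gd G t} {ρ : Pl → ι}
    {hρ : ∀ s, ∃ k, Conn G (ρ s) k ∧ ∀ f ∈ Car G, f (ρ s) + f k = 0} {v : Pl → ZMod 2} :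
    v ∈ KK h ht ρ hρ ↔ RQ G t (Phi ρ v) (Tau ρ t v) := Iff.rfl

theorem par_mem_iff (h : Tw G u w) {t : ι → ℂ} (ht : Gd G t) (pl : ι → Pl) {ρ : Pl → ι}
    (hpl : ∀ i, Conn G i (ρ (pl i)))
    (hρ : ∀ s, ∃ k, Conn G (ρ s) k ∧ ∀ f ∈ Car G, f (ρ s) + f k = 0) {I : Finset ι}
    (hI : ∀ f ∈ Car G, ∑ i ∈ I, f i = 0) :
    par pl I ∈ KK h ht ρ hρ ↔ ∏ i ∈ I, t i = 1 := by
  have h1 := (par_rq h ht pl hpl hρ I).inv h
  have n1 := Tau_ne (ρ := ρ) ht.ne (par pl I)
  have n2 : ∏ i ∈ I, t i ≠ 0 := Finset.prod_ne_zero_iff.2 fun _ _ => ht.ne _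
  have h2 : RQ G t (Phi ρ (par pl I)) (Tau ρ t (par pl I) / ∏ i ∈ I, t i) := by
    refine h1.congr (fun f hf => ?_) ?_
    · rw [hI f hf]
      ring
    · rw [inv_div]
  rw [mem_KK]
  constructor
  · intro h3
    have h4 := h3.unique h ht h2
    rw [eq_div_iff n2] at h4
    exact mul_left_cancel₀ n1 (by rw [h4, mul_one])
  · intro h3
    rw [h3, div_one] at h2
    exact h2

/-- a word and a null system of letters -/
theorem word_mem_iff (h : Tw G u w) {t : ι → ℂ} (ht : Gd G t) {ρ : Pl → ι}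
    (hρ : ∀ s, ∃ k, Conn G (ρ s) k ∧ ∀ f ∈ Car G, f (ρ s) + f k = 0) {v : Pl → ZMod 2} {r : ℕ}
    {a b : Fin r → ι} (hphi : ∀ f : ι → ℝ, Phi ρ v f = ∑ k, f (a k))
    (htau : ∀ t : ι → ℂ, Tau ρ t v = ∏ k, t (a k)) (hab : ∀ k, Conn G (a k) (b k))
    (hb : ∀ f ∈ Car G, ∑ k, f (b k) = 0) :
    v ∈ KK h ht ρ hρ ↔ ∏ k, t (b k) = 1 := by
  have h1 := RQ.prod (G := G) (t := t) univ (fun k f => f (a k) - f (b k))
    (fun k => t (a k) / t (b k)) (fun k _ => (hab k).rq h ht)
  have n1 := Tau_ne (ρ := ρ) ht.ne v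
  have n2 : ∏ k, t (b k) ≠ 0 := Finset.prod_ne_zero_iff.2 fun _ _ => ht.ne _
  have h2 : RQ G t (Phi ρ v) (Tau ρ t v / ∏ k, t (b k)) := by
    refine h1.congr (fun f hf => ?_) ?_
    · rw [hphi, Finset.sum_sub_distrib, hb f hf, sub_zero]
    · rw [htau, Finset.prod_div_distrib]
  rw [mem_KK]
  constructor
  · intro h3
    have h4 := h3.unique h ht h2
    rw [eq_div_iff n2] at h4
    exact mul_left_cancel₀ n1 (by rw [h4, mul_one])
  · intro h3
    rw [h3, div_one] at h2
    exact h2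

end

private theorem perm_ex : ∀ k k' : Fin 4, k ≠ k' → ∃ σ : Equiv.Perm (Fin 4), σ 0 = k ∧ σ 1 = k' := by
  decide

/-- four indices two of which are connected -/
theorem Tw.four_conn (h : Tw G u w) (hu : Gd G u)
    (hbar : ∀ i, ∃ j, Conn G i j ∧ ∀ f ∈ Car G, f i + f j = 0) {b : Fin 4 → ι}
    (hb : ∀ f ∈ Car G, ∑ k, f (b k) = 0) {k k' : Fin 4} (hk : k ≠ k')
    (hc : Conn G (b k) (b k')) : ∏ k, u (b k) = 1 := by
  obtain ⟨σ, rfl, rfl⟩ := perm_ex k k' hk
  rw [← Equiv.prod_comp σ]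
  have hb' : ∀ f ∈ Car G, f (b (σ 0)) + f (b (σ 1)) + (f (b (σ 2)) + f (b (σ 3))) = 0 := by
    intro f hf
    have := hb f hf
    rw [← Equiv.sum_comp σ, Fin.sum_univ_four] at this
    linarith
  rw [Fin.prod_univ_four]
  obtain ⟨j1, hj1, hj1'⟩ := hbar (b (σ 1))
  obtain ⟨j3, hj3, hj3'⟩ := hbar (b (σ 3))
  have h1 := hu.add h hc hj1 hj1'
  have h2 : InQ G fun f => f (b (σ 2)) - f j3 := by
    refine (h1.inv h).inQ.congr fun f hf => ?_
    have a1 := hb' f hf
    have a2 := hj3' f hf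
    linarith
  have h3 : Conn G (b (σ 2)) j3 := h.conn_of_inQ h2
  have h4 := hu.add h (Relation.EqvGen.trans _ _ _ h3 (Relation.EqvGen.symm _ _ hj3)) hj3 hj3'
  have h5 := (h1.mul h4).zero_eq h hu (fun f hf => by
    have := hb' f hf
    linarith)
  rw [← h5]
  ring

/-- the product of `u` over the elements of `W` -/
theorem Tw.quadcode (h : Tw G u w) (hu : Gd G u) {Pl : Type} [Fintype Pl] [DecidableEq Pl]
    (pl : ι → Pl) (hpl : ∀ i j, pl i = pl j → Conn G i j)
    (hbar : ∀ i, ∃ j, Conn G i j ∧ ∀ f ∈ Car G, f i + f j = 0)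
    (W : Set (Finset ι)) (hW : ∀ I ∈ W, ∀ f ∈ Car G, ∑ i ∈ I, f i = 0)
    (hcode : AddSubgroup.closure (par pl '' W) ≤
      AddSubgroup.closure {v | v ∈ AddSubgroup.closure (par pl '' W) ∧
        ∃ S : Finset Pl, (S.card = 2 ∨ S.card = 4) ∧ v = fun s => if s ∈ S then 1 else 0})
    (hθ : ∀ θ : Finset ι, θ.card = 4 → (∀ i ∈ θ, ∀ j ∈ θ, i ≠ j → ¬ Conn G i j) →
      (∀ f ∈ Car G, ∑ i ∈ θ, f i = 0) →
      (∀ t : ι → ℂ, Gd G t → (∀ I ∈ W, ∏ i ∈ I, t i = 1) → ∏ i ∈ θ, t i = 1) →
      ∏ i ∈ θ, u i = 1) :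
    ∀ I ∈ W, ∏ i ∈ I, u i = 1 := by
  classical
  rcases isEmpty_or_nonempty ι with hemp | ⟨⟨i0⟩⟩
  · intro I _
    rw [Finset.eq_empty_of_isEmpty I, Finset.prod_empty]
  let ρ : Pl → ι := fun s => if hs : ∃ i, pl i = s then hs.choose else i0
  have hplρ : ∀ i, Conn G i (ρ (pl i)) := by
    intro i
    have hs : ∃ j, pl j = pl i := ⟨i, rfl⟩
    have h1 : ρ (pl i) = hs.choose := dif_pos hs
    rw [h1]
    exact hpl _ _ hs.choose_spec.symm
  have hρ : ∀ s, ∃ k, Conn G (ρ s) k ∧ ∀ f ∈ Car G, f (ρ s) + f k = 0 := fun s => hbar (ρ s)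
  -- the elements of the code are sums of roots
  have hQ : ∀ v ∈ AddSubgroup.closure (par pl '' W), ∃ τ, RQ G u (Phi ρ v) τ := by
    intro v hv
    refine AddSubgroup.closure_induction (p := fun v _ => ∃ τ, RQ G u (Phi ρ v) τ)
      ?_ ?_ ?_ ?_ hv
    · rintro _ ⟨I, hI, rfl⟩
      refine ⟨_, ((par_rq h hu pl hplρ hρ I).inv h).congr (fun f hf => ?_) rfl⟩
      rw [hW I hI f hf]
      ring
    · exact ⟨_, RQ.one.congr (fun f _ => by simp [Phi]) rfl⟩
    · rintro v v' - - ⟨τ, h1⟩ ⟨τ', h2⟩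
      exact ⟨_, ((h1.mul h2).mul ((Tau_add h hu hρ v v').inv h)).congr (fun f _ => by ring) rfl⟩
    · rintro v - ⟨τ, h1⟩
      have : -v = v := by
        funext s
        exact ZMod.neg_eq_self_mod_two (v s)
      rw [this]
      exact ⟨τ, h1⟩
  have hle : AddSubgroup.closure (par pl '' W) ≤ KK h hu ρ hρ := by
    refine hcode.trans ?_
    rw [AddSubgroup.closure_le]
    rintro v ⟨hv, S, hS, hvS⟩
    obtain ⟨r, hr⟩ : ∃ r, S.card = r := ⟨_, rfl⟩
    let e : Fin r ≃ S := (Finset.equivFinOfCardEq hr).symm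
    let a : Fin r → ι := fun k => ρ (e k)
    have hphi : ∀ f : ι → ℝ, Phi ρ v f = ∑ k, f (a k) := by
      intro f
      have h1 : Phi ρ v f = ∑ s ∈ S, f (ρ s) := by
        unfold Phi
        rw [hvS, ← Finset.sum_subset (Finset.subset_univ S)]
        · refine Finset.sum_congr rfl fun s hs => ?_
          simp [hs, ZMod.val_one]
        · intro s _ hs
          simp [hs]
      rw [h1, ← Finset.sum_coe_sort S (fun s => f (ρ s))]
      exact (Equiv.sum_comp e (fun s : S => f (ρ s))).symm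
    have htau : ∀ t : ι → ℂ, Tau ρ t v = ∏ k, t (a k) := by
      intro t
      have h1 : Tau ρ t v = ∏ s ∈ S, t (ρ s) := by
        unfold Tau
        rw [hvS, ← Finset.prod_subset (Finset.subset_univ S)]
        · refine Finset.prod_congr rfl fun s hs => ?_
          simp [hs, ZMod.val_one]
        · intro s _ hs
          simp [hs]
      rw [h1, ← Finset.prod_coe_sort S (fun s => t (ρ s))]
      exact (Equiv.prod_comp e (fun s : S => t (ρ s))).symm
    obtain ⟨τ, hτ⟩ := hQ v hv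
    obtain ⟨b, hab, hb⟩ := h.zero_sum a (hτ.inQ.congr fun f _ => (hphi f).symm)
    show v ∈ KK h hu ρ hρ
    rw [word_mem_iff h hu hρ hphi htau hab hb]
    rw [hr] at hS
    rcases hS with rfl | rfl
    · rw [Fin.prod_univ_two]
      apply hu.pair
      intro f hf
      have := hb f hf
      rwa [Fin.sum_univ_two] at this
    · by_cases hcon : ∃ k k' : Fin 4, k ≠ k' ∧ Conn G (b k) (b k')
      · obtain ⟨k, k', hk, hc⟩ := hcon
        exact h.four_conn hu hbar hb hk hc
      · push Not at hcon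
        have hinj : Function.Injective b := by
          intro k k' hkk
          by_contra hne
          exact hcon k k' hne (by rw [hkk]; exact Relation.EqvGen.refl _)
        have hprod : ∀ t : ι → ℂ, ∏ i ∈ univ.image b, t i = ∏ k, t (b k) := fun t =>
          Finset.prod_image fun _ _ _ _ hkk => hinj hkk
        rw [← hprod]
        refine hθ _ ?_ ?_ ?_ ?_
        · rw [Finset.card_image_of_injective _ hinj, Finset.card_univ, Fintype.card_fin]
        · intro i hi j hj hij
          obtain ⟨k, -, rfl⟩ := Finset.mem_image.1 hi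
          obtain ⟨k', -, rfl⟩ := Finset.mem_image.1 hj
          exact hcon k k' fun hkk => hij (by rw [hkk])
        · intro f hf
          rw [Finset.sum_image fun _ _ _ _ hkk => hinj hkk]
          exact hb f hf
        · intro t ht htW
          rw [hprod, ← word_mem_iff h ht hρ hphi htau hab hb]
          refine (AddSubgroup.closure_le (K := KK h ht ρ hρ)).2 ?_ hv
          rintro _ ⟨I, hI, rfl⟩
          exact (par_mem_iff h ht pl hplρ hρ (hW I hI)).2 (htW I hI)
  intro I hI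
  rw [← par_mem_iff h hu pl hplρ hρ (hW I hI)]
  exact hle (AddSubgroup.subset_closure ⟨I, hI, rfl⟩)

end Pc0b458L
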