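import Pool.Agent.Lib.Pc0b458L.ListProd

/-!
# The product of `u` over a set of indices which is killed by all central elements

`exists_sep`: the characters of an abelian group with values in the unit circle separate points.
-/

open Finset

namespace Pc0b458L

open Matrix

/-- the characters separate points -/
theorem exists_sep {Q : Type} [AddCommGroup Q] {x : Q} (hx : x ≠ 0) :
    ∃ χ : Q →+ Additive Circle, χ x ≠ 0 := by
  obtain ⟨c, hc⟩ := CharacterModule.exists_character_apply_ne_zero_of_ne_zero hx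
  have : Fact ((0 : ℝ) < 1) := ⟨one_pos⟩
  let e : AddCircle (1 : ℚ) →+ AddCircle (1 : ℝ) :=
    QuotientAddGroup.map _ _ (Rat.castHom ℝ).toAddMonoidHom (by
      rintro _ ⟨n, rfl⟩
      exact ⟨n, by simp⟩)
  have he : Function.Injective e := by
    rw [injective_iff_map_eq_zero]
    intro a ha
    induction a using QuotientAddGroup.induction_on with
    | H q =>
      have h1 : ((q : ℝ) : AddCircle (1 : ℝ)) = 0 := ha
      rw [AddCircle.coe_eq_zero_iff] at h1
      obtain ⟨n, hn⟩ := h1
      have h2 : ((n : ℚ) : ℝ) = (q : ℝ) := by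
        rw [← hn]
        simp
      have h3 : (n : ℚ) = q := by exact_mod_cast h2
      rw [← h3]
      refine (QuotientAddGroup.eq_zero_iff _).2 ⟨n, by simp⟩
  let t : AddCircle (1 : ℝ) →+ Additive Circle :=
    { toFun := fun y => Additive.ofMul (AddCircle.toCircle y)
      map_zero' := by rw [AddCircle.toCircle_zero]; rfl
      map_add' := fun y z => by rw [AddCircle.toCircle_add]; rfl }
  have ht : Function.Injective t := fun y z h =>
    AddCircle.injective_toCircle one_ne_zero (Additive.ofMul.injective h)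
  let c' : Q →+ AddCircle (1 : ℚ) := c
  refine ⟨t.comp (e.comp c'), fun h => hc ?_⟩
  have h1 : t (e (c' x)) = 0 := h
  have h2 : e (c' x) = 0 := ht (by rw [h1, map_zero])
  exact he (by rw [map_zero]; exact h2)

variable {ι : Type} [Fintype ι] [DecidableEq ι] {G : Submodule ℂ (Matrix ι ι ℂ)} {u : ι → ℂ}
  {w : ι → ℝ}

/-- the indicator function of a set of indices -/
def indZ (J : Finset ι) : ι → ℤ := fun i => if i ∈ J then 1 else 0

/-- the relations which every central element satisfies -/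
def relSet (G : Submodule ℂ (Matrix ι ι ℂ)) (w : ι → ℝ) (JJ : Set (Finset ι)) : Set (ι → ℤ) :=
  {x | (∃ i j, (Edge G (i, j) ∨ w i = w j) ∧ x = Pi.single i 1 - Pi.single j 1) ∨
    ∃ J ∈ JJ, x = indZ J}

theorem prod_indZ (z : ι → ℂ) (J : Finset ι) : ∏ i, z i ^ indZ J i = ∏ i ∈ J, z i := by
  rw [← Finset.prod_subset (Finset.subset_univ J)]
  · refine Finset.prod_congr rfl fun i hi => ?_
    rw [indZ, if_pos hi, zpow_one]
  · intro i _ hi
    rw [indZ, if_neg hi, zpow_zero]

theorem sum_indZ (f : ι → ℝ) (J : Finset ι) : ∑ i, (indZ J i : ℝ) * f i = ∑ i ∈ J, f i := by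
  rw [← Finset.sum_subset (Finset.subset_univ J)]
  · refine Finset.sum_congr rfl fun i hi => ?_
    rw [indZ, if_pos hi, Int.cast_one, one_mul]
  · intro i _ hi
    rw [indZ, if_neg hi, Int.cast_zero, zero_mul]

/-- an element which is killed by all central elements is a combination of the relations -/
theorem mem_closure_rel {JJ : Set (Finset ι)} {x : ι → ℤ}
    (hfix : ∀ z : ι → ℂ, (∀ i, z i ≠ 0) → (∀ i j, Edge G (i, j) → z i = z j) →
      (∀ i j, w i = w j → z i = z j) → (∀ J ∈ JJ, ∏ i ∈ J, z i = 1) → ∏ i, z i ^ x i = 1) :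
    x ∈ AddSubgroup.closure (relSet G w JJ) := by
  by_contra hcon
  have h1 : (QuotientAddGroup.mk' (AddSubgroup.closure (relSet G w JJ)) x) ≠ 0 := by
    intro h
    exact hcon ((QuotientAddGroup.eq_zero_iff x).1 h)
  obtain ⟨χ, hχ⟩ := exists_sep h1
  let φ : (ι → ℤ) →+ Additive Circle := χ.comp (QuotientAddGroup.mk' _)
  have hφ : ∀ y ∈ relSet G w JJ, φ y = 0 := by
    intro y hy
    have : (QuotientAddGroup.mk' (AddSubgroup.closure (relSet G w JJ)) y) = 0 :=
      (QuotientAddGroup.eq_zero_iff y).2 (AddSubgroup.subset_closure hy)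
    show χ (QuotientAddGroup.mk' _ y) = 0
    rw [this, map_zero]
  let z : ι → Circle := fun i => (φ (Pi.single i 1)).toMul
  have hval : ∀ y : ι → ℤ, (φ y).toMul = ∏ i, z i ^ y i := by
    intro y
    have h2 : y = ∑ s, y s • (Pi.single s 1 : ι → ℤ) := by
      funext t
      rw [Finset.sum_apply]
      simp [Pi.single_apply]
    have h3 : φ y = ∑ s, y s • φ (Pi.single s 1) := by
      conv_lhs => rw [h2]
      rw [map_sum]
      exact Finset.sum_congr rfl fun s _ => map_zsmul φ _ _
    rw [h3, toMul_sum]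
    rfl
  have key := hfix (fun i => (z i : ℂ)) (fun i => Circle.coe_ne_zero _) ?_ ?_ ?_
  · apply hχ
    have h4 : (φ x).toMul = 1 := by
      rw [hval]
      apply Circle.ext
      rw [Circle.coe_one, ← key]
      rw [← Circle.coeHom_apply, map_prod]
      simp only [map_zpow, Circle.coeHom_apply]
    have h5 : φ x = 0 := Additive.toMul.injective h4
    exact h5
  · intro i j hij
    have h4 := hφ (Pi.single i 1 - Pi.single j 1) (Or.inl ⟨i, j, Or.inl hij, rfl⟩)
    rw [map_sub, sub_eq_zero] at h4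
    show ((z i : Circle) : ℂ) = z j
    simp only [z, h4]
  · intro i j hij
    have h4 := hφ (Pi.single i 1 - Pi.single j 1) (Or.inl ⟨i, j, Or.inr hij, rfl⟩)
    rw [map_sub, sub_eq_zero] at h4
    show ((z i : Circle) : ℂ) = z j
    simp only [z, h4]
  · intro J hJ
    have h4 := hφ (indZ J) (Or.inr ⟨J, hJ, rfl⟩)
    have h5 : ∏ i, z i ^ indZ J i = 1 := by
      rw [← hval, h4]
      rfl
    rw [← prod_indZ]
    have h6 := congrArg (fun y : Circle => (y : ℂ)) h5
    simp only [Circle.coe_one] at h6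
    rw [← Circle.coeHom_apply, map_prod] at h6
    simpa only [map_zpow, Circle.coeHom_apply] using h6

theorem edge_symm (h : Tw G u w) {i j : ι} (hij : Edge G (i, j)) : Edge G (j, i) := by
  obtain ⟨X, hX, h0⟩ := hij
  refine ⟨Xᴴ, h.star hX, ?_⟩
  rw [conjTranspose_apply]
  exact fun h1 => h0 (star_eq_zero.1 h1)

/-- the elements of the closure are given by lists of edges -/
theorem list_of_closure (h : Tw G u w) {JJ : Set (Finset ι)}
    (hJ : ∀ J ∈ JJ, (∀ f ∈ Car G, ∑ i ∈ J, f i = 0) ∧ ∏ i ∈ J, u i = 1) {x : ι → ℤ} (hx : x ∈ AddSubgroup.closure (relSet G w JJ)) :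
    ∃ l : List (ι × ι), (∀ e ∈ l, Edge G e) ∧
      (∀ f ∈ Car G, ∑ i, (x i : ℝ) * f i = (l.map fun e => f e.1 - f e.2).sum) ∧
      ∏ i, u i ^ x i = (l.map fun e => u e.1 / u e.2).prod := by
  have hu : ∀ i, u i ≠ 0 := fun i h0 => by
    have := h.unit i
    rw [h0, norm_zero] at this
    exact zero_ne_one this
  have hsum : ∀ (f : ι → ℝ) (i : ι), ∑ k, ((Pi.single i 1 : ι → ℤ) k : ℝ) * f k = f i := by
    intro f i
    rw [Finset.sum_eq_single i]
    · simp
    · intro k _ hk
      simp [hk]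
    · intro h
      exact absurd (mem_univ i) h
  have hprod : ∀ i : ι, ∏ k, u k ^ (Pi.single i 1 : ι → ℤ) k = u i := by
    intro i
    rw [Finset.prod_eq_single i]
    · simp
    · intro k _ hk
      simp [hk]
    · intro h
      exact absurd (mem_univ i) h
  have padd : ∀ x y : ι → ℤ, ∏ k, u k ^ (x + y) k = (∏ k, u k ^ x k) * ∏ k, u k ^ y k := by
    intro x y
    rw [← Finset.prod_mul_distrib]
    exact Finset.prod_congr rfl fun k _ => zpow_add₀ (hu k) _ _
  have pneg : ∀ x : ι → ℤ, ∏ k, u k ^ (-x) k = (∏ k, u k ^ x k)⁻¹ := by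
    intro x
    rw [← Finset.prod_inv_distrib]
    exact Finset.prod_congr rfl fun k _ => zpow_neg _ _
  have sadd : ∀ (f : ι → ℝ) (x y : ι → ℤ), ∑ k, (((x + y) k : ℤ) : ℝ) * f k =
      (∑ k, (x k : ℝ) * f k) + ∑ k, (y k : ℝ) * f k := by
    intro f x y
    rw [← Finset.sum_add_distrib]
    refine Finset.sum_congr rfl fun k _ => ?_
    rw [Pi.add_apply]
    push_cast
    ring
  have sneg : ∀ (f : ι → ℝ) (x : ι → ℤ), ∑ k, (((-x) k : ℤ) : ℝ) * f k =
      -∑ k, (x k : ℝ) * f k := by
    intro f x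
    rw [← Finset.sum_neg_distrib]
    refine Finset.sum_congr rfl fun k _ => ?_
    rw [Pi.neg_apply]
    push_cast
    ring
  refine AddSubgroup.closure_induction (p := fun x _ => ∃ l : List (ι × ι), (∀ e ∈ l, Edge G e) ∧
      (∀ f ∈ Car G, ∑ i, (x i : ℝ) * f i = (l.map fun e => f e.1 - f e.2).sum) ∧
      ∏ i, u i ^ x i = (l.map fun e => u e.1 / u e.2).prod) ?_ ?_ ?_ ?_ hx
  · rintro x (⟨i, j, hij, rfl⟩ | ⟨J, hJ', rfl⟩)
    · have e1 : ∀ f : ι → ℝ, ∑ k, (((Pi.single i 1 - Pi.single j 1 : ι → ℤ) k : ℤ) : ℝ) * f k =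
          f i - f j := by
        intro f
        rw [sub_eq_add_neg, sadd, sneg, hsum, hsum, sub_eq_add_neg]
      have e2 : ∏ k, u k ^ (Pi.single i 1 - Pi.single j 1 : ι → ℤ) k = u i / u j := by
        rw [sub_eq_add_neg, padd, pneg, hprod, hprod, div_eq_mul_inv]
      rcases hij with hij | hij
      · refine ⟨[(i, j)], by simpa using hij, fun f _ => ?_, ?_⟩
        · rw [e1]; simp
        · rw [e2]; simp
      · refine ⟨[], by simp, fun f hf => ?_, ?_⟩
        · rw [e1, h.gen f hf i j j j (by rw [hij])]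
          simp
        · rw [e2, h.uw i j hij, div_self (hu j)]
          simp
    · refine ⟨[], by simp, fun f hf => ?_, ?_⟩
      · rw [sum_indZ, (hJ J hJ').1 f hf]
        simp
      · rw [prod_indZ, (hJ J hJ').2]
        simp
  · refine ⟨[], by simp, fun f _ => by simp, by simp⟩
  · rintro x y - - ⟨l, hl, h1, h2⟩ ⟨l', hl', h1', h2'⟩
    refine ⟨l ++ l', ?_, fun f hf => ?_, ?_⟩
    · intro e he
      rcases List.mem_append.1 he with h3 | h3
      · exact hl e h3
      · exact hl' e h3
    · rw [sadd, h1 f hf, h1' f hf, List.map_append, List.sum_append]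
    · rw [padd, h2, h2', List.map_append, List.prod_append]
  · rintro x - ⟨l, hl, h1, h2⟩
    refine ⟨l.map Prod.swap, ?_, fun f hf => ?_, ?_⟩
    · intro e he
      obtain ⟨e', he', rfl⟩ := List.mem_map.1 he
      exact edge_symm h (hl e' he')
    · rw [sneg, h1 f hf, List.map_map]
      clear h1 h2 hl
      induction l with
      | nil => simp
      | cons e l ih =>
        simp only [List.map_cons, List.sum_cons, Function.comp_apply, Prod.fst_swap,
          Prod.snd_swap] at ih ⊢
        rw [← ih]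
        ring
    · rw [pneg, h2, List.map_map]
      clear h1 h2 hl
      induction l with
      | nil => simp
      | cons e l ih =>
        simp only [List.map_cons, List.prod_cons, Function.comp_apply, Prod.fst_swap,
          Prod.snd_swap] at ih ⊢
        rw [← ih, mul_inv, inv_div]

/-- the conclusion, for a set of indices which is killed by all central elements -/
theorem Tw.mainG (h : Tw G u w) (JJ : Set (Finset ι))
    (hJ : ∀ J ∈ JJ, (∀ f ∈ Car G, ∑ i ∈ J, f i = 0) ∧ ∏ i ∈ J, u i = 1) (I : Finset ι)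
    (hI : ∀ f ∈ Car G, ∑ i ∈ I, f i = 0)
    (hz : ∀ z : ι → ℂ, (∀ i, z i ≠ 0) → (∀ i j, Edge G (i, j) → z i = z j) →
      (∀ i j, w i = w j → z i = z j) → (∀ J ∈ JJ, ∏ i ∈ J, z i = 1) → ∏ i ∈ I, z i = 1) :
    ∏ i ∈ I, u i = 1 := by
  have hmem := mem_closure_rel (G := G) (w := w) (JJ := JJ) (x := indZ I)
    (fun z h1 h2 h3 h4 => by
      rw [prod_indZ]
      exact hz z h1 h2 h3 h4)
  obtain ⟨l, hl, hs, hp⟩ := list_of_closure h hJ hmem
  rw [← prod_indZ, hp]
  apply h.list_prod l hl
  intro f hf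
  rw [← hs f hf, sum_indZ, hI f hf]

end Pc0b458L
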