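import Pool.Agent.Lib.Pc0b458L.Scale0
import Pool.Agent.Lib.Pc0b458L.MainG
import Pool.Agent.Lib.Pc0b458L.Share

/-!
# Twists by diagonal matrices which are not unitary: at most three self-dual components
-/

open Finset

namespace Pc0b458L

open Matrix

variable {ι : Type} [Fintype ι] [DecidableEq ι] {G : Submodule ℂ (Matrix ι ι ℂ)}

omit [Fintype ι] in
theorem Conn.mono {G' : Submodule ℂ (Matrix ι ι ℂ)} (hcar : Car G' = Car G)
    (hedge : ∀ i j, Edge G (i, j) → Edge G' (i, j)) {i j : ι} (hij : Conn G i j) :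
    Conn G' i j := by
  induction hij with
  | rel i j hij =>
    rcases hij with hij | hij
    · exact Relation.EqvGen.rel _ _ (Or.inl (hedge i j hij))
    · exact Relation.EqvGen.rel _ _ (Or.inr (by rw [hcar]; exact hij))
  | refl i => exact Relation.EqvGen.refl _
  | symm i j _ ih => exact Relation.EqvGen.symm _ _ ih
  | trans i j k _ _ ih1 ih2 => exact Relation.EqvGen.trans _ _ _ ih1 ih2

theorem real3_scaled {om : ι → ℂ} (h0 : ∀ i, om i ≠ 0)
    (lie : ∀ X ∈ G, ∀ Y ∈ G, X * Y - Y * X ∈ G)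
    (twist : ∀ X ∈ G, diagonal om * Xᴴ * diagonal (fun i => (om i)⁻¹) ∈ G)
    (cartan : ∀ X ∈ G, (∀ f ∈ Car G, ∀ i j, X i j ≠ 0 → f i = f j) → ∀ i j, i ≠ j → X i j = 0)
    (uf : ∀ i j, (∀ f ∈ Car G, f i = f j) → om i / ‖om i‖ = om j / ‖om j‖)
    (hbar : ∀ i, ∃ j, i ≠ j ∧ (∀ f ∈ Car G, f i + f j = 0) ∧ om i * om j = 1 ∧ Conn G i j)
    (h3 : ∀ a : Fin 4 → ι, ∃ p q, p ≠ q ∧ Conn G (a p) (a q))
    {n : ℕ} (I : Finset ι) (hI : I.card = 2 * n) (hs : ∀ f ∈ Car G, ∑ i ∈ I, f i = 0) :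
    ∏ i ∈ I, (om i / ‖om i‖) = 1 := by
  obtain ⟨G', w, hw, hcar, hedge⟩ := exists_scaled h0 lie twist cartan uf
  have hconn : ∀ i j, Conn G i j → Conn G' i j := fun i j hij => hij.mono hcar hedge
  let JJ : Set (Finset ι) := {J | ∃ i j, i ≠ j ∧ J = {i, j} ∧ (∀ f ∈ Car G, f i + f j = 0) ∧
    om i * om j = 1}
  refine hw.mainG JJ ?_ I ?_ ?_
  · rintro J ⟨i, j, hij, rfl, h1, h2⟩
    refine ⟨?_, ?_⟩
    · intro f hf
      rw [hcar] at hf
      rw [Finset.sum_pair hij]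
      exact h1 f hf
    · rw [Finset.prod_pair hij, div_mul_div_comm, h2, ← Complex.ofReal_mul, ← norm_mul, h2,
        norm_one, Complex.ofReal_one, div_one]
  · rw [hcar]
    exact hs
  · intro z hz0 hze hzw hzJ
    refine hw.real3 hze ?_ ?_ ?_ I hI ?_
    · intro i j hij
      exact hzw i j (hij w hw.mem)
    · intro i
      obtain ⟨j, hij, h1, h2, h4⟩ := hbar i
      refine ⟨j, ?_, ?_, hconn i j h4⟩
      · rw [hcar]
        exact h1
      · have h5 := hzJ {i, j} ⟨i, j, hij, rfl, h1, h2⟩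
        rwa [Finset.prod_pair hij] at h5
    · intro a
      obtain ⟨p, q, hpq, h1⟩ := h3 a
      exact ⟨p, q, hpq, hconn _ _ h1⟩
    · rw [hcar]
      exact hs

end Pc0b458L
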