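import Pool.Agent.Lib.Pc0b458L.Scale0
import Pool.Agent.Lib.Pc0b458L.ScaleR
import Pool.Agent.Lib.Pc0b458L.Quad2

/-!
# Relations of size at most four, with components which are not real

`bar` is an involution of the set of indices which maps an index to an index of the opposite weight.
`Fine G bar E` says that `E` is an equivalence relation which is finer than the connectedness and
compatible with `bar`. An index `i` is real if `E i (bar i)`. `Skew bar E` is the set of the functions
`d` which are constant on the classes of `E` and satisfy `d (bar i) = - d i`. If all these functions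
are zero on a set of indices, then it contains as many elements of a class which is not real as
elements of the opposite class, and the product of the values of `t` at these elements is a product
of ratios of edges. So only the real classes matter, and `Tw.quadmixed` is the version of
`Tw.quadcode` for them.
-/

open Finset

namespace Pc0b458L

open Matrix

variable {ι : Type} [Fintype ι] [DecidableEq ι] {G : Submodule ℂ (Matrix ι ι ℂ)} {u : ι → ℂ}
  {w : ι → ℝ}

/-- the equivalence relation `E` is finer than the connectedness and compatible with `bar` -/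
structure Fine (G : Submodule ℂ (Matrix ι ι ℂ)) (bar : ι → ι) (E : ι → ι → Prop) : Prop where
  equiv : Equivalence E
  conn : ∀ i j, E i j → Conn G i j
  opp : ∀ i j, E i j → E (bar i) (bar j)
  bar_bar : ∀ i, bar (bar i) = i
  wt : ∀ i, ∀ f ∈ Car G, f i + f (bar i) = 0

/-- the functions which are constant on the classes of `E` and change their sign under `bar` -/
structure Skew (bar : ι → ι) (E : ι → ι → Prop) (d : ι → ℝ) : Prop where
  const : ∀ i j, E i j → d i = d j
  opp : ∀ i, d (bar i) = -d i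

omit [Fintype ι] [DecidableEq ι] in
theorem Skew.zero {bar : ι → ι} {E : ι → ι → Prop} {d : ι → ℝ} (hd : Skew bar E d) {i : ι}
    (hi : E i (bar i)) : d i = 0 := by
  have h1 := hd.const i (bar i) hi
  rw [hd.opp] at h1
  linarith

/-- `i` is connected with an index of the opposite weight -/
def Rl (G : Submodule ℂ (Matrix ι ι ℂ)) (i : ι) : Prop :=
  ∃ j, Conn G i j ∧ ∀ f ∈ Car G, f i + f j = 0

theorem Tw.conn_opp (h : Tw G u w) {i j i' j' : ι} (hij : Conn G i j)
    (hi : ∀ f ∈ Car G, f i + f i' = 0) (hj : ∀ f ∈ Car G, f j + f j' = 0) : Conn G i' j' := by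
  apply h.conn_of_inQ
  refine ((Conn.inQ h hij).neg h).congr fun f hf => ?_
  have h1 := hi f hf
  have h2 := hj f hf
  linarith

theorem Rl.of_conn (h : Tw G u w) (hopp : ∀ i, ∃ j, ∀ f ∈ Car G, f i + f j = 0) {i k : ι}
    (hi : Rl G i) (hik : Conn G i k) : Rl G k := by
  obtain ⟨j, hij, h1⟩ := hi
  obtain ⟨k', h2⟩ := hopp k
  exact ⟨k', Relation.EqvGen.trans _ _ _ (Relation.EqvGen.symm _ _ hik)
    (Relation.EqvGen.trans _ _ _ hij (h.conn_opp hik h1 h2)), h2⟩

/-- the product of the values of `t` over a set of indices which contains as many elements of each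
class as elements of the opposite class -/
theorem RQ.balanced (h : Tw G u w) {t : ι → ℂ} (ht : Gd G t) {bar : ι → ι} {E : ι → ι → Prop}
    (hE : Fine G bar E) (J : Finset ι) (hJ : ∀ i ∈ J, ¬ E i (bar i))
    (hb : ∀ d, Skew bar E d → ∑ i ∈ J, d i = 0) :
    RQ G t (fun f => ∑ i ∈ J, f i) (∏ i ∈ J, t i) := by
  classical
  induction hn : J.card using Nat.strong_induction_on generalizing J with
  | _ n ih =>
    rcases J.eq_empty_or_nonempty with rfl | ⟨a, ha⟩
    · exact RQ.one.congr (fun f _ => by simp) (by simp)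
    · have hna : ¬ E a (bar a) := hJ a ha
      let d : ι → ℝ := fun k => if E a k then 1 else if E (bar a) k then -1 else 0
      have hd : Skew bar E d := by
        refine ⟨fun i j hij => ?_, fun i => ?_⟩
        · have e1 : E a i ↔ E a j := ⟨fun h1 => hE.equiv.trans h1 hij,
            fun h1 => hE.equiv.trans h1 (hE.equiv.symm hij)⟩
          have e2 : E (bar a) i ↔ E (bar a) j := ⟨fun h1 => hE.equiv.trans h1 hij,
            fun h1 => hE.equiv.trans h1 (hE.equiv.symm hij)⟩
          simp only [d, e1, e2]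
        · have e1 : E a (bar i) ↔ E (bar a) i := ⟨fun h1 => by
              have h2 := hE.opp _ _ h1
              rwa [hE.bar_bar] at h2, fun h1 => by
              have h2 := hE.opp _ _ h1
              rwa [hE.bar_bar] at h2⟩
          have e2 : E (bar a) (bar i) ↔ E a i := ⟨fun h1 => by
              have h2 := hE.opp _ _ h1
              rwa [hE.bar_bar, hE.bar_bar] at h2, fun h1 => hE.opp _ _ h1⟩
          have e3 : ¬ (E a i ∧ E (bar a) i) := fun h1 => hna
            (hE.equiv.trans h1.1 (hE.equiv.symm h1.2))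
          simp only [d, e1, e2]
          by_cases h1 : E a i
          · have h2 : ¬ E (bar a) i := fun h2 => e3 ⟨h1, h2⟩
            rw [if_neg h2, if_pos h1, if_pos h1]
          · by_cases h2 : E (bar a) i
            · rw [if_pos h2, if_neg h1, if_pos h2]
              norm_num
            · rw [if_neg h2, if_neg h1, if_neg h1, if_neg h2]
              norm_num
      have hda : d a = 1 := if_pos (hE.equiv.refl a)
      obtain ⟨b, hbJ, hdb⟩ : ∃ b ∈ J, d b < 0 := by
        by_contra hcon
        push Not at hcon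
        have h1 : 0 < ∑ i ∈ J, d i := by
          refine Finset.sum_pos' (fun i hi => hcon i hi) ⟨a, ha, ?_⟩
          rw [hda]
          exact one_pos
        rw [hb d hd] at h1
        exact lt_irrefl _ h1
      have hcb : E (bar a) b := by
        by_contra hcon
        simp only [d] at hdb
        by_cases h1 : E a b
        · rw [if_pos h1] at hdb
          linarith
        · rw [if_neg h1, if_neg hcon] at hdb
          exact lt_irrefl _ hdb
      have hab : a ≠ b := by
        intro h1
        rw [← h1, hda] at hdb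
        linarith
      have hbJ' : b ∈ J.erase a := Finset.mem_erase.2 ⟨hab.symm, hbJ⟩
      have e1 : ∀ (M : Type) [AddCommMonoid M] (f : ι → M), ∑ i ∈ J, f i =
          f a + (f b + ∑ i ∈ (J.erase a).erase b, f i) := by
        intro M _ f
        rw [Finset.add_sum_erase _ _ hbJ', Finset.add_sum_erase _ _ ha]
      have e2 : ∏ i ∈ J, t i = t a * (t b * ∏ i ∈ (J.erase a).erase b, t i) := by
        rw [Finset.mul_prod_erase _ _ hbJ', Finset.mul_prod_erase _ _ ha]
      have h1 := ih ((J.erase a).erase b).card (by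
          rw [Finset.card_erase_of_mem hbJ', Finset.card_erase_of_mem ha, ← hn]
          have := Finset.card_pos.2 ⟨a, ha⟩
          omega) ((J.erase a).erase b)
        (fun i hi => hJ i (Finset.mem_of_mem_erase (Finset.mem_of_mem_erase hi)))
        (fun d' hd' => by
          have h2 := hb d' hd'
          rw [e1] at h2
          have h3 := hd'.const (bar a) b hcb
          have h4 := hd'.opp a
          linarith) rfl
      have h2 := Conn.rq h ht (Relation.EqvGen.symm _ _ (hE.conn _ _ hcb))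
      refine (h2.mul h1).congr (fun f hf => ?_) ?_
      · rw [e1]
        have h3 := hE.wt a f hf
        linarith
      · rw [e2]
        have h3 := ht.pair a (bar a) (hE.wt a)
        rw [div_eq_mul_inv, ← eq_inv_of_mul_eq_one_left h3]
        ring

section

variable {Pl : Type} [Fintype Pl] [DecidableEq Pl]

/-- the parities of the numbers of elements of `I` of the real places -/
def parO (pl : ι → Option Pl) (I : Finset ι) : Pl → ZMod 2 :=
  fun s => ((I.filter (fun i => pl i = some s)).card : ZMod 2)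

omit [Fintype ι] [Fintype Pl] in
theorem parO_insert (pl : ι → Option Pl) {a : ι} {I : Finset ι} (ha : a ∉ I) {p : Pl}
    (hp : pl a = some p) : parO pl (insert a I) = Pi.single p 1 + parO pl I := by
  funext s
  simp only [parO, Pi.add_apply]
  rw [Finset.filter_insert]
  by_cases hs : p = s
  · subst hs
    rw [if_pos hp, Finset.card_insert_of_notMem (fun h => ha (Finset.mem_filter.1 h).1),
      Pi.single_eq_same]
    push_cast
    ring
  · rw [if_neg (fun h => hs (Option.some.inj (hp.symm.trans h))),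
      Pi.single_eq_of_ne (fun h => hs h.symm), zero_add]

omit [Fintype ι] [Fintype Pl] in
theorem parO_insert_none (pl : ι → Option Pl) {a : ι} {I : Finset ι} (hp : pl a = none) :
    parO pl (insert a I) = parO pl I := by
  funext s
  simp only [parO]
  rw [Finset.filter_insert, if_neg (by rw [hp]; exact fun h => Option.some_ne_none s h.symm)]

/-- a set of indices and its parity vector -/
theorem parO_rq (h : Tw G u w) {t : ι → ℂ} (ht : Gd G t) (pl : ι → Option Pl) {ρ : Pl → ι}
    (hpl : ∀ i s, pl i = some s → Conn G i (ρ s))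
    (hρ : ∀ s, ∃ k, Conn G (ρ s) k ∧ ∀ f ∈ Car G, f (ρ s) + f k = 0) (I : Finset ι)
    (hI : ∀ i ∈ I, pl i ≠ none) :
    RQ G t (fun f => ∑ i ∈ I, f i - Phi ρ (parO pl I) f)
      ((∏ i ∈ I, t i) / Tau ρ t (parO pl I)) := by
  induction I using Finset.induction_on with
  | empty =>
    have h0 : parO pl ∅ = 0 := by
      funext s
      simp [parO]
    refine RQ.one.congr (fun f _ => ?_) ?_
    · rw [h0]
      simp [Phi]
    · rw [h0]
      simp [Tau]
  | insert a I ha ih =>
    obtain ⟨p, hp⟩ := Option.ne_none_iff_exists'.1 (hI a (Finset.mem_insert_self a I))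
    have ih' := ih fun i hi => hI i (Finset.mem_insert_of_mem hi)
    rw [parO_insert pl ha hp]
    have h1 := Tau_add h ht hρ (Pi.single p 1) (parO pl I)
    have h2 : RQ G t (fun f => f a - Phi ρ (Pi.single p 1) f)
        (t a / Tau ρ t (Pi.single p 1)) := by
      refine ((hpl a p hp).rq h ht).congr (fun f _ => ?_) ?_
      · congr 1
        unfold Phi
        rw [Finset.sum_eq_single p]
        · rw [Pi.single_eq_same]
          simp [ZMod.val_one]
        · intro s _ hs
          rw [Pi.single_eq_of_ne hs]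
          simp
        · intro hs
          exact absurd (Finset.mem_univ _) hs
      · congr 1
        unfold Tau
        rw [Finset.prod_eq_single p]
        · rw [Pi.single_eq_same]
          simp [ZMod.val_one]
        · intro s _ hs
          rw [Pi.single_eq_of_ne hs]
          simp
        · intro hs
          exact absurd (Finset.mem_univ _) hs
    refine ((ih'.mul h2).mul h1).congr (fun f _ => ?_) ?_
    · rw [Finset.sum_insert ha]
      ring
    · rw [Finset.prod_insert ha]
      have n1 := Tau_ne (ρ := ρ) ht.ne (parO pl I)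
      have n2 := Tau_ne (ρ := ρ) ht.ne (Pi.single p 1 : Pl → ZMod 2)
      field_simp

omit [Fintype ι] [DecidableEq ι] [Fintype Pl] in
theorem parO_filter (pl : ι → Option Pl) (I : Finset ι) :
    parO pl (I.filter fun i => pl i ≠ none) = parO pl I := by
  funext s
  simp only [parO]
  rw [Finset.filter_filter]
  congr 2
  ext i
  simp only [Finset.mem_filter]
  constructor
  · rintro ⟨h1, -, h2⟩
    exact ⟨h1, h2⟩
  · rintro ⟨h1, h2⟩
    exact ⟨h1, by rw [h2]; exact Option.some_ne_none s, h2⟩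

omit [Fintype Pl] [DecidableEq Pl] in
/-- the part of a set of indices outside the real classes -/
theorem RQ.rest (h : Tw G u w) {t : ι → ℂ} (ht : Gd G t) {bar : ι → ι} {E : ι → ι → Prop}
    (hE : Fine G bar E) {pl : ι → Option Pl} (hR : ∀ i, pl i ≠ none ↔ E i (bar i)) {I : Finset ι}
    (hI : ∀ d, Skew bar E d → ∑ i ∈ I, d i = 0) :
    RQ G t (fun f => ∑ i ∈ I.filter (fun i => ¬ pl i ≠ none), f i)
      (∏ i ∈ I.filter (fun i => ¬ pl i ≠ none), t i) := by
  refine RQ.balanced h ht hE _ (fun i hi hr => (Finset.mem_filter.1 hi).2 ((hR i).2 hr))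
    fun d hd => ?_
  have h1 := hI d hd
  rw [← Finset.sum_filter_add_sum_filter_not I (fun i => pl i ≠ none)] at h1
  have h2 : ∑ i ∈ I.filter (fun i => pl i ≠ none), d i = 0 :=
    Finset.sum_eq_zero fun i hi => hd.zero ((hR i).1 (Finset.mem_filter.1 hi).2)
  rw [h2, zero_add] at h1
  exact h1

theorem parO_mem_iff (h : Tw G u w) {t : ι → ℂ} (ht : Gd G t) {bar : ι → ι} {E : ι → ι → Prop}
    (hE : Fine G bar E) {pl : ι → Option Pl} (hR : ∀ i, pl i ≠ none ↔ E i (bar i)) {ρ : Pl → ι}
    (hpl : ∀ i s, pl i = some s → Conn G i (ρ s))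
    (hρ : ∀ s, ∃ k, Conn G (ρ s) k ∧ ∀ f ∈ Car G, f (ρ s) + f k = 0) {I : Finset ι}
    (hI : ∀ f ∈ Car G, ∑ i ∈ I, f i = 0) (hI' : ∀ d, Skew bar E d → ∑ i ∈ I, d i = 0) :
    RQ G t (Phi ρ (parO pl I)) (Tau ρ t (parO pl I) / ∏ i ∈ I, t i) ∧
      (parO pl I ∈ KK h ht ρ hρ ↔ ∏ i ∈ I, t i = 1) := by
  have h0 := RQ.rest h ht hE hR hI'
  have h1 := parO_rq h ht pl hpl hρ (I.filter fun i => pl i ≠ none)
    fun i hi => (Finset.mem_filter.1 hi).2
  rw [parO_filter] at h1
  have n1 := Tau_ne (ρ := ρ) ht.ne (parO pl I)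
  have n2 : ∏ i ∈ I, t i ≠ 0 := Finset.prod_ne_zero_iff.2 fun _ _ => ht.ne _
  have h2 : RQ G t (Phi ρ (parO pl I)) (Tau ρ t (parO pl I) / ∏ i ∈ I, t i) := by
    refine ((h1.mul h0).inv h).congr (fun f hf => ?_) ?_
    · have h3 := hI f hf
      rw [← Finset.sum_filter_add_sum_filter_not I (fun i => pl i ≠ none)] at h3
      linarith
    · rw [← Finset.prod_filter_mul_prod_filter_not I (fun i => pl i ≠ none), mul_inv, inv_div]
      rw [← div_div, div_eq_mul_inv]
  refine ⟨h2, ?_⟩
  rw [mem_KK]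
  constructor
  · intro h3
    have h4 := h3.unique h ht h2
    rw [eq_div_iff n2] at h4
    exact mul_left_cancel₀ n1 (by rw [h4, mul_one])
  · intro h3
    rw [h3, div_one] at h2
    exact h2

end

/-- four indices two of which are connected (the first two are in real components) -/
theorem Tw.four_real (h : Tw G u w) (hu : Gd G u) {b : Fin 4 → ι}
    (hbar : ∀ k, Rl G (b k)) (hb : ∀ f ∈ Car G, ∑ k, f (b k) = 0) {k k' : Fin 4} (hk : k ≠ k')
    (hc : Conn G (b k) (b k')) : ∏ k, u (b k) = 1 := by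
  obtain ⟨σ, rfl, rfl⟩ := (by decide : ∀ k k' : Fin 4, k ≠ k' →
    ∃ σ : Equiv.Perm (Fin 4), σ 0 = k ∧ σ 1 = k') k k' hk
  rw [← Equiv.prod_comp σ]
  have hb' : ∀ f ∈ Car G, f (b (σ 0)) + f (b (σ 1)) + (f (b (σ 2)) + f (b (σ 3))) = 0 := by
    intro f hf
    have := hb f hf
    rw [← Equiv.sum_comp σ, Fin.sum_univ_four] at this
    linarith
  rw [Fin.prod_univ_four]
  obtain ⟨j1, hj1, hj1'⟩ := hbar (σ 1)
  obtain ⟨j3, hj3, hj3'⟩ := hbar (σ 3)
  have h1 := hu.add h hc hj1 hj1'
  have h2 : InQ G fun f => f (b (σ 2)) - f j3 := by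
    refine (h1.inv h).inQ.congr fun f hf => ?_
    have a1 := hb' f hf
    have a2 := hj3' f hf
    linarith
  have h3 : Conn G (b (σ 2)) j3 := h.conn_of_inQ h2
  have h4 := hu.add h (Relation.EqvGen.trans _ _ _ h3 (Relation.EqvGen.symm _ _ hj3)) hj3 hj3'
  have h5 := (h1.mul h4).zero_eq h hu (fun f hf => by
    have := hb' f hf
    linarith)
  rw [← h5]
  ring

/-- **The product of `u` over the elements of `W`.** -/
theorem Tw.quadmixed (h : Tw G u w) (hu : Gd G u) {bar : ι → ι} {E : ι → ι → Prop}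
    (hE : Fine G bar E) {Pl : Type} [Fintype Pl] [DecidableEq Pl]
    (pl : ι → Option Pl) (hR : ∀ i, pl i ≠ none ↔ E i (bar i))
    (hpl : ∀ i j s, pl i = some s → pl j = some s → Conn G i j)
    (W : Set (Finset ι)) (hW : ∀ I ∈ W, ∀ f ∈ Car G, ∑ i ∈ I, f i = 0)
    (hbal : ∀ I ∈ W, ∀ d, Skew bar E d → ∑ i ∈ I, d i = 0)
    (hcode : AddSubgroup.closure (parO pl '' W) ≤
      AddSubgroup.closure {v | v ∈ AddSubgroup.closure (parO pl '' W) ∧
        ∃ S : Finset Pl, (S.card = 2 ∨ S.card = 4) ∧ v = fun s => if s ∈ S then 1 else 0})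
    (hθ : ∀ θ : Finset ι, θ.card = 4 →
      (∀ t : ι → ℂ, Gd G t → (∀ I ∈ W, ∏ i ∈ I, t i = 1) → ∏ i ∈ θ, t i = 1) →
      ∏ i ∈ θ, u i = 1) :
    ∀ I ∈ W, ∏ i ∈ I, u i = 1 := by
  classical
  by_cases hemp : ∀ i, pl i = none
  · intro I hI
    have h1 := RQ.rest h hu hE hR (hbal I hI)
    have h2 : I.filter (fun i => ¬ pl i ≠ none) = I :=
      Finset.filter_true_of_mem fun i _ => not_not.2 (hemp i)
    rw [h2] at h1
    exact h1.zero_eq h hu (hW I hI)
  push Not at hemp
  obtain ⟨i0, hi0⟩ := hemp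
  let ρ : Pl → ι := fun s => if hs : ∃ i, pl i = some s then hs.choose else i0
  have hρ' : ∀ s, pl (ρ s) ≠ none := by
    intro s
    by_cases hs : ∃ i, pl i = some s
    · have h1 : ρ s = hs.choose := dif_pos hs
      rw [h1, hs.choose_spec]
      exact Option.some_ne_none s
    · have h1 : ρ s = i0 := dif_neg hs
      rw [h1]
      exact hi0
  have hplρ : ∀ i s, pl i = some s → Conn G i (ρ s) := by
    intro i s hi
    have hs : ∃ j, pl j = some s := ⟨i, hi⟩
    have h1 : ρ s = hs.choose := dif_pos hs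
    rw [h1]
    exact hpl _ _ s hi hs.choose_spec
  have hρ : ∀ s, ∃ k, Conn G (ρ s) k ∧ ∀ f ∈ Car G, f (ρ s) + f k = 0 := fun s =>
    ⟨bar (ρ s), hE.conn _ _ ((hR _).1 (hρ' s)), hE.wt _⟩
  have hopp : ∀ i, ∃ j, ∀ f ∈ Car G, f i + f j = 0 := fun i => ⟨bar i, hE.wt i⟩
  -- the elements of the code are sums of roots
  have hQ : ∀ v ∈ AddSubgroup.closure (parO pl '' W), ∃ τ, RQ G u (Phi ρ v) τ := by
    intro v hv
    refine AddSubgroup.closure_induction (p := fun v _ => ∃ τ, RQ G u (Phi ρ v) τ)
      ?_ ?_ ?_ ?_ hv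
    · rintro _ ⟨I, hI, rfl⟩
      exact ⟨_, (parO_mem_iff h hu hE hR hplρ hρ (hW I hI) (hbal I hI)).1⟩
    · exact ⟨_, RQ.one.congr (fun f _ => by simp [Phi]) rfl⟩
    · rintro v v' - - ⟨τ, h1⟩ ⟨τ', h2⟩
      exact ⟨_, ((h1.mul h2).mul ((Tau_add h hu hρ v v').inv h)).congr (fun f _ => by ring) rfl⟩
    · rintro v - ⟨τ, h1⟩
      have : -v = v := by
        funext s
        exact ZMod.neg_eq_self_mod_two (v s)
      rw [this]
      exact ⟨τ, h1⟩
  have hle : AddSubgroup.closure (parO pl '' W) ≤ KK h hu ρ hρ := by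
    refine hcode.trans ?_
    rw [AddSubgroup.closure_le]
    rintro v ⟨hv, S, hS, hvS⟩
    obtain ⟨r, hr⟩ : ∃ r, S.card = r := ⟨_, rfl⟩
    let e : Fin r ≃ S := (Finset.equivFinOfCardEq hr).symm
    let a : Fin r → ι := fun k => ρ (e k)
    have hphi : ∀ f : ι → ℝ, Phi ρ v f = ∑ k, f (a k) := by
      intro f
      have h1 : Phi ρ v f = ∑ s ∈ S, f (ρ s) := by
        unfold Phi
        rw [hvS, ← Finset.sum_subset (Finset.subset_univ S)]
        · refine Finset.sum_congr rfl fun s hs => ?_
          simp [hs, ZMod.val_one]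
        · intro s _ hs
          simp [hs]
      rw [h1, ← Finset.sum_coe_sort S (fun s => f (ρ s))]
      exact (Equiv.sum_comp e (fun s : S => f (ρ s))).symm
    have htau : ∀ t : ι → ℂ, Tau ρ t v = ∏ k, t (a k) := by
      intro t
      have h1 : Tau ρ t v = ∏ s ∈ S, t (ρ s) := by
        unfold Tau
        rw [hvS, ← Finset.prod_subset (Finset.subset_univ S)]
        · refine Finset.prod_congr rfl fun s hs => ?_
          simp [hs, ZMod.val_one]
        · intro s _ hs
          simp [hs]
      rw [h1, ← Finset.prod_coe_sort S (fun s => t (ρ s))]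
      exact (Equiv.prod_comp e (fun s : S => t (ρ s))).symm
    obtain ⟨τ, hτ⟩ := hQ v hv
    obtain ⟨b, hab, hb⟩ := h.zero_sum a (hτ.inQ.congr fun f _ => (hphi f).symm)
    show v ∈ KK h hu ρ hρ
    rw [word_mem_iff h hu hρ hphi htau hab hb]
    have hbr : ∀ k, Rl G (b k) := fun k => Rl.of_conn h hopp (hρ (e k)) (hab k)
    rw [hr] at hS
    rcases hS with rfl | rfl
    · rw [Fin.prod_univ_two]
      apply hu.pair
      intro f hf
      have := hb f hf
      rwa [Fin.sum_univ_two] at this
    · by_cases hcon : ∃ k k' : Fin 4, k ≠ k' ∧ Conn G (b k) (b k')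
      · obtain ⟨k, k', hk, hc⟩ := hcon
        exact h.four_real hu hbr hb hk hc
      · push Not at hcon
        have hinj : Function.Injective b := by
          intro k k' hkk
          by_contra hne
          exact hcon k k' hne (by rw [hkk]; exact Relation.EqvGen.refl _)
        have hprod : ∀ t : ι → ℂ, ∏ i ∈ univ.image b, t i = ∏ k, t (b k) := fun t =>
          Finset.prod_image fun _ _ _ _ hkk => hinj hkk
        rw [← hprod]
        refine hθ _ ?_ ?_
        · rw [Finset.card_image_of_injective _ hinj, Finset.card_univ, Fintype.card_fin]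
        · intro t ht htW
          rw [hprod, ← word_mem_iff h ht hρ hphi htau hab hb]
          refine (AddSubgroup.closure_le (K := KK h ht ρ hρ)).2 ?_ hv
          rintro _ ⟨I, hI, rfl⟩
          exact (parO_mem_iff h ht hE hR hplρ hρ (hW I hI) (hbal I hI)).2.2 (htW I hI)
  intro I hI
  rw [← (parO_mem_iff h hu hE hR hplρ hρ (hW I hI) (hbal I hI)).2]
  exact hle (AddSubgroup.subset_closure ⟨I, hI, rfl⟩)

/-- A Lie algebra of matrices with a twist by a diagonal matrix which need not be unitary is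
conjugate, by a diagonal matrix, to one with a unitary twist. (Version with the same edges.) -/
theorem exists_scaled_iff {om : ι → ℂ} (h0 : ∀ i, om i ≠ 0)
    (lie : ∀ X ∈ G, ∀ Y ∈ G, X * Y - Y * X ∈ G)
    (twist : ∀ X ∈ G, diagonal om * Xᴴ * diagonal (fun i => (om i)⁻¹) ∈ G)
    (cartan : ∀ X ∈ G, (∀ f ∈ Car G, ∀ i j, X i j ≠ 0 → f i = f j) → ∀ i j, i ≠ j → X i j = 0)
    (uf : ∀ i j, (∀ f ∈ Car G, f i = f j) → om i / ‖om i‖ = om j / ‖om j‖) :
    ∃ (G' : Submodule ℂ (Matrix ι ι ℂ)) (w : ι → ℝ), Tw G' (fun i => om i / ‖om i‖) w ∧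
      Car G' = Car G ∧ (∀ i j, Edge G (i, j) ↔ Edge G' (i, j)) ∧ ∀ t, Nrm G t ↔ Nrm G' t := by
  let ρ : ι → ℝ := fun i => Real.sqrt ‖om i‖
  have hρ0 : ∀ i, 0 < ρ i := fun i => Real.sqrt_pos.2 (norm_pos_iff.2 (h0 i))
  have hρ2 : ∀ i, ρ i * ρ i = ‖om i‖ := fun i => Real.mul_self_sqrt (norm_nonneg _)
  let rc : ι → ℂ := fun i => (ρ i : ℂ)
  have hrc : ∀ i, rc i ≠ 0 := fun i => Complex.ofReal_ne_zero.2 (hρ0 i).ne'
  have hrc2 : ∀ i, rc i * rc i = (‖om i‖ : ℂ) := fun i => by
    rw [← hρ2 i, Complex.ofReal_mul]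
  have hn : ∀ i, ((‖om i‖ : ℝ) : ℂ) ≠ 0 := fun i =>
    Complex.ofReal_ne_zero.2 (norm_ne_zero_iff.2 (h0 i))
  let u : ι → ℂ := fun i => om i / ‖om i‖
  let G' : Submodule ℂ (Matrix ι ι ℂ) := G.comap (conjD rc)
  have hmem : ∀ X, X ∈ G' ↔ conjD rc X ∈ G := fun X => Submodule.mem_comap
  have hcar : Car G' = Car G := by
    ext f
    change diagonal (fun i => (f i : ℂ)) ∈ G' ↔ diagonal (fun i => (f i : ℂ)) ∈ G
    rw [hmem, conjD_diagonal hrc]
  have hlie : ∀ X ∈ G', ∀ Y ∈ G', X * Y - Y * X ∈ G' := by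
    intro X hX Y hY
    rw [hmem] at hX hY ⊢
    rw [map_sub, conjD_mul hrc, conjD_mul hrc]
    exact lie _ hX _ hY
  have hunit : ∀ i, ‖u i‖ = 1 := by
    intro i
    change ‖om i / ‖om i‖‖ = 1
    rw [norm_div, Complex.norm_real, norm_norm, div_self (norm_ne_zero_iff.2 (h0 i))]
  have htwist : ∀ X ∈ G', diagonal u * Xᴴ * diagonal (fun i => (u i)⁻¹) ∈ G' := by
    intro X hX
    rw [hmem] at hX ⊢
    have h1 := twist _ hX
    have h2 : conjD rc (diagonal u * Xᴴ * diagonal (fun i => (u i)⁻¹)) =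
        diagonal om * (conjD rc X)ᴴ * diagonal (fun i => (om i)⁻¹) := by
      ext i j
      rw [conjD_apply, Matrix.mul_diagonal, Matrix.diagonal_mul, Matrix.mul_diagonal,
        Matrix.diagonal_mul, Matrix.conjTranspose_apply, Matrix.conjTranspose_apply, conjD_apply,
        star_mul', star_mul', star_inv₀]
      have e1 : ∀ k, star (rc k) = rc k := fun k => Complex.conj_ofReal _
      rw [e1, e1]
      have e2 : om i = u i * (rc i * rc i) := by
        change om i = om i / ‖om i‖ * (rc i * rc i)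
        rw [hrc2, div_mul_cancel₀ _ (hn i)]
      have e3 : om j = u j * (rc j * rc j) := by
        change om j = om j / ‖om j‖ * (rc j * rc j)
        rw [hrc2, div_mul_cancel₀ _ (hn j)]
      have e4 : u j ≠ 0 := by
        intro h
        have := hunit j
        rw [h, norm_zero] at this
        exact zero_ne_one this
      rw [e2, e3]
      have e5 := hrc i
      have e6 := hrc j
      field_simp
    rw [h2]
    exact h1
  have hcartan : ∀ X ∈ G', (∀ f ∈ Car G', ∀ i j, X i j ≠ 0 → f i = f j) →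
      ∀ i j, i ≠ j → X i j = 0 := by
    intro X hX hf i j hij
    rw [hmem] at hX
    have h1 := cartan _ hX (fun f hfG a b hab => by
      rw [← hcar] at hfG
      refine hf f hfG a b fun h => hab ?_
      rw [conjD_apply, h, mul_zero, zero_mul]) i j hij
    rw [conjD_apply] at h1
    rcases mul_eq_zero.1 h1 with h2 | h2
    · exact (mul_eq_zero.1 h2).resolve_left (hrc i)
    · exact absurd h2 (inv_ne_zero (hrc j))
  obtain ⟨w, hw⟩ := exists_tw hlie hunit htwist hcartan (fun i j hij => by
    rw [hcar] at hij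
    exact uf i j hij)
  have hedge : ∀ i j, Edge G (i, j) ↔ Edge G' (i, j) := by
    intro i j
    refine ⟨?_, fun ⟨X, hX, h1⟩ => ⟨conjD rc X, (hmem X).1 hX, by
      rw [conjD_apply]
      exact mul_ne_zero (mul_ne_zero (hrc _) h1) (inv_ne_zero (hrc _))⟩⟩
    rintro ⟨X, hX, h1⟩
    refine ⟨conjD (fun k => (rc k)⁻¹) X, ?_, ?_⟩
    · rw [hmem]
      have h2 : conjD rc (conjD (fun k => (rc k)⁻¹) X) = X := by
        ext a b
        rw [conjD_apply, conjD_apply, inv_inv]
        have e5 := hrc a
        have e6 := hrc b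
        field_simp
      rw [h2]
      exact hX
    · rw [conjD_apply]
      exact mul_ne_zero (mul_ne_zero (inv_ne_zero (hrc _)) h1) (inv_ne_zero (inv_ne_zero (hrc _)))
  -- the diagonal matrices which normalise it
  have hcomm : ∀ (ρ : ι → ℂ) (t : ι → ℂ) (X : Matrix ι ι ℂ),
      conjD ρ (Matrix.of fun i j => t i / t j * X i j) =
        Matrix.of fun i j => t i / t j * conjD ρ X i j := by
    intro ρ t X
    ext i j
    rw [conjD_apply, Matrix.of_apply, Matrix.of_apply, conjD_apply]
    ring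
  have hinv : ∀ X : Matrix ι ι ℂ, conjD rc (conjD (fun k => (rc k)⁻¹) X) = X := by
    intro X
    ext a b
    rw [conjD_apply, conjD_apply, inv_inv]
    have e5 := hrc a
    have e6 := hrc b
    field_simp
  have hnrm : ∀ t, Nrm G t ↔ Nrm G' t := by
    intro t
    constructor
    · intro ht X hX
      rw [hmem] at hX ⊢
      rw [hcomm]
      exact ht _ hX
    · intro ht X hX
      have h1 : conjD (fun k => (rc k)⁻¹) X ∈ G' := by
        rw [hmem, hinv]
        exact hX
      have h2 := ht _ h1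
      rw [hmem, hcomm, hinv] at h2
      exact h2
  exact ⟨G', w, hw, hcar, hedge, hnrm⟩

/-- the version of `Tw.quadmixed` for a twist which need not be unitary -/
theorem quadmixed_scaled {om : ι → ℂ} (h0 : ∀ i, om i ≠ 0)
    (lie : ∀ X ∈ G, ∀ Y ∈ G, X * Y - Y * X ∈ G)
    (twist : ∀ X ∈ G, diagonal om * Xᴴ * diagonal (fun i => (om i)⁻¹) ∈ G)
    (cartan : ∀ X ∈ G, (∀ f ∈ Car G, ∀ i j, X i j ≠ 0 → f i = f j) → ∀ i j, i ≠ j → X i j = 0)
    (uf : ∀ i j, (∀ f ∈ Car G, f i = f j) → om i / ‖om i‖ = om j / ‖om j‖)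
    {bar : ι → ι} {E : ι → ι → Prop} (hE : Fine G bar E) (hbar : ∀ i, om i * om (bar i) = 1)
    {Pl : Type} [Fintype Pl] [DecidableEq Pl]
    (pl : ι → Option Pl) (hR : ∀ i, pl i ≠ none ↔ E i (bar i))
    (hpl : ∀ i j s, pl i = some s → pl j = some s → Conn G i j)
    (W : Set (Finset ι)) (hW : ∀ I ∈ W, ∀ f ∈ Car G, ∑ i ∈ I, f i = 0)
    (hbal : ∀ I ∈ W, ∀ d, Skew bar E d → ∑ i ∈ I, d i = 0)
    (hcode : AddSubgroup.closure (parO pl '' W) ≤
      AddSubgroup.closure {v | v ∈ AddSubgroup.closure (parO pl '' W) ∧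
        ∃ S : Finset Pl, (S.card = 2 ∨ S.card = 4) ∧ v = fun s => if s ∈ S then 1 else 0})
    (hθ : ∀ θ : Finset ι, θ.card = 4 →
      (∀ t : ι → ℂ, Gd G t → (∀ I ∈ W, ∏ i ∈ I, t i = 1) → ∏ i ∈ θ, t i = 1) →
      ∏ i ∈ θ, (om i / ‖om i‖) = 1) :
    ∀ I ∈ W, ∏ i ∈ I, (om i / ‖om i‖) = 1 := by
  obtain ⟨G', w, hw, hcar, hedge, hnrm⟩ := exists_scaled_iff h0 lie twist cartan uf
  have hconn : ∀ i j, Conn G i j ↔ Conn G' i j := fun i j =>
    ⟨fun hij => hij.mono hcar fun i j => (hedge i j).1,
      fun hij => hij.mono hcar.symm fun i j => (hedge i j).2⟩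
  have hE' : Fine G' bar E := ⟨hE.equiv, fun i j hij => (hconn i j).1 (hE.conn i j hij), hE.opp,
    hE.bar_bar, by
      rw [hcar]
      exact hE.wt⟩
  have hpair : ∀ i j, om i * om j = 1 → om i / ‖om i‖ * (om j / ‖om j‖) = 1 := by
    intro i j h2
    rw [div_mul_div_comm, h2, ← Complex.ofReal_mul, ← norm_mul, h2, norm_one,
      Complex.ofReal_one, div_one]
  have hu : Gd G' (fun i => om i / ‖om i‖) := by
    refine ⟨hw.u_ne, hw.nrm_u, fun i j hij => ?_, fun i j hij => ?_⟩
    · rw [hcar] at hij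
      exact uf i j hij
    · rw [hcar] at hij
      have h2 : om j / ‖om j‖ = om (bar i) / ‖om (bar i)‖ := uf j (bar i) fun f hf => by
        have a1 := hij f hf
        have a2 := hE.wt i f hf
        linarith
      show om i / ‖om i‖ * (om j / ‖om j‖) = 1
      rw [h2]
      exact hpair i (bar i) (hbar i)
  refine hw.quadmixed hu hE' pl hR
    (fun i j s h1 h2 => (hconn i j).1 (hpl i j s h1 h2)) W ?_ hbal hcode ?_
  · rw [hcar]
    exact hW
  · intro θ hc ht
    refine hθ θ hc fun t hGd hI => ?_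
    refine ht t ⟨hGd.ne, (hnrm t).1 hGd.nrm, ?_, ?_⟩ hI
    · rw [hcar]
      exact hGd.same
    · rw [hcar]
      exact hGd.pair

end Pc0b458L
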