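import Pool.Agent.Lib.Pc0b458L.ListProd
import Pool.Agent.Lib.Pc0b458L.Coroot

/-!
# Diagonal matrices which normalise a twisted Lie algebra

If the diagonal matrix `t` normalises `G` then `t i / t j` depends only on the root, for an edge
`(i, j)`, and `list_ratio` is the version for `t` of `Tw.list_prod`.
-/

namespace Pc0b458L

open Matrix

variable {ι : Type} [Fintype ι] [DecidableEq ι] {G : Submodule ℂ (Matrix ι ι ℂ)} {u : ι → ℂ}
  {w : ι → ℝ}

/-- the diagonal matrix `t` normalises `G` -/
def Nrm (G : Submodule ℂ (Matrix ι ι ℂ)) (t : ι → ℂ) : Prop :=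
  ∀ X ∈ G, (Matrix.of fun i j => t i / t j * X i j) ∈ G

omit [Fintype ι] [DecidableEq ι] in
theorem Nrm.poly_mem {t : ι → ℂ} (h : Nrm G t) {X : Matrix ι ι ℂ} (hX : X ∈ G)
    (p : Polynomial ℂ) : (Matrix.of fun i j => p.eval (t i / t j) * X i j) ∈ G := by
  induction p using Polynomial.induction_on' with
  | add p q hp hq =>
    have h2 : (Matrix.of fun i j => (p + q).eval (t i / t j) * X i j) =
        (Matrix.of fun i j => p.eval (t i / t j) * X i j) +
        (Matrix.of fun i j => q.eval (t i / t j) * X i j) := by
      ext i j
      rw [Matrix.add_apply, Matrix.of_apply, Matrix.of_apply, Matrix.of_apply,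
        Polynomial.eval_add]
      ring
    rw [h2]
    exact G.add_mem hp hq
  | monomial n c =>
    induction n with
    | zero =>
      have h2 : (Matrix.of fun i j =>
          (Polynomial.monomial 0 c).eval (t i / t j) * X i j) = c • X := by
        ext i j
        rw [Matrix.smul_apply, Matrix.of_apply, Polynomial.eval_monomial, pow_zero, mul_one,
          smul_eq_mul]
      rw [h2]
      exact G.smul_mem _ hX
    | succ n ih =>
      have h2 := h _ ih
      have h3 : (Matrix.of fun i j =>
          (Polynomial.monomial (n + 1) c).eval (t i / t j) * X i j) =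
          (Matrix.of fun i j => (t i / t j) *
            (Matrix.of fun i j =>
              (Polynomial.monomial n c).eval (t i / t j) * X i j) i j) := by
        ext i j
        rw [Matrix.of_apply, Matrix.of_apply, Matrix.of_apply, Polynomial.eval_monomial,
          Polynomial.eval_monomial]
        ring
      rw [h3]
      exact h2

/-- the component of `X` on which the ratio of the values of `t` is `c` -/
noncomputable def rcomp (t : ι → ℂ) (c : ℂ) (X : Matrix ι ι ℂ) : Matrix ι ι ℂ :=
  Matrix.of fun i j => if t i / t j = c then X i j else 0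

omit [DecidableEq ι] in
theorem Nrm.comp_mem {t : ι → ℂ} (h : Nrm G t) {X : Matrix ι ι ℂ} (hX : X ∈ G) (c : ℂ) :
    rcomp t c X ∈ G := by
  classical
  let S : Finset ℂ := (Finset.univ.image fun p : ι × ι => t p.1 / t p.2).erase c
  let p : Polynomial ℂ := ∏ d ∈ S, (Polynomial.C ((c - d)⁻¹) * (Polynomial.X - Polynomial.C d))
  have hp : ∀ x : ℂ, p.eval x = ∏ d ∈ S, ((c - d)⁻¹ * (x - d)) := by
    intro x
    simp only [p, Polynomial.eval_prod, Polynomial.eval_mul, Polynomial.eval_C,
      Polynomial.eval_sub, Polynomial.eval_X]
  have hc : p.eval c = 1 := by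
    rw [hp]
    apply Finset.prod_eq_one
    intro d hd
    have hne : c - d ≠ 0 := fun h0 => (Finset.ne_of_mem_erase hd) (sub_eq_zero.1 h0).symm
    exact inv_mul_cancel₀ hne
  have h0 : ∀ x ∈ S, p.eval x = 0 := by
    intro x hx
    rw [hp]
    apply Finset.prod_eq_zero hx
    rw [sub_self, mul_zero]
  have h1 := h.poly_mem hX p
  have h2 : (Matrix.of fun i j => p.eval (t i / t j) * X i j) = rcomp t c X := by
    ext i j
    rw [rcomp, Matrix.of_apply, Matrix.of_apply]
    split_ifs with hij
    · rw [hij, hc, one_mul]
    · rw [h0, zero_mul]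
      simp only [S, Finset.mem_erase, Finset.mem_image, Finset.mem_univ, true_and]
      exact ⟨hij, (i, j), rfl⟩
  rw [← h2]
  exact h1

/-- on edges the ratio depends only on the root -/
theorem Tw.ratio (h : Tw G u w) {t : ι → ℂ} (ht : Nrm G t) {e e' : ι × ι} (he : Edge G e)
    (he' : Edge G e') (hne : w e.1 - w e.2 ≠ 0) (hw : w e'.1 - w e'.2 = w e.1 - w e.2) :
    t e.1 / t e.2 = t e'.1 / t e'.2 := by
  obtain ⟨X0, hX0, hX0s, hX0e⟩ := h.edge_comp he
  obtain ⟨Z0, hZ0, hZ0s, hZ0e⟩ := h.edge_comp he'
  by_contra hcc
  let X := rcomp t (t e.1 / t e.2) X0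
  let Z := rcomp t (t e'.1 / t e'.2) Z0
  have hX : X ∈ G := ht.comp_mem hX0 _
  have hZ : Z ∈ G := ht.comp_mem hZ0 _
  have hXr : ∀ i j, X i j ≠ 0 → t i / t j = t e.1 / t e.2 ∧ w i - w j = w e.1 - w e.2 := by
    intro i j hij
    by_cases h1 : t i / t j = t e.1 / t e.2
    · refine ⟨h1, hX0s i j ?_⟩
      have : X i j = X0 i j := if_pos h1
      rwa [← this]
    · exact absurd (if_neg h1) hij
  have hZr : ∀ i j, Z i j ≠ 0 → t i / t j = t e'.1 / t e'.2 ∧ w i - w j = w e.1 - w e.2 := by
    intro i j hij
    by_cases h1 : t i / t j = t e'.1 / t e'.2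
    · refine ⟨h1, ?_⟩
      rw [← hw]
      apply hZ0s i j
      have : Z i j = Z0 i j := if_pos h1
      rwa [← this]
    · exact absurd (if_neg h1) hij
  have hXe : X e.1 e.2 ≠ 0 := by
    have : X e.1 e.2 = X0 e.1 e.2 := if_pos rfl
    rwa [this]
  have hZe : Z e'.1 e'.2 ≠ 0 := by
    have : Z e'.1 e'.2 = Z0 e'.1 e'.2 := if_pos rfl
    rwa [this]
  have hXs : Sup w (w e.1 - w e.2) X := fun i j hij => (hXr i j hij).2
  have hBG : Xᴴ * Z - Z * Xᴴ ∈ G := h.lie _ (h.star hX) _ hZ
  have hB : Xᴴ * Z - Z * Xᴴ = 0 := by
    have h1 := h.diag _ hBG (by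
      intro i j hij
      by_contra hwij
      apply hij
      rw [Matrix.sub_apply, Matrix.mul_apply, Matrix.mul_apply, Finset.sum_eq_zero,
        Finset.sum_eq_zero, sub_zero]
      · intro m _
        by_cases h1 : Z i m = 0
        · rw [h1, zero_mul]
        · by_cases h2 : X j m = 0
          · rw [conjTranspose_apply, h2, star_zero, mul_zero]
          · have a1 := (hZr i m h1).2
            have a2 := (hXr j m h2).2
            exact absurd (by linarith) hwij
      · intro m _
        by_cases h1 : Z m j = 0
        · rw [h1, mul_zero]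
        · by_cases h2 : X m i = 0
          · rw [conjTranspose_apply, h2, star_zero, zero_mul]
          · have a1 := (hZr m j h1).2
            have a2 := (hXr m i h2).2
            exact absurd (by linarith) hwij)
    ext i j
    rw [Matrix.zero_apply]
    by_cases hij : i = j
    · subst hij
      rw [Matrix.sub_apply, Matrix.mul_apply, Matrix.mul_apply, Finset.sum_eq_zero,
        Finset.sum_eq_zero, sub_zero]
      · intro m _
        by_cases h1 : Z i m = 0
        · rw [h1, zero_mul]
        · by_cases h2 : X i m = 0
          · rw [conjTranspose_apply, h2, star_zero, mul_zero]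
          · exact absurd ((hXr i m h2).1.symm.trans (hZr i m h1).1) hcc
      · intro m _
        by_cases h1 : Z m i = 0
        · rw [h1, mul_zero]
        · by_cases h2 : X m i = 0
          · rw [conjTranspose_apply, h2, star_zero, zero_mul]
          · exact absurd ((hXr m i h2).1.symm.trans (hZr m i h1).1) hcc
    · exact h1 i j hij
  obtain ⟨q, hq, hqb, κ, hκ, hX1⟩ := h.coroot hX hne hXs (ne_zero_of_entry hXe)
  have h1 := trace_bracket X Z
  rw [hB, hX1] at h1
  simp only [Matrix.zero_mul, trace_zero, zero_sub] at h1
  have hqq : 0 < ∑ k, q k * q k := by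
    have h2 : 0 ≤ ∑ k, q k * q k := Finset.sum_nonneg fun k _ => mul_self_nonneg _
    rcases h2.lt_or_eq with h3 | h3
    · exact h3
    · exfalso
      have h4 : ∀ k, q k = 0 := fun k => by
        have := (Finset.sum_eq_zero_iff_of_nonneg
          (fun k _ => mul_self_nonneg (q k))).mp h3.symm k (Finset.mem_univ k)
        exact mul_self_eq_zero.mp this
      have h5 := hqb w h.mem e.1 e.2 rfl
      simp only [h4, mul_zero, Finset.sum_const_zero] at h5
      exact hne h5.symm
  have h2 : diagonal (fun i => ((κ * q i : ℝ) : ℂ)) * Z - Z * diagonal (fun i => ((κ * q i : ℝ) : ℂ))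
      = ((κ * ∑ k, q k * q k : ℝ) : ℂ) • Z := by
    ext i j
    rw [Matrix.sub_apply, diagonal_mul, mul_diagonal, Matrix.smul_apply, smul_eq_mul]
    by_cases h3 : Z i j = 0
    · simp [h3]
    · have h4 := hqb q hq i j (hZr i j h3).2
      rw [h4]
      push_cast
      ring
  rw [h2, Matrix.smul_mul, trace_smul, smul_eq_mul] at h1
  have h3 := trace_nonneg (X * Z - Z * X)
  have h4 := trace_pos (ne_zero_of_entry hZe)
  have h5 : 0 < κ * ∑ k, q k * q k := mul_pos hκ hqq
  have h6 := congrArg Complex.re h1
  rw [Complex.neg_re, Complex.re_ofReal_mul] at h6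
  have h7 := mul_pos h5 h4
  linarith

/-- a list of edges whose roots have sum zero -/
theorem Tw.list_ratio (h : Tw G u w) {t : ι → ℂ} (ht0 : ∀ i, t i ≠ 0) (ht : Nrm G t)
    (hs : ∀ i j, w i = w j → t i = t j) (l : List (ι × ι)) (hl : ∀ e ∈ l, Edge G e)
    (h0 : ∀ f ∈ Car G, (l.map fun e => f e.1 - f e.2).sum = 0) :
    (l.map fun e => t e.1 / t e.2).prod = 1 := by
  classical
  induction hn : l.length using Nat.strong_induction_on generalizing l with
  | _ n ih =>
    match l, hl, h0, hn with
    | [], _, _, _ => simp
    | e :: l', hl, h0, hn =>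
      by_cases hd : w e.1 - w e.2 = 0
      · have hu : t e.1 / t e.2 = 1 := by
          rw [hs e.1 e.2 (sub_eq_zero.mp hd)]
          exact div_self (ht0 _)
        have := ih l'.length (by simp [← hn]) l' (fun x hx => hl x (List.mem_cons_of_mem _ hx))
          (fun f hf => by
            have h1 := h0 f hf
            rw [List.map_cons, List.sum_cons] at h1
            have h2 : f e.1 - f e.2 = 0 := by
              have := h.gen f hf e.1 e.2 e.1 e.1 (by rw [hd, sub_self])
              rwa [sub_self] at this
            rwa [h2, zero_add] at h1) rfl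
        rw [List.map_cons, List.prod_cons, hu, one_mul, this]
      · obtain ⟨q, hq, hqb⟩ := h.edge_coroot (hl e List.mem_cons_self)
        -- some other edge has a negative scalar product with the first one
        have hpos : 0 < q e.1 - q e.2 := by
          have h1 := hqb q hq e.1 e.2 rfl
          rw [← h1]
          have h2 : 0 ≤ ∑ k, q k * q k := Finset.sum_nonneg fun k _ => mul_self_nonneg _
          rcases h2.lt_or_eq with h3 | h3
          · exact h3
          · exfalso
            have h4 : ∀ k, q k = 0 := fun k => by
              have := (Finset.sum_eq_zero_iff_of_nonneg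
                (fun k _ => mul_self_nonneg (q k))).mp h3.symm k (Finset.mem_univ k)
              exact mul_self_eq_zero.mp this
            have h5 := hqb w h.mem e.1 e.2 rfl
            simp only [h4, mul_zero, Finset.sum_const_zero] at h5
            exact hd h5.symm
        have hex : ∃ e' ∈ l', q e'.1 - q e'.2 < 0 := by
          by_contra hc
          push Not at hc
          have h1 := h0 q hq
          rw [List.map_cons, List.sum_cons] at h1
          have h2 : 0 ≤ (l'.map fun e => q e.1 - q e.2).sum := by
            apply List.sum_nonneg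
            intro x hx
            obtain ⟨y, hy, rfl⟩ := List.mem_map.mp hx
            exact hc y hy
          linarith
        obtain ⟨e', he', hneg⟩ := hex
        have hd' : w e'.1 - w e'.2 ≠ 0 := by
          intro hz
          have := h.gen q hq e'.1 e'.2 e'.1 e'.1 (by rw [hz, sub_self])
          rw [sub_self] at this
          rw [this] at hneg
          exact lt_irrefl _ hneg
        have heE := hl e List.mem_cons_self
        have heE' := hl e' (List.mem_cons_of_mem _ he')
        obtain ⟨s, hsC, hsb⟩ := h.edge_coroot heE'
        obtain ⟨X, hX, hXs, hXne⟩ := h.edge_comp heE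
        obtain ⟨Z, hZ, hZs, hZne⟩ := h.edge_comp heE'
        have hsc : ∑ k, q k * s k < 0 := by
          rw [hsb q hq e'.1 e'.2 rfl]
          exact hneg
        have hY := h.bracket hX hZ hd hd' hXs hZs (ne_zero_of_entry hXne) (ne_zero_of_entry hZne)
          hq hsC hqb hsb hsc
        have hYG := h.lie X hX Z hZ
        have hc : ∀ i j, X i j ≠ 0 → t i / t j = t e.1 / t e.2 := fun i j hij =>
          (h.ratio (e' := (i, j)) ht heE ⟨X, hX, hij⟩ hd (hXs i j hij)).symm
        have hc' : ∀ i j, Z i j ≠ 0 → t i / t j = t e'.1 / t e'.2 := fun i j hij =>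
          (h.ratio (e' := (i, j)) ht heE' ⟨Z, hZ, hij⟩ hd' (hZs i j hij)).symm
        -- an entry of the bracket
        obtain ⟨i, j, hij⟩ : ∃ i j, (X * Z - Z * X) i j ≠ 0 := by
          by_contra hcon
          push Not at hcon
          exact hY (by ext i j; exact hcon i j)
        have hkey : (∀ f ∈ Car G, f i - f j = (f e.1 - f e.2) + (f e'.1 - f e'.2)) ∧
            t i / t j = (t e.1 / t e.2) * (t e'.1 / t e'.2) := by
          have hcases : (∃ m, X i m ≠ 0 ∧ Z m j ≠ 0) ∨ (∃ m, Z i m ≠ 0 ∧ X m j ≠ 0) := by
            by_contra hcon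
            push Not at hcon
            apply hij
            rw [Matrix.sub_apply, Matrix.mul_apply, Matrix.mul_apply]
            rw [Finset.sum_eq_zero, Finset.sum_eq_zero, sub_zero]
            · intro m _
              by_cases h1 : Z i m = 0
              · rw [h1, zero_mul]
              · rw [hcon.2 m h1, mul_zero]
            · intro m _
              by_cases h1 : X i m = 0
              · rw [h1, zero_mul]
              · rw [hcon.1 m h1, mul_zero]
          rcases hcases with ⟨m, h1, h2⟩ | ⟨m, h1, h2⟩
          · have a1 := hXs i m h1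
            have a2 := hZs m j h2
            refine ⟨fun f hf => ?_, ?_⟩
            · have b1 := h.gen f hf i m e.1 e.2 a1
              have b2 := h.gen f hf m j e'.1 e'.2 a2
              linarith
            · rw [← hc i m h1, ← hc' m j h2, div_mul_div_cancel₀ (ht0 m)]
          · have a1 := hZs i m h1
            have a2 := hXs m j h2
            refine ⟨fun f hf => ?_, ?_⟩
            · have b1 := h.gen f hf i m e'.1 e'.2 a1
              have b2 := h.gen f hf m j e.1 e.2 a2
              linarith
            · rw [← hc' i m h1, ← hc m j h2, mul_comm, div_mul_div_cancel₀ (ht0 m)]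
        have hperm := List.perm_cons_erase he'
        have hlen : (l'.erase e').length + 1 = l'.length := by
          rw [hperm.length_eq, List.length_cons]
        have hih := ih ((i, j) :: l'.erase e').length (by
            rw [List.length_cons, hlen, ← hn, List.length_cons]
            exact Nat.lt_succ_self _) ((i, j) :: l'.erase e')
          (fun x hx => by
            rcases List.mem_cons.mp hx with rfl | hx
            · exact ⟨_, hYG, hij⟩
            · exact hl x (List.mem_cons_of_mem _ (List.mem_of_mem_erase hx)))
          (fun f hf => by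
            have h1 := h0 f hf
            rw [List.map_cons, List.sum_cons, (hperm.map _).sum_eq, List.map_cons,
              List.sum_cons] at h1
            rw [List.map_cons, List.sum_cons]
            show f i - f j + _ = 0
            rw [hkey.1 f hf]
            linarith) rfl
        rw [List.map_cons, List.prod_cons] at hih
        rw [List.map_cons, List.prod_cons, (hperm.map _).prod_eq, List.map_cons, List.prod_cons,
          ← mul_assoc, ← hkey.2]
        exact hih

/-- the twist normalises `G` -/
theorem Tw.nrm_u (h : Tw G u w) : Nrm G u := by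
  intro X hX
  have h1 := h.twist _ (h.star hX)
  have h2 : (Matrix.of fun i j => u i / u j * X i j) =
      diagonal u * Xᴴᴴ * diagonal (fun i => (u i)⁻¹) := by
    ext i j
    rw [Matrix.of_apply, Matrix.mul_diagonal, Matrix.diagonal_mul, conjTranspose_conjTranspose]
    ring
  rw [h2]
  exact h1

end Pc0b458L
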