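import Pool.Agent.Lib.Pc0b458L.MainG
import Pool.Agent.Lib.Pc0b458L.Quad1
import Pool.Agent.Lib.Pc0b458L.Ratio

/-!
# Sets of indices on which the central elements are trivial

`T` is a set of relations: vectors of integers which are orthogonal to the diagonal elements, and
such that every unitary diagonal matrix which satisfies the relations normalises `G`. If all central
unitary diagonal matrices which satisfy the relations are trivial on the sequence `i` of indices,
then there is a sequence `i'` of indices connected to those of `i` which is a combination of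
relations.
-/

open Finset

namespace Pc0b458L

open Matrix

variable {ι : Type} [Fintype ι] [DecidableEq ι] {G : Submodule ℂ (Matrix ι ι ℂ)} {u : ι → ℂ}
  {w : ι → ℝ}

/-- a vector on which all unitary solutions of the relations are trivial is a combination of the
relations -/
theorem mem_closure_of_circle {R : Set (ι → ℤ)} {x : ι → ℤ}
    (hfix : ∀ t : ι → ℂ, (∀ i, ‖t i‖ = 1) → (∀ y ∈ R, ∏ i, t i ^ y i = 1) →
      ∏ i, t i ^ x i = 1) : x ∈ AddSubgroup.closure R := by
  by_contra hcon
  have h1 : (QuotientAddGroup.mk' (AddSubgroup.closure R) x) ≠ 0 := by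
    intro h
    exact hcon ((QuotientAddGroup.eq_zero_iff x).1 h)
  obtain ⟨χ, hχ⟩ := exists_sep h1
  let φ : (ι → ℤ) →+ Additive Circle := χ.comp (QuotientAddGroup.mk' _)
  have hφ : ∀ y ∈ R, φ y = 0 := by
    intro y hy
    have : (QuotientAddGroup.mk' (AddSubgroup.closure R) y) = 0 :=
      (QuotientAddGroup.eq_zero_iff y).2 (AddSubgroup.subset_closure hy)
    show χ (QuotientAddGroup.mk' _ y) = 0
    rw [this, map_zero]
  let z : ι → Circle := fun i => (φ (Pi.single i 1)).toMul
  have hval : ∀ y : ι → ℤ, (φ y).toMul = ∏ i, z i ^ y i := by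
    intro y
    have h2 : y = ∑ s, y s • (Pi.single s 1 : ι → ℤ) := by
      funext t
      rw [Finset.sum_apply]
      simp [Pi.single_apply]
    have h3 : φ y = ∑ s, y s • φ (Pi.single s 1) := by
      conv_lhs => rw [h2]
      rw [map_sum]
      exact Finset.sum_congr rfl fun s _ => map_zsmul φ _ _
    rw [h3, toMul_sum]
    rfl
  have key := hfix (fun i => (z i : ℂ)) (fun i => Circle.norm_coe _) ?_
  · apply hχ
    have h4 : (φ x).toMul = 1 := by
      rw [hval]
      apply Circle.ext
      rw [Circle.coe_one, ← key]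
      rw [← Circle.coeHom_apply, map_prod]
      simp only [map_zpow, Circle.coeHom_apply]
    have h5 : φ x = 0 := Additive.toMul.injective h4
    exact h5
  · intro y hy
    have h4 := hφ y hy
    have h5 : ∏ i, z i ^ y i = 1 := by
      rw [← hval, h4]
      rfl
    have h6 := congrArg (fun y : Circle => (y : ℂ)) h5
    simp only [Circle.coe_one] at h6
    rw [← Circle.coeHom_apply, map_prod] at h6
    simpa only [map_zpow, Circle.coeHom_apply] using h6

omit [DecidableEq ι] in
theorem prod_zpow_add {t : ι → ℂ} (ht : ∀ i, t i ≠ 0) (x y : ι → ℤ) :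
    ∏ i, t i ^ (x + y) i = (∏ i, t i ^ x i) * ∏ i, t i ^ y i := by
  rw [← Finset.prod_mul_distrib]
  exact Finset.prod_congr rfl fun i _ => zpow_add₀ (ht i) _ _

omit [DecidableEq ι] in
theorem prod_zpow_neg (t : ι → ℂ) (x : ι → ℤ) :
    ∏ i, t i ^ (-x) i = (∏ i, t i ^ x i)⁻¹ := by
  rw [← Finset.prod_inv_distrib]
  exact Finset.prod_congr rfl fun i _ => zpow_neg _ _

theorem prod_zpow_single (t : ι → ℂ) (i : ι) :
    ∏ j, t j ^ (Pi.single i 1 : ι → ℤ) j = t i := by
  rw [Finset.prod_eq_single i]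
  · simp
  · intro j _ hj
    simp [Pi.single_eq_of_ne hj]
  · simp

theorem prod_zpow_sum {t : ι → ℂ} (ht : ∀ i, t i ≠ 0) {m : ℕ} (a : Fin m → ι) :
    ∏ j, t j ^ (∑ k, (Pi.single (a k) 1 : ι → ℤ)) j = ∏ k, t (a k) := by
  induction m with
  | zero => simp
  | succ m ih =>
    rw [Fin.sum_univ_succ, Fin.prod_univ_succ, prod_zpow_add ht, prod_zpow_single,
      ih fun k => a k.succ]

omit [DecidableEq ι] in
theorem kill_closure {t : ι → ℂ} (ht : ∀ i, t i ≠ 0) {R : Set (ι → ℤ)}
    (hR : ∀ y ∈ R, ∏ i, t i ^ y i = 1) {x : ι → ℤ} (hx : x ∈ AddSubgroup.closure R) :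
    ∏ i, t i ^ x i = 1 := by
  induction hx using AddSubgroup.closure_induction with
  | mem y hy => exact hR y hy
  | zero => simp
  | add y y' _ _ h1 h2 => rw [prod_zpow_add ht, h1, h2, one_mul]
  | neg y _ h1 => rw [prod_zpow_neg, h1, inv_one]

/-- the value of a real function on a vector of integers -/
def pair (f : ι → ℝ) : (ι → ℤ) →+ ℝ where
  toFun x := ∑ i, (x i : ℝ) * f i
  map_zero' := by simp
  map_add' x y := by
    simp only [Pi.add_apply, Int.cast_add, add_mul]
    rw [Finset.sum_add_distrib]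

omit [DecidableEq ι] in
theorem pair_apply (f : ι → ℝ) (x : ι → ℤ) : pair f x = ∑ i, (x i : ℝ) * f i := rfl

theorem pair_single (f : ι → ℝ) (i : ι) : pair f (Pi.single i 1) = f i := by
  rw [pair_apply, Finset.sum_eq_single i]
  · simp
  · intro j _ hj
    simp [Pi.single_eq_of_ne hj]
  · simp

omit [DecidableEq ι] in
theorem null_closure {f : ι → ℝ} {R : Set (ι → ℤ)} (hR : ∀ y ∈ R, pair f y = 0) {x : ι → ℤ}
    (hx : x ∈ AddSubgroup.closure R) : pair f x = 0 := by
  induction hx using AddSubgroup.closure_induction with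
  | mem y hy => exact hR y hy
  | zero => exact map_zero _
  | add y y' _ _ h1 h2 => rw [map_add, h1, h2, add_zero]
  | neg y _ h1 => rw [map_neg, h1, neg_zero]

/-- the vector of an edge -/
def vec (e : ι × ι) : ι → ℤ := Pi.single e.1 1 - Pi.single e.2 1

theorem pair_vec (f : ι → ℝ) (e : ι × ι) : pair f (vec e) = f e.1 - f e.2 := by
  rw [vec, map_sub, pair_single, pair_single]

theorem pair_list (f : ι → ℝ) (l : List (ι × ι)) :
    pair f (l.map vec).sum = (l.map fun e => f e.1 - f e.2).sum := by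
  induction l with
  | nil => simp
  | cons e l ih => rw [List.map_cons, List.sum_cons, map_add, ih, pair_vec, List.map_cons,
      List.sum_cons]

theorem prod_vec {t : ι → ℂ} (ht : ∀ i, t i ≠ 0) (e : ι × ι) :
    ∏ i, t i ^ (vec e) i = t e.1 / t e.2 := by
  rw [vec, sub_eq_add_neg, prod_zpow_add ht, prod_zpow_neg, prod_zpow_single, prod_zpow_single,
    div_eq_mul_inv]

theorem prod_list {t : ι → ℂ} (ht : ∀ i, t i ≠ 0) (l : List (ι × ι)) :
    ∏ i, t i ^ (l.map vec).sum i = (l.map fun e => t e.1 / t e.2).prod := by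
  induction l with
  | nil => simp
  | cons e l ih => rw [List.map_cons, List.sum_cons, prod_zpow_add ht, ih, prod_vec ht,
      List.map_cons, List.prod_cons]

/-- the vectors of the edges -/
def edgeSet (G : Submodule ℂ (Matrix ι ι ℂ)) : Set (ι → ℤ) := {x | ∃ e, Edge G e ∧ x = vec e}

theorem Tw.closure_edge (h : Tw G u w) {x : ι → ℤ} (hx : x ∈ AddSubgroup.closure (edgeSet G)) :
    ∃ l : List (ι × ι), (∀ e ∈ l, Edge G e) ∧ x = (l.map vec).sum := by
  induction hx using AddSubgroup.closure_induction with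
  | mem y hy =>
    obtain ⟨e, he, rfl⟩ := hy
    exact ⟨[e], by simpa using he, by simp⟩
  | zero => exact ⟨[], by simp, by simp⟩
  | add y y' _ _ h1 h2 =>
    obtain ⟨l, hl, rfl⟩ := h1
    obtain ⟨l', hl', rfl⟩ := h2
    refine ⟨l ++ l', ?_, by rw [List.map_append, List.sum_append]⟩
    intro e he
    rcases List.mem_append.1 he with h3 | h3
    · exact hl e h3
    · exact hl' e h3
  | neg y hy h1 =>
    clear hy
    obtain ⟨l, hl, rfl⟩ := h1
    refine ⟨l.map Prod.swap, ?_, ?_⟩
    · intro e he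
      obtain ⟨e', he', rfl⟩ := List.mem_map.1 he
      exact h.edge_rev (hl e' he')
    · clear hl
      induction l with
      | nil => simp
      | cons e l ih =>
        rw [List.map_cons, List.map_cons, List.map_cons, List.sum_cons, List.sum_cons, ← ih,
          neg_add]
        congr 1
        rw [vec, vec, Prod.fst_swap, Prod.snd_swap, neg_sub]

/-- a combination of edges and relations -/
theorem Tw.closure_union (h : Tw G u w) {T : Set (ι → ℤ)} {x : ι → ℤ}
    (hx : x ∈ AddSubgroup.closure (edgeSet G ∪ T)) :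
    ∃ l : List (ι × ι), (∀ e ∈ l, Edge G e) ∧ ∃ y ∈ AddSubgroup.closure T,
      x = (l.map vec).sum + y := by
  rw [AddSubgroup.closure_union, AddSubgroup.mem_sup] at hx
  obtain ⟨a, ha, y, hy, rfl⟩ := hx
  obtain ⟨l, hl, rfl⟩ := h.closure_edge ha
  exact ⟨l, hl, y, hy, rfl⟩

omit [Fintype ι] in
theorem conn_mem {T : Set (ι → ℤ)}
    (he : ∀ i j, (∀ f ∈ Car G, f i = f j) → (Pi.single i 1 - Pi.single j 1 : ι → ℤ) ∈ T)
    {i j : ι} (hij : Conn G i j) :
    (Pi.single i 1 - Pi.single j 1 : ι → ℤ) ∈ AddSubgroup.closure (edgeSet G ∪ T) := by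
  induction hij with
  | rel i j hij =>
    apply AddSubgroup.subset_closure
    rcases hij with hij | hij
    · exact Or.inl ⟨(i, j), hij, rfl⟩
    · exact Or.inr (he i j hij)
  | refl i =>
    rw [sub_self]
    exact AddSubgroup.zero_mem _
  | symm i j _ ih =>
    have h1 := AddSubgroup.neg_mem _ ih
    rwa [neg_sub] at h1
  | trans i j k _ _ ih1 ih2 =>
    have h1 := AddSubgroup.add_mem _ ih1 ih2
    rwa [sub_add_sub_cancel] at h1

/-- If the central unitary solutions of the relations are trivial on the sequence `i` of indices then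
a sequence of indices which are connected to those of `i` is a combination of relations. -/
theorem Tw.relCore (h : Tw G u w) (T : Set (ι → ℤ))
    (hT0 : ∀ x ∈ T, ∀ f ∈ Car G, ∑ i, (x i : ℝ) * f i = 0)
    (he : ∀ i j, (∀ f ∈ Car G, f i = f j) → (Pi.single i 1 - Pi.single j 1 : ι → ℤ) ∈ T)
    (hn : ∀ t : ι → ℂ, (∀ i, ‖t i‖ = 1) → (∀ x ∈ T, ∏ i, t i ^ x i = 1) → Nrm G t)
    {m : ℕ} (a : Fin m → ι)
    (hz : ∀ z : ι → ℂ, (∀ i, ‖z i‖ = 1) → (∀ i j, Edge G (i, j) → z i = z j) →
      (∀ i j, (∀ f ∈ Car G, f i = f j) → z i = z j) → (∀ x ∈ T, ∏ i, z i ^ x i = 1) →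
      ∏ k, z (a k) = 1) :
    ∃ b : Fin m → ι, (∀ k, Conn G (a k) (b k)) ∧ (∀ f ∈ Car G, ∑ k, f (b k) = 0) ∧
      (∑ k, (Pi.single (b k) 1 : ι → ℤ)) ∈ AddSubgroup.closure T := by
  have hne : ∀ t : ι → ℂ, (∀ i, ‖t i‖ = 1) → ∀ i, t i ≠ 0 := by
    intro t ht i h0
    have := ht i
    rw [h0, norm_zero] at this
    exact zero_ne_one this
  have hsame : ∀ t : ι → ℂ, (∀ i, ‖t i‖ = 1) → (∀ x ∈ T, ∏ i, t i ^ x i = 1) →
      ∀ i j, (∀ f ∈ Car G, f i = f j) → t i = t j := by
    intro t ht hT i j hij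
    have h1 := hT _ (he i j hij)
    have h2 := prod_vec (hne t ht) (i, j)
    rw [vec] at h2
    rw [h2] at h1
    exact (div_eq_one_iff_eq (hne t ht j)).1 h1
  -- the sequence is a combination of edges and relations
  have h1 : (∑ k, (Pi.single (a k) 1 : ι → ℤ)) ∈ AddSubgroup.closure (edgeSet G ∪ T) := by
    apply mem_closure_of_circle
    intro t ht hkill
    rw [prod_zpow_sum (hne t ht)]
    refine hz t ht ?_ (hsame t ht fun x hx => hkill x (Or.inr hx)) fun x hx => hkill x (Or.inr hx)
    intro i j hij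
    have h2 := hkill (vec (i, j)) (Or.inl ⟨(i, j), hij, rfl⟩)
    rw [prod_vec (hne t ht)] at h2
    exact (div_eq_one_iff_eq (hne t ht j)).1 h2
  have hT0' : ∀ f ∈ Car G, ∀ y ∈ AddSubgroup.closure T, pair f y = 0 := fun f hf y hy =>
    null_closure (fun y hy => hT0 y hy f hf) hy
  have hps : ∀ (f : ι → ℝ) (c : Fin m → ι),
      pair f (∑ k, (Pi.single (c k) 1 : ι → ℤ)) = ∑ k, f (c k) := by
    intro f c
    rw [map_sum]
    exact Finset.sum_congr rfl fun k _ => pair_single f _
  obtain ⟨l, hl, y, hy, hly⟩ := h.closure_union h1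
  obtain ⟨b, hb, hb0⟩ := h.zero_sum_list l hl a (fun f hf => by
    rw [← hps, hly, map_add, pair_list, hT0' f hf y hy, add_zero])
  refine ⟨b, hb, hb0, ?_⟩
  -- duality
  apply mem_closure_of_circle
  intro t ht hkill
  have h2 : (∑ k, (Pi.single (b k) 1 : ι → ℤ)) ∈ AddSubgroup.closure (edgeSet G ∪ T) := by
    have h3 : (∑ k, (Pi.single (b k) 1 : ι → ℤ)) = (∑ k, (Pi.single (a k) 1 : ι → ℤ)) -
        ∑ k, (Pi.single (a k) 1 - Pi.single (b k) 1 : ι → ℤ) := by
      rw [Finset.sum_sub_distrib]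
      abel
    rw [h3]
    exact AddSubgroup.sub_mem _ h1 (AddSubgroup.sum_mem _ fun k _ => conn_mem he (hb k))
  obtain ⟨l', hl', y', hy', hly'⟩ := h.closure_union h2
  rw [hly', prod_zpow_add (hne t ht), kill_closure (hne t ht) hkill hy', mul_one,
    prod_list (hne t ht)]
  apply h.list_ratio (hne t ht) (hn t ht hkill) _ l' hl'
  · intro f hf
    rw [← pair_list]
    have h3 := congrArg (pair f) hly'
    rw [hps, hb0 f hf, map_add, hT0' f hf y' hy', add_zero] at h3
    exact h3.symm
  · intro i j hij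
    apply hsame t ht hkill
    intro f hf
    have h3 := h.gen f hf i j j j (by rw [hij])
    linarith

end Pc0b458L
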