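import Pool.Agent.Lib.Pc0b458L.Scale0
import Pool.Agent.Lib.Pc0b458L.ScaleR
import Pool.Agent.Lib.Pc0b458L.CoreL

/-!
# Sets of indices on which the central elements are trivial: the version without unitary twist
-/

open Finset

namespace Pc0b458L

open Matrix

variable {ι : Type} [Fintype ι] [DecidableEq ι] {G : Submodule ℂ (Matrix ι ι ℂ)}

/-- A Lie algebra of matrices with a twist by a diagonal matrix which need not be unitary is
conjugate, by a diagonal matrix, to one with a unitary twist, with the same edges and the same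
diagonal matrices in the normaliser. -/
theorem exists_scaled_full {om : ι → ℂ} (h0 : ∀ i, om i ≠ 0)
    (lie : ∀ X ∈ G, ∀ Y ∈ G, X * Y - Y * X ∈ G)
    (twist : ∀ X ∈ G, diagonal om * Xᴴ * diagonal (fun i => (om i)⁻¹) ∈ G)
    (cartan : ∀ X ∈ G, (∀ f ∈ Car G, ∀ i j, X i j ≠ 0 → f i = f j) → ∀ i j, i ≠ j → X i j = 0)
    (uf : ∀ i j, (∀ f ∈ Car G, f i = f j) → om i / ‖om i‖ = om j / ‖om j‖) :
    ∃ (G' : Submodule ℂ (Matrix ι ι ℂ)) (w : ι → ℝ), Tw G' (fun i => om i / ‖om i‖) w ∧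
      Car G' = Car G ∧ (∀ i j, Edge G (i, j) ↔ Edge G' (i, j)) ∧ ∀ t, Nrm G t ↔ Nrm G' t := by
  let ρ : ι → ℝ := fun i => Real.sqrt ‖om i‖
  have hρ0 : ∀ i, 0 < ρ i := fun i => Real.sqrt_pos.2 (norm_pos_iff.2 (h0 i))
  have hρ2 : ∀ i, ρ i * ρ i = ‖om i‖ := fun i => Real.mul_self_sqrt (norm_nonneg _)
  let rc : ι → ℂ := fun i => (ρ i : ℂ)
  have hrc : ∀ i, rc i ≠ 0 := fun i => Complex.ofReal_ne_zero.2 (hρ0 i).ne'
  have hrc2 : ∀ i, rc i * rc i = (‖om i‖ : ℂ) := fun i => by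
    rw [← hρ2 i, Complex.ofReal_mul]
  have hn : ∀ i, ((‖om i‖ : ℝ) : ℂ) ≠ 0 := fun i =>
    Complex.ofReal_ne_zero.2 (norm_ne_zero_iff.2 (h0 i))
  let u : ι → ℂ := fun i => om i / ‖om i‖
  let G' : Submodule ℂ (Matrix ι ι ℂ) := G.comap (conjD rc)
  have hmem : ∀ X, X ∈ G' ↔ conjD rc X ∈ G := fun X => Submodule.mem_comap
  have hcar : Car G' = Car G := by
    ext f
    change diagonal (fun i => (f i : ℂ)) ∈ G' ↔ diagonal (fun i => (f i : ℂ)) ∈ G
    rw [hmem, conjD_diagonal hrc]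
  have hlie : ∀ X ∈ G', ∀ Y ∈ G', X * Y - Y * X ∈ G' := by
    intro X hX Y hY
    rw [hmem] at hX hY ⊢
    rw [map_sub, conjD_mul hrc, conjD_mul hrc]
    exact lie _ hX _ hY
  have hunit : ∀ i, ‖u i‖ = 1 := by
    intro i
    change ‖om i / ‖om i‖‖ = 1
    rw [norm_div, Complex.norm_real, norm_norm, div_self (norm_ne_zero_iff.2 (h0 i))]
  have htwist : ∀ X ∈ G', diagonal u * Xᴴ * diagonal (fun i => (u i)⁻¹) ∈ G' := by
    intro X hX
    rw [hmem] at hX ⊢
    have h1 := twist _ hX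
    have h2 : conjD rc (diagonal u * Xᴴ * diagonal (fun i => (u i)⁻¹)) =
        diagonal om * (conjD rc X)ᴴ * diagonal (fun i => (om i)⁻¹) := by
      ext i j
      rw [conjD_apply, Matrix.mul_diagonal, Matrix.diagonal_mul, Matrix.mul_diagonal,
        Matrix.diagonal_mul, Matrix.conjTranspose_apply, Matrix.conjTranspose_apply, conjD_apply,
        star_mul', star_mul', star_inv₀]
      have e1 : ∀ k, star (rc k) = rc k := fun k => Complex.conj_ofReal _
      rw [e1, e1]
      have e2 : om i = u i * (rc i * rc i) := by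
        change om i = om i / ‖om i‖ * (rc i * rc i)
        rw [hrc2, div_mul_cancel₀ _ (hn i)]
      have e3 : om j = u j * (rc j * rc j) := by
        change om j = om j / ‖om j‖ * (rc j * rc j)
        rw [hrc2, div_mul_cancel₀ _ (hn j)]
      have e4 : u j ≠ 0 := by
        intro h
        have := hunit j
        rw [h, norm_zero] at this
        exact zero_ne_one this
      rw [e2, e3]
      have e5 := hrc i
      have e6 := hrc j
      field_simp
    rw [h2]
    exact h1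
  have hcartan : ∀ X ∈ G', (∀ f ∈ Car G', ∀ i j, X i j ≠ 0 → f i = f j) →
      ∀ i j, i ≠ j → X i j = 0 := by
    intro X hX hf i j hij
    rw [hmem] at hX
    have h1 := cartan _ hX (fun f hfG a b hab => by
      rw [← hcar] at hfG
      refine hf f hfG a b fun h => hab ?_
      rw [conjD_apply, h, mul_zero, zero_mul]) i j hij
    rw [conjD_apply] at h1
    rcases mul_eq_zero.1 h1 with h2 | h2
    · exact (mul_eq_zero.1 h2).resolve_left (hrc i)
    · exact absurd h2 (inv_ne_zero (hrc j))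
  obtain ⟨w, hw⟩ := exists_tw hlie hunit htwist hcartan (fun i j hij => by
    rw [hcar] at hij
    exact uf i j hij)
  have hedge : ∀ i j, Edge G (i, j) → Edge G' (i, j) := by
    rintro i j ⟨X, hX, h1⟩
    refine ⟨conjD (fun k => (rc k)⁻¹) X, ?_, ?_⟩
    · rw [hmem]
      have h2 : conjD rc (conjD (fun k => (rc k)⁻¹) X) = X := by
        ext a b
        rw [conjD_apply, conjD_apply, inv_inv]
        have e5 := hrc a
        have e6 := hrc b
        field_simp
      rw [h2]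
      exact hX
    · rw [conjD_apply]
      exact mul_ne_zero (mul_ne_zero (inv_ne_zero (hrc _)) h1) (inv_ne_zero (inv_ne_zero (hrc _)))
  -- the diagonal matrices which normalise it
  have hcomm : ∀ (ρ : ι → ℂ) (t : ι → ℂ) (X : Matrix ι ι ℂ),
      conjD ρ (Matrix.of fun i j => t i / t j * X i j) =
        Matrix.of fun i j => t i / t j * conjD ρ X i j := by
    intro ρ t X
    ext i j
    rw [conjD_apply, Matrix.of_apply, Matrix.of_apply, conjD_apply]
    ring
  have hinv : ∀ X : Matrix ι ι ℂ, conjD rc (conjD (fun k => (rc k)⁻¹) X) = X := by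
    intro X
    ext a b
    rw [conjD_apply, conjD_apply, inv_inv]
    have e5 := hrc a
    have e6 := hrc b
    field_simp
  have hnrm : ∀ t, Nrm G t ↔ Nrm G' t := by
    intro t
    constructor
    · intro ht X hX
      rw [hmem] at hX ⊢
      rw [hcomm]
      exact ht _ hX
    · intro ht X hX
      have h1 : conjD (fun k => (rc k)⁻¹) X ∈ G' := by
        rw [hmem, hinv]
        exact hX
      have h2 := ht _ h1
      rw [hmem, hcomm, hinv] at h2
      exact h2
  have hedge' : ∀ i j, Edge G' (i, j) → Edge G (i, j) := by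
    rintro i j ⟨X, hX, h1⟩
    rw [hmem] at hX
    refine ⟨_, hX, ?_⟩
    rw [conjD_apply]
    exact mul_ne_zero (mul_ne_zero (hrc _) h1) (inv_ne_zero (hrc _))
  exact ⟨G', w, hw, hcar, fun i j => ⟨hedge i j, hedge' i j⟩, hnrm⟩

/-- If the central unitary solutions of the relations are trivial on the sequence `a` of indices then
a sequence of indices which are connected to those of `a` is a combination of relations. -/
theorem relCore_scaled {om : ι → ℂ} (h0 : ∀ i, om i ≠ 0)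
    (lie : ∀ X ∈ G, ∀ Y ∈ G, X * Y - Y * X ∈ G)
    (twist : ∀ X ∈ G, diagonal om * Xᴴ * diagonal (fun i => (om i)⁻¹) ∈ G)
    (cartan : ∀ X ∈ G, (∀ f ∈ Car G, ∀ i j, X i j ≠ 0 → f i = f j) → ∀ i j, i ≠ j → X i j = 0)
    (uf : ∀ i j, (∀ f ∈ Car G, f i = f j) → om i / ‖om i‖ = om j / ‖om j‖)
    (T : Set (ι → ℤ)) (hT0 : ∀ x ∈ T, ∀ f ∈ Car G, ∑ i, (x i : ℝ) * f i = 0)
    (he : ∀ i j, (∀ f ∈ Car G, f i = f j) → (Pi.single i 1 - Pi.single j 1 : ι → ℤ) ∈ T)
    (hn : ∀ t : ι → ℂ, (∀ i, ‖t i‖ = 1) → (∀ x ∈ T, ∏ i, t i ^ x i = 1) → Nrm G t)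
    {m : ℕ} (a : Fin m → ι)
    (hz : ∀ z : ι → ℂ, (∀ i, ‖z i‖ = 1) → (∀ i j, Edge G (i, j) → z i = z j) →
      (∀ i j, (∀ f ∈ Car G, f i = f j) → z i = z j) → (∀ x ∈ T, ∏ i, z i ^ x i = 1) →
      ∏ k, z (a k) = 1) :
    ∃ b : Fin m → ι, (∀ k, Conn G (a k) (b k)) ∧ (∀ f ∈ Car G, ∑ k, f (b k) = 0) ∧
      (∑ k, (Pi.single (b k) 1 : ι → ℤ)) ∈ AddSubgroup.closure T := by
  obtain ⟨G', w, hw, hcar, hedge, hnrm⟩ := exists_scaled_full h0 lie twist cartan uf
  obtain ⟨b, hb, hb0, hbT⟩ := hw.relCore T (by rw [hcar]; exact hT0) (by rw [hcar]; exact he)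
    (fun t ht hk => (hnrm t).1 (hn t ht hk)) a (by
      intro z hz1 hze hzs hzT
      refine hz z hz1 (fun i j hij => hze i j ((hedge i j).1 hij)) ?_ hzT
      rw [hcar] at hzs
      exact hzs)
  rw [hcar] at hb0
  exact ⟨b, fun k => (hb k).mono hcar.symm fun i j hij => (hedge i j).2 hij, hb0, hbT⟩

end Pc0b458L
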