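import Pool.Agent.Lib.Pc0b458L.ListProd

/-!
# The diagonal unitary matrix is the product of a central one and of one in the torus

Let `Λ` be the lattice of weights, generated by the linear functions `f ↦ f i` on the real diagonal
elements. By `Tw.list_prod` there is a homomorphism `c` of the lattice generated by the roots
`f i - f j`, for edges `(i, j)`, with `u i / u j = c (f i - f j)`. As `ℂˣ` is divisible, `c` extends
to a homomorphism `χ` of `Λ`; let `t i = χ (f i)` and `z i = u i / t i`.
-/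

namespace Pc0b458L

open Matrix

variable {ι : Type} [Fintype ι] [DecidableEq ι] {G : Submodule ℂ (Matrix ι ι ℂ)} {u : ι → ℂ}
  {w : ι → ℝ}

namespace SplitAux

theorem surj_smul {n : ℤ} (hn : n ≠ 0) :
    Function.Surjective (fun a : Additive ℂˣ => n • a) := by
  -- natural multiples
  have key : ∀ k : ℕ, k ≠ 0 → ∀ x : ℂˣ, ∃ y : ℂˣ, y ^ k = x := by
    intro k hk x
    obtain ⟨y, hy⟩ := IsAlgClosed.exists_pow_nat_eq (x : ℂ) (Nat.pos_of_ne_zero hk)
    have hy0 : y ≠ 0 := by
      rintro rfl
      rw [zero_pow hk] at hy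
      exact x.ne_zero hy.symm
    exact ⟨Units.mk0 y hy0, Units.ext (by simpa using hy)⟩
  intro a
  obtain ⟨y, hy⟩ := key n.natAbs (Int.natAbs_ne_zero.2 hn) (Additive.toMul a)
  rcases Int.natAbs_eq n with h | h
  · refine ⟨Additive.ofMul y, ?_⟩
    have h1 : y ^ n = Additive.toMul a := by
      rw [h, zpow_natCast, hy]
    show n • Additive.ofMul y = a
    rw [← ofMul_zpow, h1]
    rfl
  · refine ⟨Additive.ofMul y⁻¹, ?_⟩
    have h1 : y⁻¹ ^ n = Additive.toMul a := by
      rw [h, _root_.zpow_neg, zpow_natCast, inv_pow, inv_inv, hy]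
    show n • Additive.ofMul y⁻¹ = a
    rw [← ofMul_zpow, h1]
    rfl

theorem baer : Module.Baer ℤ (Additive ℂˣ) :=
  letI : DivisibleBy (Additive ℂˣ) ℤ := divisibleByOfSMulRightSurj _ _ fun hn => surj_smul hn
  Module.Baer.of_divisible _

/-- the weight of an integral vector -/
def wt (G : Submodule ℂ (Matrix ι ι ℂ)) : (ι → ℤ) →+ (Car G → ℝ) where
  toFun m f := ∑ i, (m i : ℝ) * f.1 i
  map_zero' := by
    funext f
    simp
  map_add' m m' := by
    funext f
    simp [add_mul, Finset.sum_add_distrib]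

/-- the character given by `U` -/
def chr (U : ι → ℂˣ) : (ι → ℤ) →+ Additive ℂˣ where
  toFun m := Additive.ofMul (∏ i, U i ^ m i)
  map_zero' := by simp
  map_add' m m' := by
    rw [← ofMul_mul, ← Finset.prod_mul_distrib]
    congr 1
    exact Finset.prod_congr rfl fun i _ => zpow_add _ _ _

/-- the vector of an edge -/
def ev (e : ι × ι) : ι → ℤ := Pi.single e.1 1 - Pi.single e.2 1

theorem chr_single (U : ι → ℂˣ) (i : ι) : chr U (Pi.single i 1) = Additive.ofMul (U i) := by
  show Additive.ofMul (∏ j, U j ^ (Pi.single i 1 : ι → ℤ) j) = _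
  congr 1
  rw [Finset.prod_eq_single i]
  · simp
  · intro j _ hj
    simp [Pi.single_eq_of_ne hj]
  · simp

theorem wt_single (i : ι) (f : Car G) : wt G (Pi.single i 1) f = f.1 i := by
  show ∑ j, (((Pi.single i 1 : ι → ℤ) j : ℤ) : ℝ) * f.1 j = _
  rw [Finset.sum_eq_single i]
  · simp
  · intro j _ hj
    simp [Pi.single_eq_of_ne hj]
  · simp

theorem edge_symm (h : Tw G u w) {i j : ι} (hij : Edge G (i, j)) : Edge G (j, i) := by
  obtain ⟨X, hX, hne⟩ := hij
  refine ⟨Xᴴ, h.star hX, ?_⟩
  simpa [Matrix.conjTranspose_apply] using hne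

/-- the vectors generated by the edges are sums of lists of edges -/
theorem exists_list (h : Tw G u w) {r : ι → ℤ}
    (hr : r ∈ AddSubgroup.closure (ev '' {e : ι × ι | Edge G e})) :
    ∃ l : List (ι × ι), (∀ e ∈ l, Edge G e) ∧ r = (l.map ev).sum := by
  induction hr using AddSubgroup.closure_induction with
  | mem x hx =>
    obtain ⟨e, he, rfl⟩ := hx
    exact ⟨[e], by simpa using he, by simp⟩
  | zero => exact ⟨[], by simp, by simp⟩
  | add x y _ _ hx hy =>
    obtain ⟨l, h1, h2⟩ := hx
    obtain ⟨l', h1', h2'⟩ := hy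
    refine ⟨l ++ l', fun e he => ?_, by rw [h2, h2', List.map_append, List.sum_append]⟩
    rcases List.mem_append.1 he with he | he
    · exact h1 e he
    · exact h1' e he
  | neg x _ hx =>
    obtain ⟨l, h1, h2⟩ := hx
    refine ⟨l.map Prod.swap, fun e he => ?_, ?_⟩
    · obtain ⟨e', he', rfl⟩ := List.mem_map.1 he
      exact edge_symm h (h1 e' he')
    · rw [h2, List.map_map]
      have : (ev ∘ Prod.swap : ι × ι → (ι → ℤ)) = fun e => - ev e := by
        funext e
        show Pi.single e.2 1 - Pi.single e.1 1 = -(Pi.single e.1 1 - Pi.single e.2 1 : ι → ℤ)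
        rw [neg_sub]
      rw [this]
      clear h1 h2 this
      induction l with
      | nil => simp
      | cons a l ih => rw [List.map_cons, List.sum_cons, neg_add, List.map_cons, List.sum_cons, ih]

/-- the character is trivial on the vectors of the edges of weight zero -/
theorem chr_eq_zero (h : Tw G u w) {U : ι → ℂˣ} (hU : ∀ i, (U i : ℂ) = u i) {r : ι → ℤ}
    (hr : r ∈ AddSubgroup.closure (ev '' {e : ι × ι | Edge G e})) (h0 : wt G r = 0) :
    chr U r = 0 := by
  obtain ⟨l, h1, rfl⟩ := exists_list h hr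
  have h2 := h.list_prod l h1 (fun f hf => by
    have h3 := congrFun h0 ⟨f, hf⟩
    rw [map_list_sum, List.map_map] at h3
    have h4 : (l.map (wt G ∘ ev)).sum ⟨f, hf⟩ = (l.map fun e => f e.1 - f e.2).sum := by
      clear h0 h3 h1 hr
      induction l with
      | nil => rfl
      | cons a l ih =>
        rw [List.map_cons, List.sum_cons, List.map_cons, List.sum_cons, Pi.add_apply, ih]
        congr 1
        show wt G (Pi.single a.1 1 - Pi.single a.2 1) ⟨f, hf⟩ = _
        rw [map_sub, Pi.sub_apply, wt_single, wt_single]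
    rw [← h4, h3]
    rfl)
  have h5 : ((Additive.toMul (chr U (l.map ev).sum) : ℂˣ) : ℂ) =
      (l.map fun e => u e.1 / u e.2).prod := by
    clear h0 h2 h1 hr
    induction l with
    | nil => simp
    | cons a l ih =>
      rw [List.map_cons, List.sum_cons, map_add, toMul_add, Units.val_mul, ih, List.map_cons,
        List.prod_cons]
      congr 1
      show ((Additive.toMul (chr U (Pi.single a.1 1 - Pi.single a.2 1)) : ℂˣ) : ℂ) = _
      rw [map_sub, chr_single, chr_single, toMul_sub, toMul_ofMul, toMul_ofMul,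
        Units.val_div_eq_div_val, hU, hU]
  rw [h2] at h5
  have h6 : Additive.toMul (chr U (l.map ev).sum) = 1 := Units.ext h5
  exact Additive.toMul.injective h6

end SplitAux

open SplitAux

/-- **Splitting.** -/
theorem Tw.split (h : Tw G u w) : ∃ t z : ι → ℂ, (∀ i, t i ≠ 0) ∧ (∀ i, z i ≠ 0) ∧
    (∀ i, u i = z i * t i) ∧
    (∀ m : ι → ℤ, (∀ f ∈ Car G, ∑ i, (m i : ℝ) * f i = 0) → ∏ i, t i ^ m i = 1) ∧
    (∀ i j, Edge G (i, j) → z i = z j) ∧ (∀ i j, w i = w j → z i = z j) := by
  have hu : ∀ i, u i ≠ 0 := h.u_ne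
  obtain ⟨U, hU⟩ : ∃ U : ι → ℂˣ, ∀ i, (U i : ℂ) = u i := ⟨fun i => Units.mk0 (u i) (hu i),
    fun _ => rfl⟩
  obtain ⟨R, hR⟩ : ∃ R : AddSubgroup (ι → ℤ),
      R = AddSubgroup.closure (ev '' {e : ι × ι | Edge G e}) := ⟨_, rfl⟩
  -- the weights of `R`
  obtain ⟨π, hπ⟩ : ∃ π : R →+ (Car G → ℝ), π = (wt G).comp R.subtype := ⟨_, rfl⟩
  let p : R →+ π.range := π.rangeRestrict
  have hp : Function.Surjective p := AddMonoidHom.rangeRestrict_surjective _
  have hker : p.ker ≤ ((chr U).comp R.subtype).ker := by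
    intro r hr
    rw [AddMonoidHom.mem_ker] at hr ⊢
    have h0 : π r = 0 := congrArg Subtype.val hr
    rw [hπ] at h0
    exact chr_eq_zero h hU (hR ▸ r.2) h0
  let φ := p.liftOfSurjective hp ⟨(chr U).comp R.subtype, hker⟩
  have hφ : ∀ r, φ (p r) = chr U (r : ι → ℤ) := fun r =>
    p.liftOfRightInverse_comp_apply _ (Function.rightInverse_surjInv hp) _ r
  obtain ⟨χ, hχ⟩ := baer.extension_property_addMonoidHom
    (π.range.subtype) Subtype.val_injective φ
  have hχR : ∀ r ∈ R, χ (wt G r) = chr U r := by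
    intro r hr
    have h1 := DFunLike.congr_fun hχ (p ⟨r, hr⟩)
    rw [hφ] at h1
    rw [← h1]
    show χ (wt G r) = χ (π ⟨r, hr⟩)
    rw [hπ]
    rfl
  obtain ⟨T, hT⟩ : ∃ T : ι → ℂˣ, ∀ i, T i = Additive.toMul (χ (wt G (Pi.single i 1))) :=
    ⟨_, fun _ => rfl⟩
  have hTm : ∀ m : ι → ℤ, chr T m = χ (wt G m) := by
    intro m
    have h1 : m = ∑ i, m i • (Pi.single i 1 : ι → ℤ) := by
      funext j
      rw [Finset.sum_apply, Finset.sum_eq_single j]
      · simp
      · intro i _ hi
        simp [Pi.single_eq_of_ne hi.symm]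
      · simp
    rw [h1, map_sum, map_sum, map_sum]
    refine Finset.sum_congr rfl fun i _ => ?_
    rw [map_zsmul, map_zsmul, map_zsmul, chr_single, hT]
    rfl
  have hTe : ∀ i j, Edge G (i, j) → U i / U j = T i / T j := by
    intro i j hij
    have h1 : ev (i, j) ∈ R := by
      rw [hR]
      exact AddSubgroup.subset_closure ⟨(i, j), hij, rfl⟩
    have h2 : chr T (ev (i, j)) = chr U (ev (i, j)) := by
      rw [hTm, hχR _ h1]
    have h3 : ∀ V : ι → ℂˣ, Additive.toMul (chr V (ev (i, j))) = V i / V j := by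
      intro V
      show Additive.toMul (chr V (Pi.single i 1 - Pi.single j 1)) = _
      rw [map_sub, chr_single, chr_single, toMul_sub, toMul_ofMul, toMul_ofMul]
    rw [← h3 U, ← h3 T, h2]
  refine ⟨fun i => T i, fun i => (U i : ℂ) / T i, fun i => (T i).ne_zero,
    fun i => div_ne_zero (U i).ne_zero (T i).ne_zero, fun i => ?_, ?_, ?_, ?_⟩
  · rw [← hU i, div_mul_cancel₀ _ (T i).ne_zero]
  · intro m hm
    have h1 : wt G m = 0 := by
      funext f
      exact hm f.1 f.2
    have h2 := hTm m
    rw [h1, map_zero] at h2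
    have h3 : ∏ i, T i ^ m i = 1 := Additive.ofMul.injective h2
    have h4 := congrArg (fun x : ℂˣ => (x : ℂ)) h3
    simpa using h4
  · intro i j hij
    have h1 := congrArg (fun x : ℂˣ => (x : ℂ)) (hTe i j hij)
    simp only [Units.val_div_eq_div_val] at h1
    have a1 := (T i).ne_zero
    have a2 := (T j).ne_zero
    have a3 := (U j).ne_zero
    show (U i : ℂ) / T i = U j / T j
    rw [div_eq_div_iff a1 a2]
    rw [div_eq_div_iff a3 a2] at h1
    linear_combination h1
  · intro i j hij
    have h1 : wt G (Pi.single i 1) = wt G (Pi.single j 1) := by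
      funext f
      rw [wt_single, wt_single]
      have h2 := h.gen f.1 f.2 i j i i (by rw [hij])
      linarith
    have h2 : T i = T j := by rw [hT, hT, h1]
    have h3 : U i = U j := Units.ext (by rw [hU, hU, h.uw i j hij])
    show (U i : ℂ) / T i = U j / T j
    rw [h2, h3]

end Pc0b458L
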