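import Pool.Agent.Lib.Pc0b458L.Scale0
import Pool.Agent.Lib.Pc0b458L.Split

/-!
# Splitting a twist which is not unitary
-/

namespace Pc0b458L

open Matrix

variable {ι : Type} [Fintype ι] [DecidableEq ι] {G : Submodule ℂ (Matrix ι ι ℂ)}

/-- the phase of the twist is the product of a central diagonal matrix and of the value of a
character of the torus of the diagonal elements -/
theorem split_scaled {om : ι → ℂ} (h0 : ∀ i, om i ≠ 0)
    (lie : ∀ X ∈ G, ∀ Y ∈ G, X * Y - Y * X ∈ G)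
    (twist : ∀ X ∈ G, diagonal om * Xᴴ * diagonal (fun i => (om i)⁻¹) ∈ G)
    (cartan : ∀ X ∈ G, (∀ f ∈ Car G, ∀ i j, X i j ≠ 0 → f i = f j) → ∀ i j, i ≠ j → X i j = 0)
    (uf : ∀ i j, (∀ f ∈ Car G, f i = f j) → om i / ‖om i‖ = om j / ‖om j‖) :
    ∃ t z : ι → ℂ, (∀ i, t i ≠ 0) ∧ (∀ i, z i ≠ 0) ∧ (∀ i, om i / ‖om i‖ = z i * t i) ∧
      (∀ m : ι → ℤ, (∀ f ∈ Car G, ∑ i, m i * f i = 0) → ∏ i, t i ^ m i = 1) ∧
      (∀ i j, Edge G (i, j) → z i = z j) ∧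
      ∀ i j, (∀ f ∈ Car G, f i = f j) → z i = z j := by
  obtain ⟨G', w, hw, hcar, hedge⟩ := exists_scaled h0 lie twist cartan uf
  obtain ⟨t, z, ht, hz, hu, hm, he, hzw⟩ := hw.split
  refine ⟨t, z, ht, hz, hu, ?_, fun i j hij => he i j (hedge i j hij), ?_⟩
  · intro m hm'
    apply hm m
    rw [hcar]
    exact hm'
  · intro i j hij
    have h1 : w ∈ Car G' := hw.mem
    rw [hcar] at h1
    exact hzw i j (hij w h1)

end Pc0b458L
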