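import Pool.Agent.Lib.Pc0b458L.Split
import Pool.Agent.Lib.Pc0b458L.Ratio
import Pool.Agent.Lib.Pc0b458L.MainG

/-!
# Duality

Let `T` be a set of integral vectors such that every `t : ι → Circle` which is trivial on `T`
normalises `G`. A vector of weight zero on which all central elements are trivial is in the
subgroup generated by `T`.
-/

open Finset

namespace Pc0b458L

open Matrix

variable {ι : Type} [Fintype ι] [DecidableEq ι] {G : Submodule ℂ (Matrix ι ι ℂ)} {u : ι → ℂ}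
  {w : ι → ℝ}

namespace DualAux

open SplitAux

/-- the character is trivial on the vectors of the edges of weight zero -/
theorem chr_zero (h : Tw G u w) {v : ι → ℂ}
    (hv : ∀ l : List (ι × ι), (∀ e ∈ l, Edge G e) →
      (∀ f ∈ Car G, (l.map fun e => f e.1 - f e.2).sum = 0) →
      (l.map fun e => v e.1 / v e.2).prod = 1) {U : ι → ℂˣ} (hU : ∀ i, (U i : ℂ) = v i)
    {r : ι → ℤ} (hr : r ∈ AddSubgroup.closure (ev '' {e : ι × ι | Edge G e}))
    (h0 : wt G r = 0) : chr U r = 0 := by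
  obtain ⟨l, h1, rfl⟩ := exists_list h hr
  have h2 := hv l h1 (fun f hf => by
    have h3 := congrFun h0 ⟨f, hf⟩
    rw [map_list_sum, List.map_map] at h3
    have h4 : (l.map (wt G ∘ ev)).sum ⟨f, hf⟩ = (l.map fun e => f e.1 - f e.2).sum := by
      clear h0 h3 h1 hr
      induction l with
      | nil => rfl
      | cons a l ih =>
        rw [List.map_cons, List.sum_cons, List.map_cons, List.sum_cons, Pi.add_apply, ih]
        congr 1
        show wt G (Pi.single a.1 1 - Pi.single a.2 1) ⟨f, hf⟩ = _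
        rw [map_sub, Pi.sub_apply, wt_single, wt_single]
    rw [← h4, h3]
    rfl)
  have h5 : ((Additive.toMul (chr U (l.map ev).sum) : ℂˣ) : ℂ) =
      (l.map fun e => v e.1 / v e.2).prod := by
    clear h0 h2 h1 hr
    induction l with
    | nil => simp
    | cons a l ih =>
      rw [List.map_cons, List.sum_cons, map_add, toMul_add, Units.val_mul, ih, List.map_cons,
        List.prod_cons]
      congr 1
      show ((Additive.toMul (chr U (Pi.single a.1 1 - Pi.single a.2 1)) : ℂˣ) : ℂ) = _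
      rw [map_sub, chr_single, chr_single, toMul_sub, toMul_ofMul, toMul_ofMul,
        Units.val_div_eq_div_val, hU, hU]
  rw [h2] at h5
  have h6 : Additive.toMul (chr U (l.map ev).sum) = 1 := Units.ext h5
  exact Additive.toMul.injective h6

theorem split_of (h : Tw G u w) {v : ι → ℂ} (hv0 : ∀ i, v i ≠ 0)
    (hv : ∀ l : List (ι × ι), (∀ e ∈ l, Edge G e) →
      (∀ f ∈ Car G, (l.map fun e => f e.1 - f e.2).sum = 0) →
      (l.map fun e => v e.1 / v e.2).prod = 1) (hvw : ∀ i j, w i = w j → v i = v j) :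
    ∃ t z : ι → ℂ, (∀ i, t i ≠ 0) ∧ (∀ i, z i ≠ 0) ∧ (∀ i, v i = z i * t i) ∧
    (∀ m : ι → ℤ, (∀ f ∈ Car G, ∑ i, (m i : ℝ) * f i = 0) → ∏ i, t i ^ m i = 1) ∧
    (∀ i j, Edge G (i, j) → z i = z j) ∧ (∀ i j, w i = w j → z i = z j) := by
  obtain ⟨U, hU⟩ : ∃ U : ι → ℂˣ, ∀ i, (U i : ℂ) = v i := ⟨fun i => Units.mk0 (v i) (hv0 i),
    fun _ => rfl⟩
  obtain ⟨R, hR⟩ : ∃ R : AddSubgroup (ι → ℤ),
      R = AddSubgroup.closure (ev '' {e : ι × ι | Edge G e}) := ⟨_, rfl⟩
  -- the weights of `R`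
  obtain ⟨π, hπ⟩ : ∃ π : R →+ (Car G → ℝ), π = (wt G).comp R.subtype := ⟨_, rfl⟩
  let p : R →+ π.range := π.rangeRestrict
  have hp : Function.Surjective p := AddMonoidHom.rangeRestrict_surjective _
  have hker : p.ker ≤ ((chr U).comp R.subtype).ker := by
    intro r hr
    rw [AddMonoidHom.mem_ker] at hr ⊢
    have h0 : π r = 0 := congrArg Subtype.val hr
    rw [hπ] at h0
    exact chr_zero h hv hU (hR ▸ r.2) h0
  let φ := p.liftOfSurjective hp ⟨(chr U).comp R.subtype, hker⟩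
  have hφ : ∀ r, φ (p r) = chr U (r : ι → ℤ) := fun r =>
    p.liftOfRightInverse_comp_apply _ (Function.rightInverse_surjInv hp) _ r
  obtain ⟨χ, hχ⟩ := baer.extension_property_addMonoidHom
    (π.range.subtype) Subtype.val_injective φ
  have hχR : ∀ r ∈ R, χ (wt G r) = chr U r := by
    intro r hr
    have h1 := DFunLike.congr_fun hχ (p ⟨r, hr⟩)
    rw [hφ] at h1
    rw [← h1]
    show χ (wt G r) = χ (π ⟨r, hr⟩)
    rw [hπ]
    rfl
  obtain ⟨T, hT⟩ : ∃ T : ι → ℂˣ, ∀ i, T i = Additive.toMul (χ (wt G (Pi.single i 1))) :=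
    ⟨_, fun _ => rfl⟩
  have hTm : ∀ m : ι → ℤ, chr T m = χ (wt G m) := by
    intro m
    have h1 : m = ∑ i, m i • (Pi.single i 1 : ι → ℤ) := by
      funext j
      rw [Finset.sum_apply, Finset.sum_eq_single j]
      · simp
      · intro i _ hi
        simp [Pi.single_eq_of_ne hi.symm]
      · simp
    rw [h1, map_sum, map_sum, map_sum]
    refine Finset.sum_congr rfl fun i _ => ?_
    rw [map_zsmul, map_zsmul, map_zsmul, chr_single, hT]
    rfl
  have hTe : ∀ i j, Edge G (i, j) → U i / U j = T i / T j := by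
    intro i j hij
    have h1 : ev (i, j) ∈ R := by
      rw [hR]
      exact AddSubgroup.subset_closure ⟨(i, j), hij, rfl⟩
    have h2 : chr T (ev (i, j)) = chr U (ev (i, j)) := by
      rw [hTm, hχR _ h1]
    have h3 : ∀ V : ι → ℂˣ, Additive.toMul (chr V (ev (i, j))) = V i / V j := by
      intro V
      show Additive.toMul (chr V (Pi.single i 1 - Pi.single j 1)) = _
      rw [map_sub, chr_single, chr_single, toMul_sub, toMul_ofMul, toMul_ofMul]
    rw [← h3 U, ← h3 T, h2]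
  refine ⟨fun i => T i, fun i => (U i : ℂ) / T i, fun i => (T i).ne_zero,
    fun i => div_ne_zero (U i).ne_zero (T i).ne_zero, fun i => ?_, ?_, ?_, ?_⟩
  · rw [← hU i, div_mul_cancel₀ _ (T i).ne_zero]
  · intro m hm
    have h1 : wt G m = 0 := by
      funext f
      exact hm f.1 f.2
    have h2 := hTm m
    rw [h1, map_zero] at h2
    have h3 : ∏ i, T i ^ m i = 1 := Additive.ofMul.injective h2
    have h4 := congrArg (fun x : ℂˣ => (x : ℂ)) h3
    simpa using h4
  · intro i j hij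
    have h1 := congrArg (fun x : ℂˣ => (x : ℂ)) (hTe i j hij)
    simp only [Units.val_div_eq_div_val] at h1
    have a1 := (T i).ne_zero
    have a2 := (T j).ne_zero
    have a3 := (U j).ne_zero
    show (U i : ℂ) / T i = U j / T j
    rw [div_eq_div_iff a1 a2]
    rw [div_eq_div_iff a3 a2] at h1
    linear_combination h1
  · intro i j hij
    have h1 : wt G (Pi.single i 1) = wt G (Pi.single j 1) := by
      funext f
      rw [wt_single, wt_single]
      have h2 := h.gen f.1 f.2 i j i i (by rw [hij])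
      linarith
    have h2 : T i = T j := by rw [hT, hT, h1]
    have h3 : U i = U j := Units.ext (by rw [hU, hU, hvw i j hij])
    show (U i : ℂ) / T i = U j / T j
    rw [h2, h3]

end DualAux

open DualAux

/-- **Splitting** of the elements which normalise `G`. -/
theorem Tw.split_nrm (h : Tw G u w) {v : ι → ℂ} (hv0 : ∀ i, v i ≠ 0) (hv : Nrm G v)
    (hvw : ∀ i j, w i = w j → v i = v j) :
    ∃ t z : ι → ℂ, (∀ i, t i ≠ 0) ∧ (∀ i, z i ≠ 0) ∧ (∀ i, v i = z i * t i) ∧
    (∀ m : ι → ℤ, (∀ f ∈ Car G, ∑ i, (m i : ℝ) * f i = 0) → ∏ i, t i ^ m i = 1) ∧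
    (∀ i j, Edge G (i, j) → z i = z j) ∧ (∀ i j, w i = w j → z i = z j) :=
  split_of h hv0 (fun l hl h0 => h.list_ratio hv0 hv hvw l hl h0) hvw

/-- **Duality.** -/
theorem Tw.dual (h : Tw G u w) (T : Set (ι → ℤ))
    (hT0 : ∀ x ∈ T, ∀ f ∈ Car G, ∑ i, (x i : ℝ) * f i = 0)
    (he : ∀ i j, (∀ f ∈ Car G, f i = f j) → Pi.single i 1 - Pi.single j 1 ∈ T)
    (hn : ∀ t : ι → ℂ, (∀ i, ‖t i‖ = 1) → (∀ x ∈ T, ∏ i, t i ^ x i = 1) → Nrm G t)
    (x : ι → ℤ) (hx : ∀ f ∈ Car G, ∑ i, (x i : ℝ) * f i = 0)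
    (hz : ∀ z : ι → ℂ, (∀ i, z i ≠ 0) → (∀ i j, Edge G (i, j) → z i = z j) →
      (∀ i j, (∀ f ∈ Car G, f i = f j) → z i = z j) → (∀ x ∈ T, ∏ i, z i ^ x i = 1) →
      ∏ i, z i ^ x i = 1) : x ∈ AddSubgroup.closure T := by
  have hww : ∀ i j, w i = w j → ∀ f ∈ Car G, f i = f j := fun i j hij f hf => by
    have h2 := h.gen f hf i j i i (by rw [hij])
    linarith
  by_contra hcon
  have h1 : (QuotientAddGroup.mk' (AddSubgroup.closure T) x) ≠ 0 := by
    intro h
    exact hcon ((QuotientAddGroup.eq_zero_iff x).1 h)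
  obtain ⟨χ, hχ⟩ := exists_sep h1
  let φ : (ι → ℤ) →+ Additive Circle := χ.comp (QuotientAddGroup.mk' _)
  have hφ : ∀ y ∈ T, φ y = 0 := by
    intro y hy
    have : (QuotientAddGroup.mk' (AddSubgroup.closure T) y) = 0 :=
      (QuotientAddGroup.eq_zero_iff y).2 (AddSubgroup.subset_closure hy)
    show χ (QuotientAddGroup.mk' _ y) = 0
    rw [this, map_zero]
  let t : ι → Circle := fun i => (φ (Pi.single i 1)).toMul
  have hval : ∀ y : ι → ℤ, (φ y).toMul = ∏ i, t i ^ y i := by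
    intro y
    have h2 : y = ∑ s, y s • (Pi.single s 1 : ι → ℤ) := by
      funext t
      rw [Finset.sum_apply]
      simp [Pi.single_apply]
    have h3 : φ y = ∑ s, y s • φ (Pi.single s 1) := by
      conv_lhs => rw [h2]
      rw [map_sum]
      exact Finset.sum_congr rfl fun s _ => map_zsmul φ _ _
    rw [h3, toMul_sum]
    rfl
  obtain ⟨v, hv⟩ : ∃ v : ι → ℂ, ∀ i, v i = (t i : ℂ) := ⟨_, fun _ => rfl⟩
  have hvalC : ∀ y : ι → ℤ, (((φ y).toMul : Circle) : ℂ) = ∏ i, v i ^ y i := by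
    intro y
    rw [hval]
    simp only [hv]
    rw [← Circle.coeHom_apply, map_prod]
    exact Finset.prod_congr rfl fun i _ => by rw [map_zpow]; rfl
  have hv0 : ∀ i, v i ≠ 0 := fun i => by
    rw [hv]
    exact Circle.coe_ne_zero _
  have hvT : ∀ y ∈ T, ∏ i, v i ^ y i = 1 := by
    intro y hy
    rw [← hvalC, hφ y hy]
    rfl
  have hdiv : ∀ i j, v i / v j = ∏ k, v k ^ (Pi.single i 1 - Pi.single j 1 : ι → ℤ) k := by
    intro i j
    simp only [Pi.sub_apply]
    have e1 : ∀ k, v k ^ ((Pi.single i 1 : ι → ℤ) k - (Pi.single j 1 : ι → ℤ) k) =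
        v k ^ (Pi.single i 1 : ι → ℤ) k / v k ^ (Pi.single j 1 : ι → ℤ) k := fun k =>
      zpow_sub₀ (hv0 k) _ _
    have e2 : ∀ i, ∏ k, v k ^ (Pi.single i 1 : ι → ℤ) k = v i := by
      intro i
      rw [Finset.prod_eq_single i]
      · simp
      · intro k _ hk
        simp [Pi.single_eq_of_ne hk]
      · simp
    rw [Finset.prod_congr rfl fun k _ => e1 k, Finset.prod_div_distrib, e2, e2]
  have hnrm : Nrm G v := hn v (fun i => by rw [hv]; exact Circle.norm_coe _) hvT
  have hvw : ∀ i j, w i = w j → v i = v j := by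
    intro i j hij
    have h2 := hvT _ (he i j (hww i j hij))
    rw [← hdiv] at h2
    exact (div_eq_one_iff_eq (hv0 j)).1 h2
  obtain ⟨s, z, -, hz0, hsz, hs, hze, hzw⟩ := h.split_nrm hv0 hnrm hvw
  have hprod : ∀ y : ι → ℤ, (∀ f ∈ Car G, ∑ i, (y i : ℝ) * f i = 0) →
      ∏ i, v i ^ y i = ∏ i, z i ^ y i := by
    intro y hy
    have e1 : ∀ k, v k ^ y k = z k ^ y k * s k ^ y k := fun k => by
      rw [hsz, mul_zpow]
    rw [Finset.prod_congr rfl fun k _ => e1 k, Finset.prod_mul_distrib, hs y hy, mul_one]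
  have key := hz z hz0 hze (fun i j hij => hzw i j (hij w h.mem)) fun y hy => by
    rw [← hprod y (hT0 y hy)]
    exact hvT y hy
  apply hχ
  have h4 : (((φ x).toMul : Circle) : ℂ) = 1 := by
    rw [hvalC, hprod x hx, key]
  have h5 : (φ x).toMul = 1 := Circle.ext h4
  exact Additive.toMul.injective h5

end Pc0b458L
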