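import Pool.Agent.Lib.Pc0b458L.Quad1
import Pool.Agent.Lib.Pc0b458L.Dual

/-!
# The core

Let `T` be a set of integral vectors of weight zero such that every `t : ι → Circle` which is trivial
on `T` normalises `G`. If every central element which is trivial on `T` is trivial on the letters
`i k`, then there are letters `i' k`, connected with `i k`, whose sum has weight zero and is in the
subgroup generated by `T`.
-/

open Finset

namespace Pc0b458L

open Matrix

variable {ι : Type} [Fintype ι] [DecidableEq ι] {G : Submodule ℂ (Matrix ι ι ℂ)} {u : ι → ℂ}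
  {w : ι → ℝ}

namespace Quad3Aux

theorem prod_single (z : ι → ℂ) (i : ι) : ∏ k, z k ^ (Pi.single i 1 : ι → ℤ) k = z i := by
  rw [Finset.prod_eq_single i]
  · simp
  · intro k _ hk
    simp [Pi.single_eq_of_ne hk]
  · simp

theorem prod_sub {z : ι → ℂ} (hz : ∀ i, z i ≠ 0) (i j : ι) :
    ∏ k, z k ^ (Pi.single i 1 - Pi.single j 1 : ι → ℤ) k = z i / z j := by
  simp only [Pi.sub_apply]
  have e1 : ∀ k, z k ^ ((Pi.single i 1 : ι → ℤ) k - (Pi.single j 1 : ι → ℤ) k) =
      z k ^ (Pi.single i 1 : ι → ℤ) k / z k ^ (Pi.single j 1 : ι → ℤ) k := fun k =>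
    zpow_sub₀ (hz k) _ _
  rw [Finset.prod_congr rfl fun k _ => e1 k, Finset.prod_div_distrib, prod_single, prod_single]

theorem prod_sum {z : ι → ℂ} (hz : ∀ i, z i ≠ 0) {m : ℕ} (i : Fin m → ι) :
    ∏ j, z j ^ (∑ k, (Pi.single (i k) 1 : ι → ℤ)) j = ∏ k, z (i k) := by
  have e1 : ∀ j, z j ^ (∑ k, (Pi.single (i k) 1 : ι → ℤ)) j =
      ∏ k, z j ^ (Pi.single (i k) 1 : ι → ℤ) j := by
    intro j
    rw [Finset.sum_apply]
    have key : ∀ s : Finset (Fin m), z j ^ (∑ k ∈ s, (Pi.single (i k) 1 : ι → ℤ) j) =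
        ∏ k ∈ s, z j ^ (Pi.single (i k) 1 : ι → ℤ) j := by
      intro s
      induction s using Finset.induction_on with
      | empty => simp
      | insert a s ha ih =>
        rw [Finset.sum_insert ha, Finset.prod_insert ha, zpow_add₀ (hz j), ih]
    exact key _
  rw [Finset.prod_congr rfl fun j _ => e1 j, Finset.prod_comm]
  exact Finset.prod_congr rfl fun k _ => prod_single z (i k)

theorem sum_single (f : ι → ℝ) (i : ι) : ∑ k, (((Pi.single i 1 : ι → ℤ) k : ℤ) : ℝ) * f k = f i := by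
  rw [Finset.sum_eq_single i]
  · simp
  · intro k _ hk
    simp [Pi.single_eq_of_ne hk]
  · simp

theorem sum_sum (f : ι → ℝ) {m : ℕ} (i : Fin m → ι) :
    ∑ j, (((∑ k, (Pi.single (i k) 1 : ι → ℤ)) j : ℤ) : ℝ) * f j = ∑ k, f (i k) := by
  simp only [Finset.sum_apply, Int.cast_sum, Finset.sum_mul]
  rw [Finset.sum_comm]
  exact Finset.sum_congr rfl fun k _ => sum_single f (i k)

/-- a vector on which all characters are trivial that are trivial on `R` -/
theorem mem_closure_of_char {R : Set (ι → ℤ)} {x : ι → ℤ}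
    (hfix : ∀ z : ι → ℂ, (∀ i, z i ≠ 0) → (∀ y ∈ R, ∏ i, z i ^ y i = 1) → ∏ i, z i ^ x i = 1) :
    x ∈ AddSubgroup.closure R := by
  by_contra hcon
  have h1 : (QuotientAddGroup.mk' (AddSubgroup.closure R) x) ≠ 0 := by
    intro h
    exact hcon ((QuotientAddGroup.eq_zero_iff x).1 h)
  obtain ⟨χ, hχ⟩ := exists_sep h1
  let φ : (ι → ℤ) →+ Additive Circle := χ.comp (QuotientAddGroup.mk' _)
  have hφ : ∀ y ∈ R, φ y = 0 := by
    intro y hy
    have : (QuotientAddGroup.mk' (AddSubgroup.closure R) y) = 0 :=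
      (QuotientAddGroup.eq_zero_iff y).2 (AddSubgroup.subset_closure hy)
    show χ (QuotientAddGroup.mk' _ y) = 0
    rw [this, map_zero]
  let t : ι → Circle := fun i => (φ (Pi.single i 1)).toMul
  have hval : ∀ y : ι → ℤ, (((φ y).toMul : Circle) : ℂ) = ∏ i, (t i : ℂ) ^ y i := by
    intro y
    have h2 : y = ∑ s, y s • (Pi.single s 1 : ι → ℤ) := by
      funext t
      rw [Finset.sum_apply]
      simp [Pi.single_apply]
    have h3 : φ y = ∑ s, y s • φ (Pi.single s 1) := by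
      conv_lhs => rw [h2]
      rw [map_sum]
      exact Finset.sum_congr rfl fun s _ => map_zsmul φ _ _
    rw [h3, toMul_sum, ← Circle.coeHom_apply, map_prod]
    refine Finset.prod_congr rfl fun i _ => ?_
    rw [toMul_zsmul, map_zpow]
    rfl
  have key := hfix (fun i => (t i : ℂ)) (fun i => Circle.coe_ne_zero _) fun y hy => by
    rw [← hval, hφ y hy]
    rfl
  apply hχ
  have h5 : (φ x).toMul = 1 := Circle.ext (by rw [hval, key]; rfl)
  exact Additive.toMul.injective h5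

/-- the differences of connected letters -/
def dif (G : Submodule ℂ (Matrix ι ι ℂ)) : Set (ι → ℤ) :=
  {x | ∃ i j, (Edge G (i, j) ∨ ∀ f ∈ Car G, f i = f j) ∧ x = Pi.single i 1 - Pi.single j 1}

theorem inQ_of_mem (h : Tw G u w) {T : Set (ι → ℤ)}
    (hT0 : ∀ x ∈ T, ∀ f ∈ Car G, ∑ i, (x i : ℝ) * f i = 0) {x : ι → ℤ}
    (hx : x ∈ AddSubgroup.closure (T ∪ dif G)) : InQ G fun f => ∑ i, (x i : ℝ) * f i := by
  induction hx using AddSubgroup.closure_induction with
  | mem x hx =>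
    rcases hx with hx | ⟨i, j, hij, rfl⟩
    · exact ⟨[], by simp, fun f hf => by
        beta_reduce
        rw [hT0 x hx f hf, List.map_nil, List.sum_nil]⟩
    · have h1 : InQ G fun f => f i - f j := Conn.inQ h (Relation.EqvGen.rel i j hij)
      refine h1.congr fun f _ => ?_
      simp only [Pi.sub_apply, Int.cast_sub, sub_mul]
      rw [Finset.sum_sub_distrib, sum_single, sum_single]
  | zero => exact ⟨[], by simp, fun f hf => by simp⟩
  | add x y _ _ hx hy =>
    refine (hx.add hy).congr fun f _ => ?_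
    simp only [Pi.add_apply, Int.cast_add, add_mul]
    rw [Finset.sum_add_distrib]
  | neg x _ hx =>
    refine (hx.neg h).congr fun f _ => ?_
    simp only [Pi.neg_apply, Int.cast_neg, neg_mul]
    rw [Finset.sum_neg_distrib]

end Quad3Aux

open Quad3Aux

/-- **The core.** -/
theorem Tw.quad (h : Tw G u w) (T : Set (ι → ℤ))
    (hT0 : ∀ x ∈ T, ∀ f ∈ Car G, ∑ i, (x i : ℝ) * f i = 0)
    (he : ∀ i j, (∀ f ∈ Car G, f i = f j) → Pi.single i 1 - Pi.single j 1 ∈ T)
    (hn : ∀ t : ι → ℂ, (∀ i, ‖t i‖ = 1) → (∀ x ∈ T, ∏ i, t i ^ x i = 1) → Nrm G t) {m : ℕ}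
    (i : Fin m → ι)
    (hz : ∀ z : ι → ℂ, (∀ i, z i ≠ 0) → (∀ i j, Edge G (i, j) → z i = z j) →
      (∀ i j, (∀ f ∈ Car G, f i = f j) → z i = z j) → (∀ x ∈ T, ∏ i, z i ^ x i = 1) →
      ∏ k, z (i k) = 1) :
    ∃ i' : Fin m → ι, (∀ k, Conn G (i k) (i' k)) ∧ (∀ f ∈ Car G, ∑ k, f (i' k) = 0) ∧
      ∑ k, (Pi.single (i' k) 1 : ι → ℤ) ∈ AddSubgroup.closure T := by
  -- the sum of the values is a sum of roots
  have h1 : ∑ k, (Pi.single (i k) 1 : ι → ℤ) ∈ AddSubgroup.closure (T ∪ dif G) := by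
    refine mem_closure_of_char fun z hz0 hzR => ?_
    have h2 : ∀ i j, (Edge G (i, j) ∨ ∀ f ∈ Car G, f i = f j) → z i = z j := by
      intro i j hij
      have h3 := hzR _ (Or.inr ⟨i, j, hij, rfl⟩)
      rw [prod_sub hz0] at h3
      exact (div_eq_one_iff_eq (hz0 j)).1 h3
    rw [prod_sum hz0]
    exact hz z hz0 (fun i j hij => h2 i j (Or.inl hij)) (fun i j hij => h2 i j (Or.inr hij))
      fun x hx => hzR x (Or.inl hx)
  have h2 : InQ G fun f => ∑ k, f (i k) :=
    (inQ_of_mem h hT0 h1).congr fun f _ => (sum_sum f i).symm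
  obtain ⟨i', hc, h0⟩ := h.zero_sum i h2
  refine ⟨i', hc, h0, h.dual T hT0 he hn _ (fun f hf => ?_) fun z hz0 hze hzw hzT => ?_⟩
  · rw [sum_sum]
    exact h0 f hf
  · rw [prod_sum hz0]
    have h3 : ∀ k, z (i' k) = z (i k) := fun k => (conn_const hze hzw (hc k)).symm
    rw [Finset.prod_congr rfl fun k _ => h3 k]
    exact hz z hz0 hze hzw hzT

end Pc0b458L
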