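import Pool.Agent.Lib.Pc0b458L.Scale0
import Pool.Agent.Lib.Pc0b458L.ScaleR
import Pool.Agent.Lib.Pc0b458L.Quad2

/-!
# Twists by diagonal matrices which are not unitary: relations of size at most four
-/

open Finset

namespace Pc0b458L

open Matrix

variable {ι : Type} [Fintype ι] [DecidableEq ι] {G : Submodule ℂ (Matrix ι ι ℂ)}

/-- A Lie algebra of matrices with a twist by a diagonal matrix which need not be unitary is
conjugate, by a diagonal matrix, to one with a unitary twist. (Version with the diagonal matrices which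
normalise it.) -/
theorem exists_scaled_nrm {om : ι → ℂ} (h0 : ∀ i, om i ≠ 0)
    (lie : ∀ X ∈ G, ∀ Y ∈ G, X * Y - Y * X ∈ G)
    (twist : ∀ X ∈ G, diagonal om * Xᴴ * diagonal (fun i => (om i)⁻¹) ∈ G)
    (cartan : ∀ X ∈ G, (∀ f ∈ Car G, ∀ i j, X i j ≠ 0 → f i = f j) → ∀ i j, i ≠ j → X i j = 0)
    (uf : ∀ i j, (∀ f ∈ Car G, f i = f j) → om i / ‖om i‖ = om j / ‖om j‖) :
    ∃ (G' : Submodule ℂ (Matrix ι ι ℂ)) (w : ι → ℝ), Tw G' (fun i => om i / ‖om i‖) w ∧
      Car G' = Car G ∧ (∀ i j, Edge G (i, j) → Edge G' (i, j)) ∧ ∀ t, Nrm G t ↔ Nrm G' t := by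
  let ρ : ι → ℝ := fun i => Real.sqrt ‖om i‖
  have hρ0 : ∀ i, 0 < ρ i := fun i => Real.sqrt_pos.2 (norm_pos_iff.2 (h0 i))
  have hρ2 : ∀ i, ρ i * ρ i = ‖om i‖ := fun i => Real.mul_self_sqrt (norm_nonneg _)
  let rc : ι → ℂ := fun i => (ρ i : ℂ)
  have hrc : ∀ i, rc i ≠ 0 := fun i => Complex.ofReal_ne_zero.2 (hρ0 i).ne'
  have hrc2 : ∀ i, rc i * rc i = (‖om i‖ : ℂ) := fun i => by
    rw [← hρ2 i, Complex.ofReal_mul]
  have hn : ∀ i, ((‖om i‖ : ℝ) : ℂ) ≠ 0 := fun i =>
    Complex.ofReal_ne_zero.2 (norm_ne_zero_iff.2 (h0 i))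
  let u : ι → ℂ := fun i => om i / ‖om i‖
  let G' : Submodule ℂ (Matrix ι ι ℂ) := G.comap (conjD rc)
  have hmem : ∀ X, X ∈ G' ↔ conjD rc X ∈ G := fun X => Submodule.mem_comap
  have hcar : Car G' = Car G := by
    ext f
    change diagonal (fun i => (f i : ℂ)) ∈ G' ↔ diagonal (fun i => (f i : ℂ)) ∈ G
    rw [hmem, conjD_diagonal hrc]
  have hlie : ∀ X ∈ G', ∀ Y ∈ G', X * Y - Y * X ∈ G' := by
    intro X hX Y hY
    rw [hmem] at hX hY ⊢
    rw [map_sub, conjD_mul hrc, conjD_mul hrc]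
    exact lie _ hX _ hY
  have hunit : ∀ i, ‖u i‖ = 1 := by
    intro i
    change ‖om i / ‖om i‖‖ = 1
    rw [norm_div, Complex.norm_real, norm_norm, div_self (norm_ne_zero_iff.2 (h0 i))]
  have htwist : ∀ X ∈ G', diagonal u * Xᴴ * diagonal (fun i => (u i)⁻¹) ∈ G' := by
    intro X hX
    rw [hmem] at hX ⊢
    have h1 := twist _ hX
    have h2 : conjD rc (diagonal u * Xᴴ * diagonal (fun i => (u i)⁻¹)) =
        diagonal om * (conjD rc X)ᴴ * diagonal (fun i => (om i)⁻¹) := by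
      ext i j
      rw [conjD_apply, Matrix.mul_diagonal, Matrix.diagonal_mul, Matrix.mul_diagonal,
        Matrix.diagonal_mul, Matrix.conjTranspose_apply, Matrix.conjTranspose_apply, conjD_apply,
        star_mul', star_mul', star_inv₀]
      have e1 : ∀ k, star (rc k) = rc k := fun k => Complex.conj_ofReal _
      rw [e1, e1]
      have e2 : om i = u i * (rc i * rc i) := by
        change om i = om i / ‖om i‖ * (rc i * rc i)
        rw [hrc2, div_mul_cancel₀ _ (hn i)]
      have e3 : om j = u j * (rc j * rc j) := by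
        change om j = om j / ‖om j‖ * (rc j * rc j)
        rw [hrc2, div_mul_cancel₀ _ (hn j)]
      have e4 : u j ≠ 0 := by
        intro h
        have := hunit j
        rw [h, norm_zero] at this
        exact zero_ne_one this
      rw [e2, e3]
      have e5 := hrc i
      have e6 := hrc j
      field_simp
    rw [h2]
    exact h1
  have hcartan : ∀ X ∈ G', (∀ f ∈ Car G', ∀ i j, X i j ≠ 0 → f i = f j) →
      ∀ i j, i ≠ j → X i j = 0 := by
    intro X hX hf i j hij
    rw [hmem] at hX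
    have h1 := cartan _ hX (fun f hfG a b hab => by
      rw [← hcar] at hfG
      refine hf f hfG a b fun h => hab ?_
      rw [conjD_apply, h, mul_zero, zero_mul]) i j hij
    rw [conjD_apply] at h1
    rcases mul_eq_zero.1 h1 with h2 | h2
    · exact (mul_eq_zero.1 h2).resolve_left (hrc i)
    · exact absurd h2 (inv_ne_zero (hrc j))
  obtain ⟨w, hw⟩ := exists_tw hlie hunit htwist hcartan (fun i j hij => by
    rw [hcar] at hij
    exact uf i j hij)
  have hedge : ∀ i j, Edge G (i, j) → Edge G' (i, j) := by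
    rintro i j ⟨X, hX, h1⟩
    refine ⟨conjD (fun k => (rc k)⁻¹) X, ?_, ?_⟩
    · rw [hmem]
      have h2 : conjD rc (conjD (fun k => (rc k)⁻¹) X) = X := by
        ext a b
        rw [conjD_apply, conjD_apply, inv_inv]
        have e5 := hrc a
        have e6 := hrc b
        field_simp
      rw [h2]
      exact hX
    · rw [conjD_apply]
      exact mul_ne_zero (mul_ne_zero (inv_ne_zero (hrc _)) h1) (inv_ne_zero (inv_ne_zero (hrc _)))
  -- the diagonal matrices which normalise it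
  have hcomm : ∀ (ρ : ι → ℂ) (t : ι → ℂ) (X : Matrix ι ι ℂ),
      conjD ρ (Matrix.of fun i j => t i / t j * X i j) =
        Matrix.of fun i j => t i / t j * conjD ρ X i j := by
    intro ρ t X
    ext i j
    rw [conjD_apply, Matrix.of_apply, Matrix.of_apply, conjD_apply]
    ring
  have hinv : ∀ X : Matrix ι ι ℂ, conjD rc (conjD (fun k => (rc k)⁻¹) X) = X := by
    intro X
    ext a b
    rw [conjD_apply, conjD_apply, inv_inv]
    have e5 := hrc a
    have e6 := hrc b
    field_simp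
  have hnrm : ∀ t, Nrm G t ↔ Nrm G' t := by
    intro t
    constructor
    · intro ht X hX
      rw [hmem] at hX ⊢
      rw [hcomm]
      exact ht _ hX
    · intro ht X hX
      have h1 : conjD (fun k => (rc k)⁻¹) X ∈ G' := by
        rw [hmem, hinv]
        exact hX
      have h2 := ht _ h1
      rw [hmem, hcomm, hinv] at h2
      exact h2
  exact ⟨G', w, hw, hcar, hedge, hnrm⟩


/-- the version of `Tw.quadcode` for a twist which need not be unitary -/
theorem quadcode_scaled {om : ι → ℂ} (h0 : ∀ i, om i ≠ 0)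
    (lie : ∀ X ∈ G, ∀ Y ∈ G, X * Y - Y * X ∈ G)
    (twist : ∀ X ∈ G, diagonal om * Xᴴ * diagonal (fun i => (om i)⁻¹) ∈ G)
    (cartan : ∀ X ∈ G, (∀ f ∈ Car G, ∀ i j, X i j ≠ 0 → f i = f j) → ∀ i j, i ≠ j → X i j = 0)
    (uf : ∀ i j, (∀ f ∈ Car G, f i = f j) → om i / ‖om i‖ = om j / ‖om j‖)
    (hbar : ∀ i, ∃ j, (∀ f ∈ Car G, f i + f j = 0) ∧ om i * om j = 1 ∧ Conn G i j)
    {Pl : Type} [Fintype Pl] [DecidableEq Pl]
    (pl : ι → Pl) (hpl : ∀ i j, pl i = pl j → Conn G i j)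
    (W : Set (Finset ι)) (hW : ∀ I ∈ W, ∀ f ∈ Car G, ∑ i ∈ I, f i = 0)
    (hcode : AddSubgroup.closure (par pl '' W) ≤
      AddSubgroup.closure {v | v ∈ AddSubgroup.closure (par pl '' W) ∧
        ∃ S : Finset Pl, (S.card = 2 ∨ S.card = 4) ∧ v = fun s => if s ∈ S then 1 else 0})
    (hθ : ∀ θ : Finset ι, θ.card = 4 → (∀ i ∈ θ, ∀ j ∈ θ, i ≠ j → ¬ Conn G i j) →
      (∀ f ∈ Car G, ∑ i ∈ θ, f i = 0) →
      (∀ t : ι → ℂ, Gd G t → (∀ I ∈ W, ∏ i ∈ I, t i = 1) → ∏ i ∈ θ, t i = 1) →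
      ∏ i ∈ θ, (om i / ‖om i‖) = 1) :
    ∀ I ∈ W, ∏ i ∈ I, (om i / ‖om i‖) = 1 := by
  obtain ⟨G', w, hw, hcar, hedge, hnrm⟩ := exists_scaled_nrm h0 lie twist cartan uf
  have hconn : ∀ i j, Conn G i j → Conn G' i j := fun i j hij => hij.mono hcar hedge
  have hpair : ∀ i j, om i * om j = 1 → om i / ‖om i‖ * (om j / ‖om j‖) = 1 := by
    intro i j h2
    rw [div_mul_div_comm, h2, ← Complex.ofReal_mul, ← norm_mul, h2, norm_one,
      Complex.ofReal_one, div_one]
  have hu : Gd G' (fun i => om i / ‖om i‖) := by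
    refine ⟨hw.u_ne, hw.nrm_u, fun i j hij => ?_, fun i j hij => ?_⟩
    · rw [hcar] at hij
      exact uf i j hij
    · obtain ⟨k, hk, h1, -⟩ := hbar i
      rw [hcar] at hij
      have h2 : om j / ‖om j‖ = om k / ‖om k‖ := uf j k fun f hf => by
        have a1 := hij f hf
        have a2 := hk f hf
        linarith
      show om i / ‖om i‖ * (om j / ‖om j‖) = 1
      rw [h2]
      exact hpair i k h1
  refine hw.quadcode hu pl (fun i j hij => hconn i j (hpl i j hij)) ?_ W ?_ hcode ?_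
  · intro i
    obtain ⟨j, h1, -, h2⟩ := hbar i
    refine ⟨j, hconn i j h2, ?_⟩
    rw [hcar]
    exact h1
  · rw [hcar]
    exact hW
  · intro θ hc hn hs ht
    refine hθ θ hc (fun i hi j hj hij h1 => hn i hi j hj hij (hconn i j h1)) ?_ ?_
    · rw [hcar] at hs
      exact hs
    · intro t hGd hI
      refine ht t ⟨hGd.ne, (hnrm t).1 hGd.nrm, ?_, ?_⟩ hI
      · rw [hcar]
        exact hGd.same
      · rw [hcar]
        exact hGd.pair

end Pc0b458L
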