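import Pool.Agent.Lib.Pc0b458L.MixedQ

/-!
# Balanced sets of indices have an even number of elements
-/

open Finset

namespace Pc0b458L

open Matrix

variable {ι : Type} [Fintype ι] [DecidableEq ι] {G : Submodule ℂ (Matrix ι ι ℂ)}

omit [Fintype ι] in
/-- a set of indices without real elements on which all skew functions are zero has an even number of
elements -/
theorem Fine.even {bar : ι → ι} {E : ι → ι → Prop} (hE : Fine G bar E) (J : Finset ι)
    (hJ : ∀ i ∈ J, ¬ E i (bar i)) (hb : ∀ d, Skew bar E d → ∑ i ∈ J, d i = 0) :
    Even J.card := by
  classical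
  induction hn : J.card using Nat.strong_induction_on generalizing J with
  | _ n ih =>
    rcases J.eq_empty_or_nonempty with rfl | ⟨a, ha⟩
    · rw [← hn, Finset.card_empty]
      exact Even.zero
    · have hna : ¬ E a (bar a) := hJ a ha
      let d : ι → ℝ := fun k => if E a k then 1 else if E (bar a) k then -1 else 0
      have hd : Skew bar E d := by
        refine ⟨fun i j hij => ?_, fun i => ?_⟩
        · have e1 : E a i ↔ E a j := ⟨fun h1 => hE.equiv.trans h1 hij,
            fun h1 => hE.equiv.trans h1 (hE.equiv.symm hij)⟩
          have e2 : E (bar a) i ↔ E (bar a) j := ⟨fun h1 => hE.equiv.trans h1 hij,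
            fun h1 => hE.equiv.trans h1 (hE.equiv.symm hij)⟩
          simp only [d, e1, e2]
        · have e1 : E a (bar i) ↔ E (bar a) i := ⟨fun h1 => by
              have h2 := hE.opp _ _ h1
              rwa [hE.bar_bar] at h2, fun h1 => by
              have h2 := hE.opp _ _ h1
              rwa [hE.bar_bar] at h2⟩
          have e2 : E (bar a) (bar i) ↔ E a i := ⟨fun h1 => by
              have h2 := hE.opp _ _ h1
              rwa [hE.bar_bar, hE.bar_bar] at h2, fun h1 => hE.opp _ _ h1⟩
          have e3 : ¬ (E a i ∧ E (bar a) i) := fun h1 => hna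
            (hE.equiv.trans h1.1 (hE.equiv.symm h1.2))
          simp only [d, e1, e2]
          by_cases h1 : E a i
          · have h2 : ¬ E (bar a) i := fun h2 => e3 ⟨h1, h2⟩
            rw [if_neg h2, if_pos h1, if_pos h1]
          · by_cases h2 : E (bar a) i
            · rw [if_pos h2, if_neg h1, if_pos h2]
              norm_num
            · rw [if_neg h2, if_neg h1, if_neg h1, if_neg h2]
              norm_num
      have hda : d a = 1 := if_pos (hE.equiv.refl a)
      obtain ⟨b, hbJ, hdb⟩ : ∃ b ∈ J, d b < 0 := by
        by_contra hcon
        push Not at hcon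
        have h1 : 0 < ∑ i ∈ J, d i := by
          refine Finset.sum_pos' (fun i hi => hcon i hi) ⟨a, ha, ?_⟩
          rw [hda]
          exact one_pos
        rw [hb d hd] at h1
        exact lt_irrefl _ h1
      have hcb : E (bar a) b := by
        by_contra hcon
        simp only [d] at hdb
        by_cases h1 : E a b
        · rw [if_pos h1] at hdb
          linarith
        · rw [if_neg h1, if_neg hcon] at hdb
          exact lt_irrefl _ hdb
      have hab : a ≠ b := by
        intro h1
        rw [← h1, hda] at hdb
        linarith
      have hbJ' : b ∈ J.erase a := Finset.mem_erase.2 ⟨hab.symm, hbJ⟩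
      have hc : ((J.erase a).erase b).card = n - 2 := by
        rw [Finset.card_erase_of_mem hbJ', Finset.card_erase_of_mem ha, hn]
        omega
      have hc2 : 2 ≤ n := by
        have h1 := Finset.card_pos.2 ⟨b, hbJ'⟩
        rw [Finset.card_erase_of_mem ha, hn] at h1
        omega
      have h1 := ih (n - 2) (by omega) ((J.erase a).erase b)
        (fun i hi => hJ i (Finset.mem_of_mem_erase (Finset.mem_of_mem_erase hi)))
        (fun d' hd' => by
          have h2 := hb d' hd'
          rw [← Finset.add_sum_erase _ _ ha, ← Finset.add_sum_erase _ _ hbJ'] at h2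
          have h3 := hd'.const (bar a) b hcb
          have h4 := hd'.opp a
          linarith) hc
      obtain ⟨k, hk⟩ := h1
      exact ⟨k + 1, by omega⟩

end Pc0b458L
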