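import Pool.Agent.Lib.Pc0b458L.Star

/-!
# Twisted Lie algebras: brackets of root vectors
-/

namespace Pc0b458L

open Matrix

variable {ι : Type} [Fintype ι] [DecidableEq ι] {G : Submodule ℂ (Matrix ι ι ℂ)} {u : ι → ℂ}
  {w : ι → ℝ}

omit [Fintype ι] in
theorem car_sub {f g : ι → ℝ} (hf : f ∈ Car G) (hg : g ∈ Car G) : (fun i => f i - g i) ∈ Car G := by
  have h1 := G.sub_mem hf hg
  have h2 : diagonal (fun i => ((f i - g i : ℝ) : ℂ)) =
      diagonal (fun i => (f i : ℂ)) - diagonal (fun i => (g i : ℂ)) := by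
    rw [diagonal_sub]; congr 1; ext i; push_cast; ring
  change diagonal (fun i => ((f i - g i : ℝ) : ℂ)) ∈ G
  rw [h2]; exact h1

/-- a coroot is determined by its scalar products -/
theorem coroot_unique {t t' : ι → ℝ} (ht : t ∈ Car G) (ht' : t' ∈ Car G) {b : ℝ}
    (hb : ∀ f ∈ Car G, ∀ i j, w i - w j = b → ∑ k, f k * t k = f i - f j)
    (hb' : ∀ f ∈ Car G, ∀ i j, w i - w j = b → ∑ k, f k * t' k = f i - f j)
    {i j : ι} (hij : w i - w j = b) : t = t' := by
  have h1 := car_sub ht ht'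
  have h2 : ∑ k, (t k - t' k) * (t k - t' k) = 0 := by
    have h3 := hb _ h1 i j hij
    have h4 := hb' _ h1 i j hij
    simp only [mul_sub, Finset.sum_sub_distrib]
    rw [h3, h4, sub_self]
  have h5 := (Finset.sum_eq_zero_iff_of_nonneg fun k _ => mul_self_nonneg (t k - t' k)).1 h2
  ext k
  have := h5 k (Finset.mem_univ k)
  have := mul_self_eq_zero.1 this
  linarith

omit [DecidableEq ι] in
theorem trace_nonneg (P : Matrix ι ι ℂ) : 0 ≤ (P * Pᴴ).trace.re := by
  rw [trace, Complex.re_sum]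
  refine Finset.sum_nonneg fun i _ => ?_
  rw [diag_apply, mul_apply, Complex.re_sum]
  refine Finset.sum_nonneg fun j _ => ?_
  rw [conjTranspose_apply]
  change 0 ≤ (P i j * (starRingEnd ℂ) (P i j)).re
  rw [Complex.mul_conj]
  exact_mod_cast Complex.normSq_nonneg _

omit [DecidableEq ι] in
theorem trace_pos {P : Matrix ι ι ℂ} (hP : P ≠ 0) : 0 < (P * Pᴴ).trace.re := by
  rcases lt_or_eq_of_le (trace_nonneg P) with h | h
  · exact h
  · exfalso
    apply hP
    ext i j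
    rw [trace, Complex.re_sum] at h
    have h1 := (Finset.sum_eq_zero_iff_of_nonneg (fun i _ => by
      rw [diag_apply, mul_apply, Complex.re_sum]
      refine Finset.sum_nonneg fun j _ => ?_
      rw [conjTranspose_apply]
      change 0 ≤ (P i j * (starRingEnd ℂ) (P i j)).re
      rw [Complex.mul_conj]
      exact_mod_cast Complex.normSq_nonneg _)).1 h.symm i (Finset.mem_univ i)
    rw [diag_apply, mul_apply, Complex.re_sum] at h1
    have h2 := (Finset.sum_eq_zero_iff_of_nonneg (fun j _ => by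
      rw [conjTranspose_apply]
      change 0 ≤ (P i j * (starRingEnd ℂ) (P i j)).re
      rw [Complex.mul_conj]
      exact_mod_cast Complex.normSq_nonneg _)).1 h1 j (Finset.mem_univ j)
    rw [conjTranspose_apply] at h2
    change (P i j * (starRingEnd ℂ) (P i j)).re = 0 at h2
    rw [Complex.mul_conj, Complex.ofReal_re] at h2
    rw [Complex.normSq_eq_zero.1 h2, Matrix.zero_apply]

omit [DecidableEq ι] in
/-- the trace form of two brackets -/
theorem trace_bracket (X Z : Matrix ι ι ℂ) :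
    ((Xᴴ * Z - Z * Xᴴ) * (Xᴴ * Z - Z * Xᴴ)ᴴ).trace -
      ((X * Z - Z * X) * (X * Z - Z * X)ᴴ).trace =
      (((X * Xᴴ - Xᴴ * X) * Z - Z * (X * Xᴴ - Xᴴ * X)) * Zᴴ).trace := by
  simp only [conjTranspose_sub, conjTranspose_mul, conjTranspose_conjTranspose, Matrix.sub_mul,
    Matrix.mul_sub, trace_sub]
  have a1 : (Xᴴ * Z * (Zᴴ * X)).trace = (X * Xᴴ * Z * Zᴴ).trace := by
    rw [← Matrix.mul_assoc, Matrix.trace_mul_comm]; simp only [Matrix.mul_assoc]
  have a2 : (Z * Xᴴ * (Zᴴ * X)).trace = (X * Z * (Xᴴ * Zᴴ)).trace := by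
    rw [← Matrix.mul_assoc, Matrix.trace_mul_comm]; simp only [Matrix.mul_assoc]
  have a3 : (Xᴴ * Z * (X * Zᴴ)).trace = (Z * X * (Zᴴ * Xᴴ)).trace := by
    rw [Matrix.mul_assoc, Matrix.trace_mul_comm]; simp only [Matrix.mul_assoc]
  have a4 : (X * Z * (Zᴴ * Xᴴ)).trace = (Xᴴ * X * Z * Zᴴ).trace := by
    rw [← Matrix.mul_assoc, Matrix.trace_mul_comm]; simp only [Matrix.mul_assoc]
  have a5 : (Z * Xᴴ * (X * Zᴴ)).trace = (Z * (Xᴴ * X) * Zᴴ).trace := by
    simp only [Matrix.mul_assoc]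
  have a6 : (Z * X * (Xᴴ * Zᴴ)).trace = (Z * (X * Xᴴ) * Zᴴ).trace := by
    simp only [Matrix.mul_assoc]
  rw [a1, a2, a3, a4, a5, a6]
  ring

/-- two roots with negative scalar product -/
theorem Tw.bracket (h : Tw G u w) {X Z : Matrix ι ι ℂ} (hX : X ∈ G) (hZ : Z ∈ G) {b d : ℝ}
    (hb : b ≠ 0) (hd : d ≠ 0) (hXb : Sup w b X) (hZd : Sup w d Z) (hX0 : X ≠ 0) (hZ0 : Z ≠ 0)
    {t s : ι → ℝ} (ht : t ∈ Car G) (hs : s ∈ Car G)
    (htb : ∀ f ∈ Car G, ∀ i j, w i - w j = b → ∑ k, f k * t k = f i - f j)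
    (hsd : ∀ f ∈ Car G, ∀ i j, w i - w j = d → ∑ k, f k * s k = f i - f j)
    (hneg : ∑ k, t k * s k < 0) : X * Z - Z * X ≠ 0 := by
  intro h0
  obtain ⟨t', ht', htb', κ, hκ, hX1⟩ := h.coroot_of_star hX (h.star hX) hXb hX0
  obtain ⟨i, j, hij⟩ : ∃ i j, X i j ≠ 0 := by
    by_contra hc
    exact hX0 (by ext i j; by_contra hne; exact hc ⟨i, j, hne⟩)
  obtain rfl := coroot_unique ht ht' htb htb' (hXb i j hij)
  have h1 := trace_bracket X Z
  rw [h0, hX1] at h1
  simp only [Matrix.zero_mul, trace_zero, sub_zero] at h1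
  have h2 : diagonal (fun i => ((κ * t i : ℝ) : ℂ)) * Z - Z * diagonal (fun i => ((κ * t i : ℝ) : ℂ)) =
      ((κ * ∑ k, t k * s k : ℝ) : ℂ) • Z := by
    ext i j
    rw [Matrix.sub_apply, diagonal_mul, mul_diagonal, Matrix.smul_apply, smul_eq_mul]
    by_cases h3 : Z i j = 0
    · simp [h3]
    · have h4 := hsd t ht i j (hZd i j h3)
      rw [h4]
      push_cast
      ring
  rw [h2, Matrix.smul_mul, trace_smul, smul_eq_mul] at h1
  have h3 := trace_nonneg (Xᴴ * Z - Z * Xᴴ)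
  rw [h1, Complex.re_ofReal_mul] at h3
  have h4 := trace_pos hZ0
  have h5 : κ * ∑ k, t k * s k < 0 := mul_neg_of_pos_of_neg hκ hneg
  nlinarith

end Pc0b458L
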