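import Pool.Agent.Lib.Pc0b458L.Comp
import Pool.Agent.Lib.Pc0b458L.String

/-!
# Twisted Lie algebras: stable under the adjoint
-/

namespace Pc0b458L

open Matrix

variable {ι : Type} [Fintype ι] [DecidableEq ι] {G : Submodule ℂ (Matrix ι ι ℂ)} {u : ι → ℂ}
  {w : ι → ℝ}

omit [DecidableEq ι] in
/-- a matrix is the sum of its components -/
theorem sum_comp (w : ι → ℝ) (X : Matrix ι ι ℂ) :
    ∑ b ∈ Finset.univ.image (fun p : ι × ι => w p.1 - w p.2), comp w b X = X := by
  ext i j
  rw [Matrix.sum_apply]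
  simp only [comp, of_apply]
  rw [Finset.sum_ite_eq]
  exact if_pos (Finset.mem_image.2 ⟨(i, j), Finset.mem_univ _, rfl⟩)

omit [Fintype ι] [DecidableEq ι] in
theorem comp_sup (w : ι → ℝ) (b : ℝ) (X : Matrix ι ι ℂ) : Sup w b (comp w b X) := by
  intro i j h
  by_contra hne
  exact h (by simp [comp, hne])

/-- if `u` is, up to a constant, the same at both ends of the support of `X`, then the twist of `X`
is a multiple of the adjoint -/
theorem Tw.star_of (h : Tw G u w) {X : Matrix ι ι ℂ} (hX : X ∈ G) {b : ℝ} (hs : Sup w b X)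
    {c : ℂ} (hc : ‖c‖ = 1) (hu : ∀ i j, w i - w j = b → u i = c * u j) : Xᴴ ∈ G := by
  have hc0 : c ≠ 0 := fun h0 => by simp [h0] at hc
  have hu0 : ∀ i, u i ≠ 0 := fun i h0 => by have := h.unit i; simp [h0] at this
  have h1 := G.smul_mem c (h.twist X hX)
  convert h1 using 1
  ext i j
  rw [Matrix.smul_apply, mul_diagonal, diagonal_mul, conjTranspose_apply, smul_eq_mul]
  by_cases h2 : X j i = 0
  · simp [h2]
  · rw [hu j i (hs j i h2)]
    have := hu0 i
    field_simp

/-- `G` is stable under the adjoint -/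
theorem Tw.star (h : Tw G u w) {X : Matrix ι ι ℂ} (hX : X ∈ G) : Xᴴ ∈ G := by
  rw [← sum_comp w X, conjTranspose_sum]
  refine G.sum_mem fun b _ => ?_
  have h1 := h.comp_mem hX b
  have h2 := comp_sup w b X
  rcases eq_or_ne b 0 with rfl | hb
  · exact h.star_of h1 h2 (c := 1) (by simp) fun i j hij => by
      rw [one_mul]; exact h.uw i j (by linarith)
  · rcases eq_or_ne (comp w b X) 0 with h0 | h0
    · rw [h0, conjTranspose_zero]; exact G.zero_mem
    · obtain ⟨c, hc, hu⟩ := h.string h1 hb h2 h0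
      exact h.star_of h1 h2 hc hu

end Pc0b458L
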