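import Pool.Agent.Lib.Pc0b458L.Comp
import Pool.Agent.Lib.Pc0b458L.String
import Pool.Agent.Lib.Pc0b458L.Star
import Pool.Agent.Lib.Pc0b458L.Bracket

/-!
# A list of edges whose roots have sum zero
-/

namespace Pc0b458L

open Matrix

variable {ι : Type} [Fintype ι] [DecidableEq ι] {G : Submodule ℂ (Matrix ι ι ℂ)} {u : ι → ℂ}
  {w : ι → ℝ}

/-- an edge: a pair of indices connected by an element of `G` -/
def Edge (G : Submodule ℂ (Matrix ι ι ℂ)) (e : ι × ι) : Prop := ∃ X ∈ G, X e.1 e.2 ≠ 0

/-- the component of an edge -/
theorem Tw.edge_comp (h : Tw G u w) {e : ι × ι} (he : Edge G e) :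
    ∃ X ∈ G, Sup w (w e.1 - w e.2) X ∧ X e.1 e.2 ≠ 0 := by
  obtain ⟨X, hX, hne⟩ := he
  refine ⟨comp w (w e.1 - w e.2) X, h.comp_mem hX _, ?_, ?_⟩
  · intro i j hij
    by_contra hc
    exact hij (by simp [comp, hc])
  · simpa [comp] using hne

omit [Fintype ι] [DecidableEq ι] in
theorem ne_zero_of_entry {X : Matrix ι ι ℂ} {i j : ι} (h : X i j ≠ 0) : X ≠ 0 := by
  rintro rfl
  exact h rfl

/-- the coroot of an edge -/
theorem Tw.edge_coroot (h : Tw G u w) {e : ι × ι} (he : Edge G e) :
    ∃ t ∈ Car G, ∀ f ∈ Car G, ∀ i j, w i - w j = w e.1 - w e.2 →
      ∑ k, f k * t k = f i - f j := by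
  obtain ⟨X, hX, hs, hne⟩ := h.edge_comp he
  obtain ⟨t, ht, h1, -⟩ := h.coroot_of_star hX (h.star hX) hs (ne_zero_of_entry hne)
  exact ⟨t, ht, h1⟩

/-- M7: a list of edges whose roots have sum zero -/
theorem Tw.list_prod (h : Tw G u w) (l : List (ι × ι)) (hl : ∀ e ∈ l, Edge G e)
    (h0 : ∀ f ∈ Car G, (l.map fun e => f e.1 - f e.2).sum = 0) :
    (l.map fun e => u e.1 / u e.2).prod = 1 := by
  classical
  induction hn : l.length using Nat.strong_induction_on generalizing l with
  | _ n ih =>
    match l, hl, h0, hn with
    | [], _, _, _ => simp
    | e :: l', hl, h0, hn =>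
      by_cases hd : w e.1 - w e.2 = 0
      · have hu : u e.1 / u e.2 = 1 := by
          rw [h.uw e.1 e.2 (sub_eq_zero.mp hd)]
          exact div_self (h.u_ne _)
        have := ih l'.length (by simp [← hn]) l' (fun x hx => hl x (List.mem_cons_of_mem _ hx))
          (fun f hf => by
            have h1 := h0 f hf
            rw [List.map_cons, List.sum_cons] at h1
            have h2 : f e.1 - f e.2 = 0 := by
              have := h.gen f hf e.1 e.2 e.1 e.1 (by rw [hd, sub_self])
              rwa [sub_self] at this
            rwa [h2, zero_add] at h1) rfl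
        rw [List.map_cons, List.prod_cons, hu, one_mul, this]
      · obtain ⟨t, ht, htb⟩ := h.edge_coroot (hl e List.mem_cons_self)
        -- some other edge has a negative scalar product with the first one
        have hpos : 0 < t e.1 - t e.2 := by
          have h1 := htb t ht e.1 e.2 rfl
          rw [← h1]
          have h2 : 0 ≤ ∑ k, t k * t k := Finset.sum_nonneg fun k _ => mul_self_nonneg _
          rcases h2.lt_or_eq with h3 | h3
          · exact h3
          · exfalso
            have h4 : ∀ k, t k = 0 := fun k => by
              have := (Finset.sum_eq_zero_iff_of_nonneg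
                (fun k _ => mul_self_nonneg (t k))).mp h3.symm k (Finset.mem_univ k)
              exact mul_self_eq_zero.mp this
            have h5 := htb w h.mem e.1 e.2 rfl
            simp only [h4, mul_zero, Finset.sum_const_zero] at h5
            exact hd h5.symm
        have hex : ∃ e' ∈ l', t e'.1 - t e'.2 < 0 := by
          by_contra hc
          push Not at hc
          have h1 := h0 t ht
          rw [List.map_cons, List.sum_cons] at h1
          have h2 : 0 ≤ (l'.map fun e => t e.1 - t e.2).sum := by
            apply List.sum_nonneg
            intro x hx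
            obtain ⟨y, hy, rfl⟩ := List.mem_map.mp hx
            exact hc y hy
          linarith
        obtain ⟨e', he', hneg⟩ := hex
        have hd' : w e'.1 - w e'.2 ≠ 0 := by
          intro hz
          have := h.gen t ht e'.1 e'.2 e'.1 e'.1 (by rw [hz, sub_self])
          rw [sub_self] at this
          rw [this] at hneg
          exact lt_irrefl _ hneg
        have heE' := hl e' (List.mem_cons_of_mem _ he')
        obtain ⟨s, hs, hsb⟩ := h.edge_coroot heE'
        obtain ⟨X, hX, hXs, hXne⟩ := h.edge_comp (hl e List.mem_cons_self)
        obtain ⟨Z, hZ, hZs, hZne⟩ := h.edge_comp heE'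
        have hsc : ∑ k, t k * s k < 0 := by
          rw [hsb t ht e'.1 e'.2 rfl]
          exact hneg
        have hY := h.bracket hX hZ hd hd' hXs hZs (ne_zero_of_entry hXne) (ne_zero_of_entry hZne)
          ht hs htb hsb hsc
        have hYG := h.lie X hX Z hZ
        obtain ⟨c, -, hc⟩ := h.string hX hd hXs (ne_zero_of_entry hXne)
        obtain ⟨c', -, hc'⟩ := h.string hZ hd' hZs (ne_zero_of_entry hZne)
        -- an entry of the bracket
        obtain ⟨i, j, hij⟩ : ∃ i j, (X * Z - Z * X) i j ≠ 0 := by
          by_contra hcon
          push Not at hcon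
          exact hY (by ext i j; exact hcon i j)
        have hkey : (∀ f ∈ Car G, f i - f j = (f e.1 - f e.2) + (f e'.1 - f e'.2)) ∧
            u i / u j = (u e.1 / u e.2) * (u e'.1 / u e'.2) := by
          have hcases : (∃ m, X i m ≠ 0 ∧ Z m j ≠ 0) ∨ (∃ m, Z i m ≠ 0 ∧ X m j ≠ 0) := by
            by_contra hcon
            push Not at hcon
            apply hij
            rw [Matrix.sub_apply, Matrix.mul_apply, Matrix.mul_apply]
            rw [Finset.sum_eq_zero, Finset.sum_eq_zero, sub_zero]
            · intro m _
              by_cases h1 : Z i m = 0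
              · rw [h1, zero_mul]
              · rw [hcon.2 m h1, mul_zero]
            · intro m _
              by_cases h1 : X i m = 0
              · rw [h1, zero_mul]
              · rw [hcon.1 m h1, mul_zero]
          have ue : u e.1 / u e.2 = c := by
            rw [hc e.1 e.2 rfl]
            field_simp [h.u_ne e.2]
          have ue' : u e'.1 / u e'.2 = c' := by
            rw [hc' e'.1 e'.2 rfl]
            field_simp [h.u_ne e'.2]
          rcases hcases with ⟨m, h1, h2⟩ | ⟨m, h1, h2⟩
          · have a1 := hXs i m h1
            have a2 := hZs m j h2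
            refine ⟨fun f hf => ?_, ?_⟩
            · have b1 := h.gen f hf i m e.1 e.2 a1
              have b2 := h.gen f hf m j e'.1 e'.2 a2
              linarith
            · rw [ue, ue', hc i m a1, hc' m j a2]
              field_simp [h.u_ne j]
          · have a1 := hZs i m h1
            have a2 := hXs m j h2
            refine ⟨fun f hf => ?_, ?_⟩
            · have b1 := h.gen f hf i m e'.1 e'.2 a1
              have b2 := h.gen f hf m j e.1 e.2 a2
              linarith
            · rw [ue, ue', hc' i m a1, hc m j a2]
              field_simp [h.u_ne j]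
        have hperm := List.perm_cons_erase he'
        have hlen : (l'.erase e').length + 1 = l'.length := by
          rw [hperm.length_eq, List.length_cons]
        have hih := ih ((i, j) :: l'.erase e').length (by
            rw [List.length_cons, hlen, ← hn, List.length_cons]
            exact Nat.lt_succ_self _) ((i, j) :: l'.erase e')
          (fun x hx => by
            rcases List.mem_cons.mp hx with rfl | hx
            · exact ⟨_, hYG, hij⟩
            · exact hl x (List.mem_cons_of_mem _ (List.mem_of_mem_erase hx)))
          (fun f hf => by
            have h1 := h0 f hf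
            rw [List.map_cons, List.sum_cons, (hperm.map _).sum_eq, List.map_cons,
              List.sum_cons] at h1
            rw [List.map_cons, List.sum_cons]
            show f i - f j + _ = 0
            rw [hkey.1 f hf]
            linarith) rfl
        rw [List.map_cons, List.prod_cons] at hih
        rw [List.map_cons, List.prod_cons, (hperm.map _).prod_eq, List.map_cons, List.prod_cons,
          ← mul_assoc, ← hkey.2]
        exact hih

end Pc0b458L
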