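import Pool.Agent.Lib.Pc0b458L.Gen

/-!
# Twists by diagonal matrices which are not unitary: conjugation
-/

namespace Pc0b458L

open Matrix

variable {ι : Type} [Fintype ι] [DecidableEq ι] {G : Submodule ℂ (Matrix ι ι ℂ)}

/-- conjugation by a diagonal matrix -/
noncomputable def conjD (ρ : ι → ℂ) : Matrix ι ι ℂ →ₗ[ℂ] Matrix ι ι ℂ where
  toFun X := diagonal ρ * X * diagonal (fun i => (ρ i)⁻¹)
  map_add' X Y := by rw [mul_add, add_mul]
  map_smul' c X := by rw [mul_smul_comm, smul_mul_assoc, RingHom.id_apply]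

theorem conjD_apply (ρ : ι → ℂ) (X : Matrix ι ι ℂ) (i j : ι) :
    conjD ρ X i j = ρ i * X i j * (ρ j)⁻¹ := by
  change (diagonal ρ * X * diagonal (fun i => (ρ i)⁻¹)) i j = _
  rw [Matrix.mul_diagonal, Matrix.diagonal_mul]

theorem conjD_mul {ρ : ι → ℂ} (hρ : ∀ i, ρ i ≠ 0) (X Y : Matrix ι ι ℂ) :
    conjD ρ (X * Y) = conjD ρ X * conjD ρ Y := by
  have h1 : diagonal (fun i => (ρ i)⁻¹) * diagonal ρ = (1 : Matrix ι ι ℂ) := by
    rw [Matrix.diagonal_mul_diagonal]
    have : (fun i => (ρ i)⁻¹ * ρ i) = fun _ => (1 : ℂ) := by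
      funext i
      exact inv_mul_cancel₀ (hρ i)
    rw [this, Matrix.diagonal_one]
  change diagonal ρ * (X * Y) * diagonal (fun i => (ρ i)⁻¹) =
    diagonal ρ * X * diagonal (fun i => (ρ i)⁻¹) * (diagonal ρ * Y * diagonal (fun i => (ρ i)⁻¹))
  calc diagonal ρ * (X * Y) * diagonal (fun i => (ρ i)⁻¹)
      = diagonal ρ * X * (1 : Matrix ι ι ℂ) * Y * diagonal (fun i => (ρ i)⁻¹) := by
        simp only [mul_one, mul_assoc]
    _ = _ := by
        rw [← h1]
        simp only [mul_assoc]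

theorem conjD_diagonal {ρ : ι → ℂ} (hρ : ∀ i, ρ i ≠ 0) (p : ι → ℂ) :
    conjD ρ (diagonal p) = diagonal p := by
  change diagonal ρ * diagonal p * diagonal (fun i => (ρ i)⁻¹) = diagonal p
  rw [Matrix.diagonal_mul_diagonal, Matrix.diagonal_mul_diagonal]
  congr 1
  funext i
  rw [mul_comm (ρ i), mul_assoc, mul_inv_cancel₀ (hρ i), mul_one]

/-- A Lie algebra of matrices with a twist by a diagonal matrix which need not be unitary is
conjugate, by a diagonal matrix, to one with a unitary twist. -/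
theorem exists_scaled {om : ι → ℂ} (h0 : ∀ i, om i ≠ 0)
    (lie : ∀ X ∈ G, ∀ Y ∈ G, X * Y - Y * X ∈ G)
    (twist : ∀ X ∈ G, diagonal om * Xᴴ * diagonal (fun i => (om i)⁻¹) ∈ G)
    (cartan : ∀ X ∈ G, (∀ f ∈ Car G, ∀ i j, X i j ≠ 0 → f i = f j) → ∀ i j, i ≠ j → X i j = 0)
    (uf : ∀ i j, (∀ f ∈ Car G, f i = f j) → om i / ‖om i‖ = om j / ‖om j‖) :
    ∃ (G' : Submodule ℂ (Matrix ι ι ℂ)) (w : ι → ℝ), Tw G' (fun i => om i / ‖om i‖) w ∧
      Car G' = Car G ∧ ∀ i j, (∃ X ∈ G, X i j ≠ 0) → ∃ X ∈ G', X i j ≠ 0 := by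
  let ρ : ι → ℝ := fun i => Real.sqrt ‖om i‖
  have hρ0 : ∀ i, 0 < ρ i := fun i => Real.sqrt_pos.2 (norm_pos_iff.2 (h0 i))
  have hρ2 : ∀ i, ρ i * ρ i = ‖om i‖ := fun i => Real.mul_self_sqrt (norm_nonneg _)
  let rc : ι → ℂ := fun i => (ρ i : ℂ)
  have hrc : ∀ i, rc i ≠ 0 := fun i => Complex.ofReal_ne_zero.2 (hρ0 i).ne'
  have hrc2 : ∀ i, rc i * rc i = (‖om i‖ : ℂ) := fun i => by
    rw [← hρ2 i, Complex.ofReal_mul]
  have hn : ∀ i, ((‖om i‖ : ℝ) : ℂ) ≠ 0 := fun i =>
    Complex.ofReal_ne_zero.2 (norm_ne_zero_iff.2 (h0 i))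
  let u : ι → ℂ := fun i => om i / ‖om i‖
  let G' : Submodule ℂ (Matrix ι ι ℂ) := G.comap (conjD rc)
  have hmem : ∀ X, X ∈ G' ↔ conjD rc X ∈ G := fun X => Submodule.mem_comap
  have hcar : Car G' = Car G := by
    ext f
    change diagonal (fun i => (f i : ℂ)) ∈ G' ↔ diagonal (fun i => (f i : ℂ)) ∈ G
    rw [hmem, conjD_diagonal hrc]
  have hlie : ∀ X ∈ G', ∀ Y ∈ G', X * Y - Y * X ∈ G' := by
    intro X hX Y hY
    rw [hmem] at hX hY ⊢
    rw [map_sub, conjD_mul hrc, conjD_mul hrc]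
    exact lie _ hX _ hY
  have hunit : ∀ i, ‖u i‖ = 1 := by
    intro i
    change ‖om i / ‖om i‖‖ = 1
    rw [norm_div, Complex.norm_real, norm_norm, div_self (norm_ne_zero_iff.2 (h0 i))]
  have htwist : ∀ X ∈ G', diagonal u * Xᴴ * diagonal (fun i => (u i)⁻¹) ∈ G' := by
    intro X hX
    rw [hmem] at hX ⊢
    have h1 := twist _ hX
    have h2 : conjD rc (diagonal u * Xᴴ * diagonal (fun i => (u i)⁻¹)) =
        diagonal om * (conjD rc X)ᴴ * diagonal (fun i => (om i)⁻¹) := by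
      ext i j
      rw [conjD_apply, Matrix.mul_diagonal, Matrix.diagonal_mul, Matrix.mul_diagonal,
        Matrix.diagonal_mul, Matrix.conjTranspose_apply, Matrix.conjTranspose_apply, conjD_apply,
        star_mul', star_mul', star_inv₀]
      have e1 : ∀ k, star (rc k) = rc k := fun k => Complex.conj_ofReal _
      rw [e1, e1]
      have e2 : om i = u i * (rc i * rc i) := by
        change om i = om i / ‖om i‖ * (rc i * rc i)
        rw [hrc2, div_mul_cancel₀ _ (hn i)]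
      have e3 : om j = u j * (rc j * rc j) := by
        change om j = om j / ‖om j‖ * (rc j * rc j)
        rw [hrc2, div_mul_cancel₀ _ (hn j)]
      have e4 : u j ≠ 0 := by
        intro h
        have := hunit j
        rw [h, norm_zero] at this
        exact zero_ne_one this
      rw [e2, e3]
      have e5 := hrc i
      have e6 := hrc j
      field_simp
    rw [h2]
    exact h1
  have hcartan : ∀ X ∈ G', (∀ f ∈ Car G', ∀ i j, X i j ≠ 0 → f i = f j) →
      ∀ i j, i ≠ j → X i j = 0 := by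
    intro X hX hf i j hij
    rw [hmem] at hX
    have h1 := cartan _ hX (fun f hfG a b hab => by
      rw [← hcar] at hfG
      refine hf f hfG a b fun h => hab ?_
      rw [conjD_apply, h, mul_zero, zero_mul]) i j hij
    rw [conjD_apply] at h1
    rcases mul_eq_zero.1 h1 with h2 | h2
    · exact (mul_eq_zero.1 h2).resolve_left (hrc i)
    · exact absurd h2 (inv_ne_zero (hrc j))
  obtain ⟨w, hw⟩ := exists_tw hlie hunit htwist hcartan (fun i j hij => by
    rw [hcar] at hij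
    exact uf i j hij)
  have hedge : ∀ i j, (∃ X ∈ G, X i j ≠ 0) → ∃ X ∈ G', X i j ≠ 0 := by
    rintro i j ⟨X, hX, h1⟩
    refine ⟨conjD (fun k => (rc k)⁻¹) X, ?_, ?_⟩
    · rw [hmem]
      have h2 : conjD rc (conjD (fun k => (rc k)⁻¹) X) = X := by
        ext a b
        rw [conjD_apply, conjD_apply, inv_inv]
        have e5 := hrc a
        have e6 := hrc b
        field_simp
      rw [h2]
      exact hX
    · rw [conjD_apply]
      exact mul_ne_zero (mul_ne_zero (inv_ne_zero (hrc _)) h1) (inv_ne_zero (inv_ne_zero (hrc _)))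
  exact ⟨G', w, hw, hcar, hedge⟩

end Pc0b458L
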