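import Pool.Agent.Lib.Pc0b458L.Coroot
import Pool.Agent.Lib.Pc0b458L.ListProd
import Pool.Agent.Lib.Pc0b458L.Scale0

/-!
# The central part of a diagonal element

A real diagonal element is the sum of a central one and of a combination of coroots, and the matrices
which commute with the Lie algebra are orthogonal to the coroots.
-/

namespace Pc0b458L

open Matrix

variable {ι : Type} [Fintype ι] [DecidableEq ι] {G : Submodule ℂ (Matrix ι ι ℂ)} {u : ι → ℂ}
  {w : ι → ℝ}

/-- the trace of the product of a matrix and of a diagonal matrix -/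
theorem trace_mul_diagonal (W : Matrix ι ι ℂ) (p : ι → ℂ) :
    trace (W * diagonal p) = ∑ i, W i i * p i := by
  rw [Matrix.trace]
  refine Finset.sum_congr rfl fun i _ => ?_
  rw [Matrix.diag_apply, Matrix.mul_diagonal]

/-- the diagonal elements which are orthogonal to the matrices which commute with `G` -/
def orth (G : Submodule ℂ (Matrix ι ι ℂ)) : Submodule ℝ (EuclideanSpace ℝ ι) where
  carrier := {t | (fun i => t i) ∈ Car G ∧
    ∀ W : Matrix ι ι ℂ, (∀ X ∈ G, W * X = X * W) → ∑ i, W i i * ((t i : ℝ) : ℂ) = 0}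
  zero_mem' := by
    refine ⟨(carSub G).zero_mem, fun W _ => ?_⟩
    simp
  add_mem' := by
    rintro a b ⟨ha, ha'⟩ ⟨hb, hb'⟩
    refine ⟨(carSub G).add_mem ha hb, fun W hW => ?_⟩
    have h1 : ∀ i, W i i * (((a + b) i : ℝ) : ℂ) =
        W i i * ((a i : ℝ) : ℂ) + W i i * ((b i : ℝ) : ℂ) := by
      intro i
      rw [PiLp.add_apply]
      push_cast
      ring
    rw [Finset.sum_congr rfl fun i _ => h1 i, Finset.sum_add_distrib, ha' W hW, hb' W hW, add_zero]
  smul_mem' := by
    rintro r a ⟨ha, ha'⟩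
    refine ⟨(carSub G).smul_mem r ha, fun W hW => ?_⟩
    have h1 : ∀ i, W i i * (((r • a) i : ℝ) : ℂ) = (r : ℂ) * (W i i * ((a i : ℝ) : ℂ)) := by
      intro i
      rw [PiLp.smul_apply, smul_eq_mul]
      push_cast
      ring
    rw [Finset.sum_congr rfl fun i _ => h1 i, ← Finset.mul_sum, ha' W hW, mul_zero]

/-- the central part of a real diagonal element -/
theorem Tw.proj (h : Tw G u w) {f : ι → ℝ} (hf : f ∈ Car G) :
    ∃ c ∈ Car G, (∀ i j, Edge G (i, j) → c i = c j) ∧
      ∀ W : Matrix ι ι ℂ, (∀ X ∈ G, W * X = X * W) →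
        ∑ i, W i i * (f i : ℂ) = ∑ i, W i i * (c i : ℂ) := by
  obtain ⟨y, hy, z, hz, hyz⟩ :=
    Submodule.exists_add_mem_mem_orthogonal (K := orth G)
      (WithLp.toLp 2 f : EuclideanSpace ℝ ι)
  have hfi : ∀ i, f i = y i + z i := by
    intro i
    have h1 := congrArg (fun v : EuclideanSpace ℝ ι => v i) hyz
    simpa using h1
  have hzC : (fun i => z i) ∈ Car G := by
    have h1 : (fun i => z i) = f - fun i => y i := by
      funext i
      rw [Pi.sub_apply, hfi i]
      ring
    rw [h1]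
    exact (carSub G).sub_mem hf hy.1
  refine ⟨fun i => z i, hzC, ?_, ?_⟩
  · intro i j hij
    by_cases hb : w i - w j = 0
    · have h1 := h.gen _ hzC i j i i (by rw [hb, sub_self])
      rw [sub_self] at h1
      exact sub_eq_zero.1 h1
    · obtain ⟨X, hX, hXs, hXne⟩ := h.edge_comp hij
      obtain ⟨t, ht, htb, κ, hκ, hXX⟩ := h.coroot hX hb hXs (ne_zero_of_entry hXne)
      have htU : (WithLp.toLp 2 t : EuclideanSpace ℝ ι) ∈ orth G := by
        refine ⟨ht, fun W hW => ?_⟩
        have hXst : Xᴴ ∈ G := h.star hX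
        have h1 : trace (W * (X * Xᴴ - Xᴴ * X)) = 0 := by
          rw [mul_sub, trace_sub, sub_eq_zero]
          calc trace (W * (X * Xᴴ)) = trace ((W * X) * Xᴴ) := by rw [mul_assoc]
            _ = trace ((X * W) * Xᴴ) := by rw [hW X hX]
            _ = trace (X * (W * Xᴴ)) := by rw [mul_assoc]
            _ = trace ((W * Xᴴ) * X) := trace_mul_comm _ _
            _ = trace (W * (Xᴴ * X)) := by rw [mul_assoc]
        rw [hXX, trace_mul_diagonal] at h1
        have h2 : ∑ i, W i i * (((κ * t i : ℝ)) : ℂ) =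
            (κ : ℂ) * ∑ i, W i i * ((t i : ℝ) : ℂ) := by
          rw [Finset.mul_sum]
          refine Finset.sum_congr rfl fun i _ => ?_
          push_cast
          ring
        rw [h2] at h1
        exact (mul_eq_zero.1 h1).resolve_left (Complex.ofReal_ne_zero.2 hκ.ne')
      have h1 : inner ℝ (WithLp.toLp 2 t : EuclideanSpace ℝ ι) z = 0 :=
        (Submodule.mem_orthogonal _ _).1 hz _ htU
      have h2 : ∑ k, z k * t k = 0 := by
        rw [PiLp.inner_apply] at h1
        rw [← h1]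
        refine Finset.sum_congr rfl fun k _ => ?_
        simp [mul_comm]
      have h3 := htb _ hzC i j rfl
      rw [h2] at h3
      exact (sub_eq_zero.1 h3.symm)
  · intro W hW
    have h1 : ∀ i, W i i * (f i : ℂ) = W i i * ((y i : ℝ) : ℂ) + W i i * ((z i : ℝ) : ℂ) := by
      intro i
      rw [hfi i]
      push_cast
      ring
    rw [Finset.sum_congr rfl fun i _ => h1 i, Finset.sum_add_distrib, hy.2 W hW, zero_add]

/-- A Lie algebra of matrices with a twist by a diagonal matrix which need not be unitary is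
conjugate, by a diagonal matrix, to one with a unitary twist. -/
theorem exists_scaled_conj {om : ι → ℂ} (h0 : ∀ i, om i ≠ 0)
    (lie : ∀ X ∈ G, ∀ Y ∈ G, X * Y - Y * X ∈ G)
    (twist : ∀ X ∈ G, diagonal om * Xᴴ * diagonal (fun i => (om i)⁻¹) ∈ G)
    (cartan : ∀ X ∈ G, (∀ f ∈ Car G, ∀ i j, X i j ≠ 0 → f i = f j) → ∀ i j, i ≠ j → X i j = 0)
    (uf : ∀ i j, (∀ f ∈ Car G, f i = f j) → om i / ‖om i‖ = om j / ‖om j‖) :
    ∃ (rc : ι → ℂ) (w : ι → ℝ), (∀ i, rc i ≠ 0) ∧
      Tw (G.comap (conjD rc)) (fun i => om i / ‖om i‖) w := by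
  let ρ : ι → ℝ := fun i => Real.sqrt ‖om i‖
  have hρ0 : ∀ i, 0 < ρ i := fun i => Real.sqrt_pos.2 (norm_pos_iff.2 (h0 i))
  have hρ2 : ∀ i, ρ i * ρ i = ‖om i‖ := fun i => Real.mul_self_sqrt (norm_nonneg _)
  let rc : ι → ℂ := fun i => (ρ i : ℂ)
  have hrc : ∀ i, rc i ≠ 0 := fun i => Complex.ofReal_ne_zero.2 (hρ0 i).ne'
  have hrc2 : ∀ i, rc i * rc i = (‖om i‖ : ℂ) := fun i => by
    rw [← hρ2 i, Complex.ofReal_mul]
  have hn : ∀ i, ((‖om i‖ : ℝ) : ℂ) ≠ 0 := fun i =>
    Complex.ofReal_ne_zero.2 (norm_ne_zero_iff.2 (h0 i))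
  let u : ι → ℂ := fun i => om i / ‖om i‖
  let G' : Submodule ℂ (Matrix ι ι ℂ) := G.comap (conjD rc)
  have hmem : ∀ X, X ∈ G' ↔ conjD rc X ∈ G := fun X => Submodule.mem_comap
  have hcar : Car G' = Car G := by
    ext f
    change diagonal (fun i => (f i : ℂ)) ∈ G' ↔ diagonal (fun i => (f i : ℂ)) ∈ G
    rw [hmem, conjD_diagonal hrc]
  have hlie : ∀ X ∈ G', ∀ Y ∈ G', X * Y - Y * X ∈ G' := by
    intro X hX Y hY
    rw [hmem] at hX hY ⊢
    rw [map_sub, conjD_mul hrc, conjD_mul hrc]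
    exact lie _ hX _ hY
  have hunit : ∀ i, ‖u i‖ = 1 := by
    intro i
    change ‖om i / ‖om i‖‖ = 1
    rw [norm_div, Complex.norm_real, norm_norm, div_self (norm_ne_zero_iff.2 (h0 i))]
  have htwist : ∀ X ∈ G', diagonal u * Xᴴ * diagonal (fun i => (u i)⁻¹) ∈ G' := by
    intro X hX
    rw [hmem] at hX ⊢
    have h1 := twist _ hX
    have h2 : conjD rc (diagonal u * Xᴴ * diagonal (fun i => (u i)⁻¹)) =
        diagonal om * (conjD rc X)ᴴ * diagonal (fun i => (om i)⁻¹) := by
      ext i j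
      rw [conjD_apply, Matrix.mul_diagonal, Matrix.diagonal_mul, Matrix.mul_diagonal,
        Matrix.diagonal_mul, Matrix.conjTranspose_apply, Matrix.conjTranspose_apply, conjD_apply,
        star_mul', star_mul', star_inv₀]
      have e1 : ∀ k, star (rc k) = rc k := fun k => Complex.conj_ofReal _
      rw [e1, e1]
      have e2 : om i = u i * (rc i * rc i) := by
        change om i = om i / ‖om i‖ * (rc i * rc i)
        rw [hrc2, div_mul_cancel₀ _ (hn i)]
      have e3 : om j = u j * (rc j * rc j) := by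
        change om j = om j / ‖om j‖ * (rc j * rc j)
        rw [hrc2, div_mul_cancel₀ _ (hn j)]
      have e4 : u j ≠ 0 := by
        intro h
        have := hunit j
        rw [h, norm_zero] at this
        exact zero_ne_one this
      rw [e2, e3]
      have e5 := hrc i
      have e6 := hrc j
      field_simp
    rw [h2]
    exact h1
  have hcartan : ∀ X ∈ G', (∀ f ∈ Car G', ∀ i j, X i j ≠ 0 → f i = f j) →
      ∀ i j, i ≠ j → X i j = 0 := by
    intro X hX hf i j hij
    rw [hmem] at hX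
    have h1 := cartan _ hX (fun f hfG a b hab => by
      rw [← hcar] at hfG
      refine hf f hfG a b fun h => hab ?_
      rw [conjD_apply, h, mul_zero, zero_mul]) i j hij
    rw [conjD_apply] at h1
    rcases mul_eq_zero.1 h1 with h2 | h2
    · exact (mul_eq_zero.1 h2).resolve_left (hrc i)
    · exact absurd h2 (inv_ne_zero (hrc j))
  obtain ⟨w, hw⟩ := exists_tw hlie hunit htwist hcartan (fun i j hij => by
    rw [hcar] at hij
    exact uf i j hij)
  exact ⟨rc, w, hrc, hw⟩

/-- the central part of a real diagonal element -/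
theorem proj_scaled {om : ι → ℂ} (h0 : ∀ i, om i ≠ 0)
    (lie : ∀ X ∈ G, ∀ Y ∈ G, X * Y - Y * X ∈ G)
    (twist : ∀ X ∈ G, diagonal om * Xᴴ * diagonal (fun i => (om i)⁻¹) ∈ G)
    (cartan : ∀ X ∈ G, (∀ f ∈ Car G, ∀ i j, X i j ≠ 0 → f i = f j) → ∀ i j, i ≠ j → X i j = 0)
    (uf : ∀ i j, (∀ f ∈ Car G, f i = f j) → om i / ‖om i‖ = om j / ‖om j‖)
    {f : ι → ℝ} (hf : f ∈ Car G) :
    ∃ c ∈ Car G, (∀ i j, Edge G (i, j) → c i = c j) ∧
      ∀ W : Matrix ι ι ℂ, (∀ X ∈ G, W * X = X * W) →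
        ∑ i, W i i * (f i : ℂ) = ∑ i, W i i * (c i : ℂ) := by
  obtain ⟨rc, w, hrc, hw⟩ := exists_scaled_conj h0 lie twist cartan uf
  have hcar : Car (G.comap (conjD rc)) = Car G := by
    ext f
    change diagonal (fun i => (f i : ℂ)) ∈ G.comap (conjD rc) ↔ diagonal (fun i => (f i : ℂ)) ∈ G
    rw [Submodule.mem_comap, conjD_diagonal hrc]
  have hinv : ∀ X : Matrix ι ι ℂ, conjD rc (conjD (fun k => (rc k)⁻¹) X) = X := by
    intro X
    ext a b
    rw [conjD_apply, conjD_apply, inv_inv]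
    have e5 := hrc a
    have e6 := hrc b
    field_simp
  have hinv' : ∀ X : Matrix ι ι ℂ, conjD (fun k => (rc k)⁻¹) (conjD rc X) = X := by
    intro X
    ext a b
    rw [conjD_apply, conjD_apply, inv_inv]
    have e5 := hrc a
    have e6 := hrc b
    field_simp
  have hf' : f ∈ Car (G.comap (conjD rc)) := by
    rw [hcar]
    exact hf
  obtain ⟨c, hc, he, hW⟩ := hw.proj hf'
  refine ⟨c, ?_, ?_, ?_⟩
  · rw [← hcar]
    exact hc
  · rintro i j ⟨X, hX, hX0⟩
    refine he i j ⟨conjD (fun k => (rc k)⁻¹) X, ?_, ?_⟩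
    · rw [Submodule.mem_comap, hinv]
      exact hX
    · rw [conjD_apply]
      exact mul_ne_zero (mul_ne_zero (inv_ne_zero (hrc _)) hX0)
        (inv_ne_zero (inv_ne_zero (hrc _)))
  · intro W hWX
    have h1 := hW (conjD (fun k => (rc k)⁻¹) W) (fun X hX => by
      rw [Submodule.mem_comap] at hX
      have h2 : conjD rc (conjD (fun k => (rc k)⁻¹) W * X) =
          conjD rc (X * conjD (fun k => (rc k)⁻¹) W) := by
        rw [conjD_mul hrc, conjD_mul hrc, hinv]
        exact hWX _ hX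
      have h3 := congrArg (conjD fun k => (rc k)⁻¹) h2
      rwa [hinv', hinv'] at h3)
    have h4 : ∀ i, conjD (fun k => (rc k)⁻¹) W i i = W i i := by
      intro i
      rw [conjD_apply, inv_inv]
      have e5 := hrc i
      field_simp
    simpa only [h4] using h1

end Pc0b458L
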