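import Pool.Agent.Lib.Pc0b458L.Tw

/-!
# Components of the elements of a twisted Lie algebra
-/

namespace Pc0b458L

open Matrix

variable {ι : Type} [Fintype ι] [DecidableEq ι] {G : Submodule ℂ (Matrix ι ι ℂ)} {u : ι → ℂ}
  {w : ι → ℝ}

theorem Tw.ad_mem (h : Tw G u w) {X : Matrix ι ι ℂ} (hX : X ∈ G) :
    (Matrix.of fun i j => ((w i - w j : ℝ) : ℂ) * X i j) ∈ G := by
  have h1 := h.lie _ h.mem X hX
  have h2 : (Matrix.of fun i j => ((w i - w j : ℝ) : ℂ) * X i j) =
      diagonal (fun i => (w i : ℂ)) * X - X * diagonal (fun i => (w i : ℂ)) := by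
    ext i j
    rw [Matrix.sub_apply, Matrix.diagonal_mul, Matrix.mul_diagonal, Matrix.of_apply]
    push_cast
    ring
  rw [h2]
  exact h1

theorem Tw.poly_mem (h : Tw G u w) {X : Matrix ι ι ℂ} (hX : X ∈ G) (p : Polynomial ℂ) :
    (Matrix.of fun i j => p.eval ((w i - w j : ℝ) : ℂ) * X i j) ∈ G := by
  induction p using Polynomial.induction_on' with
  | add p q hp hq =>
    have h2 : (Matrix.of fun i j => (p + q).eval ((w i - w j : ℝ) : ℂ) * X i j) =
        (Matrix.of fun i j => p.eval ((w i - w j : ℝ) : ℂ) * X i j) +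
        (Matrix.of fun i j => q.eval ((w i - w j : ℝ) : ℂ) * X i j) := by
      ext i j
      rw [Matrix.add_apply, Matrix.of_apply, Matrix.of_apply, Matrix.of_apply,
        Polynomial.eval_add]
      ring
    rw [h2]
    exact G.add_mem hp hq
  | monomial n c =>
    induction n with
    | zero =>
      have h2 : (Matrix.of fun i j =>
          (Polynomial.monomial 0 c).eval ((w i - w j : ℝ) : ℂ) * X i j) = c • X := by
        ext i j
        rw [Matrix.smul_apply, Matrix.of_apply, Polynomial.eval_monomial, pow_zero, mul_one,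
          smul_eq_mul]
      rw [h2]
      exact G.smul_mem _ hX
    | succ n ih =>
      have h2 := h.ad_mem ih
      have h3 : (Matrix.of fun i j =>
          (Polynomial.monomial (n + 1) c).eval ((w i - w j : ℝ) : ℂ) * X i j) =
          (Matrix.of fun i j => ((w i - w j : ℝ) : ℂ) *
            (Matrix.of fun i j =>
              (Polynomial.monomial n c).eval ((w i - w j : ℝ) : ℂ) * X i j) i j) := by
        ext i j
        rw [Matrix.of_apply, Matrix.of_apply, Matrix.of_apply, Polynomial.eval_monomial,
          Polynomial.eval_monomial]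
        ring
      rw [h3]
      exact h2

/-- M1: components (Lagrange interpolation in the adjoint action of `w`) -/
theorem Tw.comp_mem (h : Tw G u w) {X : Matrix ι ι ℂ} (hX : X ∈ G) (b : ℝ) : comp w b X ∈ G := by
  classical
  let S : Finset ℝ := (Finset.univ.image fun p : ι × ι => w p.1 - w p.2).erase b
  let p : Polynomial ℂ := ∏ d ∈ S, (Polynomial.C (((b - d : ℝ) : ℂ)⁻¹) *
    (Polynomial.X - Polynomial.C ((d : ℝ) : ℂ)))
  have hp : ∀ c : ℝ, p.eval (c : ℂ) = ∏ d ∈ S, (((b - d : ℝ) : ℂ)⁻¹ * ((c : ℂ) - (d : ℂ))) := by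
    intro c
    simp only [p, Polynomial.eval_prod, Polynomial.eval_mul, Polynomial.eval_C,
      Polynomial.eval_sub, Polynomial.eval_X]
  have hb : p.eval (b : ℂ) = 1 := by
    rw [hp]
    apply Finset.prod_eq_one
    intro d hd
    have hne : b - d ≠ 0 := by
      intro h0
      exact (Finset.ne_of_mem_erase hd) (by linarith)
    have hne' : ((b - d : ℝ) : ℂ) ≠ 0 := Complex.ofReal_ne_zero.2 hne
    rw [← Complex.ofReal_sub, inv_mul_cancel₀ hne']
  have h0 : ∀ c ∈ S, p.eval (c : ℂ) = 0 := by
    intro c hc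
    rw [hp]
    apply Finset.prod_eq_zero hc
    rw [sub_self, mul_zero]
  have h1 := h.poly_mem hX p
  have h2 : (Matrix.of fun i j => p.eval ((w i - w j : ℝ) : ℂ) * X i j) = comp w b X := by
    ext i j
    rw [comp, Matrix.of_apply, Matrix.of_apply]
    split_ifs with hij
    · rw [hij, hb, one_mul]
    · rw [h0, zero_mul]
      simp only [S, Finset.mem_erase, Finset.mem_image, Finset.mem_univ, true_and]
      exact ⟨hij, (i, j), rfl⟩
  rw [← h2]
  exact h1

/-- M2: the diagonal elements: real and imaginary part -/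
theorem Tw.car_re (h : Tw G u w) {p : ι → ℂ} (hp : diagonal p ∈ G) :
    (fun i => (p i).re) ∈ Car G ∧ (fun i => (p i).im) ∈ Car G := by
  have hu : ∀ i, u i ≠ 0 := by
    intro i h0
    have := h.unit i
    rw [h0, norm_zero] at this
    exact zero_ne_one this
  have h1 := h.twist _ hp
  have h2 : diagonal u * (diagonal p)ᴴ * diagonal (fun i => (u i)⁻¹) =
      diagonal (fun i => star (p i)) := by
    rw [Matrix.diagonal_conjTranspose, Matrix.diagonal_mul_diagonal,
      Matrix.diagonal_mul_diagonal]
    congr 1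
    funext i
    rw [Pi.star_apply, mul_comm (u i), mul_assoc, mul_inv_cancel₀ (hu i), mul_one]
  rw [h2] at h1
  constructor
  · have h3 : diagonal (fun i => (((p i).re : ℝ) : ℂ)) =
        (1 / 2 : ℂ) • (diagonal p + diagonal (fun i => star (p i))) := by
      rw [Matrix.diagonal_add, ← Matrix.diagonal_smul]
      congr 1
      funext i
      rw [Pi.smul_apply, smul_eq_mul, Complex.star_def, Complex.add_conj]
      push_cast
      ring
    change diagonal (fun i => (((p i).re : ℝ) : ℂ)) ∈ G
    rw [h3]
    exact G.smul_mem _ (G.add_mem hp h1)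
  · have h3 : diagonal (fun i => (((p i).im : ℝ) : ℂ)) =
        (-Complex.I / 2 : ℂ) • (diagonal p - diagonal (fun i => star (p i))) := by
      rw [Matrix.diagonal_sub, ← Matrix.diagonal_smul]
      congr 1
      funext i
      rw [Pi.smul_apply, smul_eq_mul, Complex.star_def, Complex.sub_conj]
      push_cast
      linear_combination ((p i).im : ℂ) * Complex.I_mul_I
    change diagonal (fun i => (((p i).im : ℝ) : ℂ)) ∈ G
    rw [h3]
    exact G.smul_mem _ (G.sub_mem hp h1)

end Pc0b458L
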