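import Pool.Agent.Lib.Pc0b458L.Tw

/-!
# The existence of a generic diagonal element
-/

namespace Pc0b458L

open Matrix

variable {ι : Type} [Fintype ι] [DecidableEq ι] {G : Submodule ℂ (Matrix ι ι ℂ)} {u : ι → ℂ}
  {w : ι → ℝ}

/-- the real diagonal elements form a real vector space -/
def carSub (G : Submodule ℂ (Matrix ι ι ℂ)) : Submodule ℝ (ι → ℝ) where
  carrier := Car G
  zero_mem' := by
    change diagonal (fun i => (((0 : ι → ℝ) i : ℝ) : ℂ)) ∈ G
    have : diagonal (fun i => (((0 : ι → ℝ) i : ℝ) : ℂ)) = (0 : Matrix ι ι ℂ) := by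
      ext i j
      simp [Matrix.diagonal_apply]
    rw [this]
    exact G.zero_mem
  add_mem' := by
    intro a b ha hb
    have h1 : diagonal (fun i => (((a + b) i : ℝ) : ℂ)) =
        diagonal (fun i => ((a i : ℝ) : ℂ)) + diagonal (fun i => ((b i : ℝ) : ℂ)) := by
      rw [Matrix.diagonal_add]
      congr 1
      funext i
      rw [Pi.add_apply, Complex.ofReal_add]
    change diagonal (fun i => (((a + b) i : ℝ) : ℂ)) ∈ G
    rw [h1]
    exact G.add_mem ha hb
  smul_mem' := by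
    intro c a ha
    have h1 : diagonal (fun i => (((c • a) i : ℝ) : ℂ)) =
        (c : ℂ) • diagonal (fun i => ((a i : ℝ) : ℂ)) := by
      rw [← Matrix.diagonal_smul]
      congr 1
      funext i
      simp
    change diagonal (fun i => (((c • a) i : ℝ) : ℂ)) ∈ G
    rw [h1]
    exact G.smul_mem _ ha

/-- a diagonal element which is generic for all differences -/
theorem exists_gen (G : Submodule ℂ (Matrix ι ι ℂ)) :
    ∃ w ∈ Car G, ∀ f ∈ Car G, ∀ i j k l, w i - w j = w k - w l → f i - f j = f k - f l := by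
  classical
  let pr : ι → ((ι → ℝ) →ₗ[ℝ] ℝ) := fun i => LinearMap.proj i
  let φ : ι × ι × ι × ι → (carSub G →ₗ[ℝ] ℝ) := fun q =>
    LinearMap.comp ((pr q.1 - pr q.2.1) - (pr q.2.2.1 - pr q.2.2.2)) (carSub G).subtype
  have hφ : ∀ q (f : carSub G), φ q f =
      ((f : ι → ℝ) q.1 - (f : ι → ℝ) q.2.1) - ((f : ι → ℝ) q.2.2.1 - (f : ι → ℝ) q.2.2.2) := by
    intro q f
    rfl
  let s : Finset (Submodule ℝ (carSub G)) :=
    (Finset.univ.image fun q => LinearMap.ker (φ q)).filter fun K => K ≠ ⊤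
  have hs : (⊤ : Submodule ℝ (carSub G)) ∉ s := by
    intro hh
    exact (Finset.mem_filter.1 hh).2 rfl
  have hne := Subspace.biUnion_ne_univ_of_top_notMem hs
  obtain ⟨w, hw⟩ := (Set.ne_univ_iff_exists_notMem _).1 hne
  refine ⟨w, w.2, ?_⟩
  intro f hf i j k l hijkl
  by_contra hcon
  apply hw
  simp only [Set.mem_iUnion]
  refine ⟨LinearMap.ker (φ (i, j, k, l)), ?_, ?_⟩
  · refine Finset.mem_filter.2 ⟨Finset.mem_image.2 ⟨_, Finset.mem_univ _, rfl⟩, ?_⟩
    intro htop
    have h1 : (⟨f, hf⟩ : carSub G) ∈ LinearMap.ker (φ (i, j, k, l)) := by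
      rw [htop]
      exact Submodule.mem_top
    rw [LinearMap.mem_ker, hφ] at h1
    exact hcon (sub_eq_zero.1 h1)
  · change w ∈ LinearMap.ker (φ (i, j, k, l))
    rw [LinearMap.mem_ker, hφ]
    exact sub_eq_zero.2 hijkl

/-- M0: the existence of a generic diagonal element -/
theorem exists_tw (lie : ∀ X ∈ G, ∀ Y ∈ G, X * Y - Y * X ∈ G) (unit : ∀ i, ‖u i‖ = 1)
    (twist : ∀ X ∈ G, diagonal u * Xᴴ * diagonal (fun i => (u i)⁻¹) ∈ G)
    (cartan : ∀ X ∈ G, (∀ f ∈ Car G, ∀ i j, X i j ≠ 0 → f i = f j) → ∀ i j, i ≠ j → X i j = 0)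
    (uf : ∀ i j, (∀ f ∈ Car G, f i = f j) → u i = u j) : ∃ w : ι → ℝ, Tw G u w := by
  obtain ⟨w, hw, hgen⟩ := exists_gen G
  have key : ∀ i j, w i = w j → ∀ f ∈ Car G, f i = f j := by
    intro i j hij f hf
    have h1 := hgen f hf i j i i (by rw [hij])
    linarith
  exact ⟨w, {
    lie := lie
    unit := unit
    twist := twist
    mem := hw
    diag := fun X hX hs => cartan X hX fun f hf i j hij => key i j (hs i j hij) f hf
    gen := hgen
    uw := fun i j hij => uf i j (key i j hij) }⟩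

end Pc0b458L
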