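import Pool.Agent.Lib.Pc0b458L.ListProd

/-!
# The product of the diagonal unitary matrix over a set of indices
-/

namespace Pc0b458L

open Matrix

variable {ι : Type} [Fintype ι] [DecidableEq ι] {G : Submodule ℂ (Matrix ι ι ℂ)} {u : ι → ℂ}
  {w : ι → ℝ}

/-- `a` and `b` are connected by a path of edges and of pairs with the same value of `w` -/
def Path (G : Submodule ℂ (Matrix ι ι ℂ)) (u : ι → ℂ) (a b : ι) : Prop :=
  ∃ l : List (ι × ι), (∀ e ∈ l, Edge G e) ∧
    (∀ f ∈ Car G, (l.map fun e => f e.1 - f e.2).sum = f a - f b) ∧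
    (l.map fun e => u e.1 / u e.2).prod = u a / u b

theorem Tw.path (h : Tw G u w)
    (hconn : ∀ P : ι → Prop, (∃ i, P i) → (∀ i j, Edge G (i, j) → (P i ↔ P j)) →
      (∀ i j, w i = w j → (P i ↔ P j)) → ∀ i, P i) (a b : ι) : Path G u a b := by
  have hu : ∀ i, u i ≠ 0 := fun i h0 => by
    have := h.unit i
    rw [h0, norm_zero] at this
    exact zero_ne_one this
  have key : ∀ i j, Edge G (i, j) → Path G u a i → Path G u a j := by
    rintro i j hij ⟨l, h1, h2, h3⟩
    refine ⟨(i, j) :: l, ?_, ?_, ?_⟩
    · intro e he
      rcases List.mem_cons.mp he with rfl | he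
      · exact hij
      · exact h1 e he
    · intro f hf
      rw [List.map_cons, List.sum_cons, h2 f hf]
      show f i - f j + (f a - f i) = f a - f j
      ring
    · rw [List.map_cons, List.prod_cons, h3]
      show u i / u j * (u a / u i) = u a / u j
      field_simp [hu i, hu j]
  have keyw : ∀ i j, w i = w j → Path G u a i → Path G u a j := by
    rintro i j hij ⟨l, h1, h2, h3⟩
    refine ⟨l, h1, ?_, ?_⟩
    · intro f hf
      have := h.gen f hf i j i i (by rw [hij])
      rw [h2 f hf]
      linarith
    · rw [h3, h.uw i j hij]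
  refine hconn (fun b => Path G u a b) ⟨a, [], ?_, ?_, ?_⟩ ?_ ?_ b
  · intro e he
    simp at he
  · intro f _
    simp
  · simp [hu a]
  · intro i j hij
    refine ⟨key i j hij, key j i ?_⟩
    obtain ⟨X, hX, hne⟩ := hij
    refine ⟨Xᴴ, h.star hX, ?_⟩
    simpa [Matrix.conjTranspose_apply] using hne
  · intro i j hij
    exact ⟨keyw i j hij, keyw j i hij.symm⟩

/-- M8: the conclusion -/
theorem Tw.main (h : Tw G u w)
    (hconn : ∀ P : ι → Prop, (∃ i, P i) → (∀ i j, Edge G (i, j) → (P i ↔ P j)) →
      (∀ i j, w i = w j → (P i ↔ P j)) → ∀ i, P i)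
    (hpair : ∀ i, ∃ j, (∀ f ∈ Car G, f i + f j = 0) ∧ u i * u j = 1)
    {n : ℕ} (I : Finset ι) (hI : I.card = 2 * n) (h0 : ∀ f ∈ Car G, ∑ i ∈ I, f i = 0) :
    ∏ i ∈ I, u i = 1 := by
  have key : ∀ (n : ℕ) (s : List ι), s.length = 2 * n →
      ∃ l : List (ι × ι), (∀ e ∈ l, Edge G e) ∧
        (∀ f ∈ Car G, (l.map fun e => f e.1 - f e.2).sum = (s.map f).sum) ∧
        (l.map fun e => u e.1 / u e.2).prod = (s.map u).prod := by
    intro n
    induction n with
    | zero =>
      intro s hs
      have : s = [] := List.length_eq_zero_iff.mp (by simpa using hs)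
      subst this
      exact ⟨[], by simp, by simp, by simp⟩
    | succ n ih =>
      intro s hs
      match s, hs with
      | x :: y :: s', hs =>
        obtain ⟨l, h1, h2, h3⟩ := ih s' (by
          simp only [List.length_cons] at hs
          omega)
        obtain ⟨j, hj1, hj2⟩ := hpair y
        obtain ⟨l', h1', h2', h3'⟩ := h.path hconn x j
        refine ⟨l' ++ l, ?_, ?_, ?_⟩
        · intro e he
          rcases List.mem_append.mp he with he | he
          · exact h1' e he
          · exact h1 e he
        · intro f hf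
          rw [List.map_append, List.sum_append, h2 f hf, h2' f hf, List.map_cons, List.map_cons,
            List.sum_cons, List.sum_cons]
          have := hj1 f hf
          linarith
        · rw [List.map_append, List.prod_append, h3, h3', List.map_cons, List.map_cons,
            List.prod_cons, List.prod_cons, div_eq_mul_inv,
            ← eq_inv_of_mul_eq_one_left hj2, mul_assoc]
      | [x], hs =>
        simp only [List.length_cons, List.length_nil] at hs
        omega
      | [], hs =>
        simp only [List.length_nil] at hs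
        omega
  obtain ⟨l, h1, h2, h3⟩ := key n I.toList (by rw [Finset.length_toList, hI])
  have h4 := h.list_prod l h1 (fun f hf => by
    rw [h2 f hf, Finset.sum_map_toList]
    exact h0 f hf)
  rw [h3, Finset.prod_map_toList] at h4
  exact h4

end Pc0b458L
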