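import Pool.Agent.Lib.Pc0b458L.Scale0
import Pool.Agent.Lib.Pc0b458L.Main

/-!
# Twists by diagonal matrices which are not unitary
-/

namespace Pc0b458L

open Matrix

variable {ι : Type} [Fintype ι] [DecidableEq ι] {G : Submodule ℂ (Matrix ι ι ℂ)}

theorem main_scaled {om : ι → ℂ} (h0 : ∀ i, om i ≠ 0)
    (lie : ∀ X ∈ G, ∀ Y ∈ G, X * Y - Y * X ∈ G)
    (twist : ∀ X ∈ G, diagonal om * Xᴴ * diagonal (fun i => (om i)⁻¹) ∈ G)
    (cartan : ∀ X ∈ G, (∀ f ∈ Car G, ∀ i j, X i j ≠ 0 → f i = f j) → ∀ i j, i ≠ j → X i j = 0)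
    (uf : ∀ i j, (∀ f ∈ Car G, f i = f j) → om i / ‖om i‖ = om j / ‖om j‖)
    (hconn : ∀ P : ι → Prop, (∃ i, P i) → (∀ i j, Edge G (i, j) → (P i ↔ P j)) →
      (∀ i j, (∀ f ∈ Car G, f i = f j) → (P i ↔ P j)) → ∀ i, P i)
    (hpair : ∀ i, ∃ j, (∀ f ∈ Car G, f i + f j = 0) ∧ om i * om j = 1)
    {n : ℕ} (I : Finset ι) (hI : I.card = 2 * n) (hs : ∀ f ∈ Car G, ∑ i ∈ I, f i = 0) :
    ∏ i ∈ I, (om i / ‖om i‖) = 1 := by
  obtain ⟨G', w, hw, hcar, hedge⟩ := exists_scaled h0 lie twist cartan uf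
  refine hw.main ?_ ?_ I hI ?_
  · intro P hP hPe hPw
    refine hconn P hP (fun i j hij => hPe i j (hedge i j hij)) ?_
    intro i j hij
    have h1 : w ∈ Car G' := hw.mem
    rw [hcar] at h1
    exact hPw i j (hij w h1)
  · intro i
    obtain ⟨j, h1, h2⟩ := hpair i
    refine ⟨j, ?_, ?_⟩
    · rw [hcar]
      exact h1
    · rw [div_mul_div_comm, h2, ← Complex.ofReal_mul, ← norm_mul, h2, norm_one,
        Complex.ofReal_one, div_one]
  · rw [hcar]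
    exact hs

end Pc0b458L
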