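import Pool.Agent.Lib.Pc0b458L.Scale0
import Pool.Agent.Lib.Pc0b458L.MainG

/-!
# Twists by diagonal matrices which are not unitary: the general version
-/

namespace Pc0b458L

open Matrix

variable {ι : Type} [Fintype ι] [DecidableEq ι] {G : Submodule ℂ (Matrix ι ι ℂ)}

theorem mainG_scaled {om : ι → ℂ} (h0 : ∀ i, om i ≠ 0)
    (lie : ∀ X ∈ G, ∀ Y ∈ G, X * Y - Y * X ∈ G)
    (twist : ∀ X ∈ G, diagonal om * Xᴴ * diagonal (fun i => (om i)⁻¹) ∈ G)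
    (cartan : ∀ X ∈ G, (∀ f ∈ Car G, ∀ i j, X i j ≠ 0 → f i = f j) → ∀ i j, i ≠ j → X i j = 0)
    (uf : ∀ i j, (∀ f ∈ Car G, f i = f j) → om i / ‖om i‖ = om j / ‖om j‖)
    (JJ : Set (Finset ι))
    (hJ : ∀ J ∈ JJ, (∀ f ∈ Car G, ∑ i ∈ J, f i = 0) ∧ ∏ i ∈ J, (om i / ‖om i‖) = 1)
    {I : Finset ι} (hI : ∀ f ∈ Car G, ∑ i ∈ I, f i = 0)
    (hz : ∀ z : ι → ℂ, (∀ i, z i ≠ 0) → (∀ i j, Edge G (i, j) → z i = z j) →
      (∀ i j, (∀ f ∈ Car G, f i = f j) → z i = z j) → (∀ J ∈ JJ, ∏ i ∈ J, z i = 1) →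
      ∏ i ∈ I, z i = 1) :
    ∏ i ∈ I, (om i / ‖om i‖) = 1 := by
  obtain ⟨G', w, hw, hcar, hedge⟩ := exists_scaled h0 lie twist cartan uf
  refine hw.mainG JJ ?_ I ?_ ?_
  · rw [hcar]
    exact hJ
  · rw [hcar]
    exact hI
  · intro z hz0 hze hzw hzJ
    refine hz z hz0 (fun i j hij => hze i j (hedge i j hij)) ?_ hzJ
    intro i j hij
    have h1 : w ∈ Car G' := hw.mem
    rw [hcar] at h1
    exact hzw i j (hij w h1)

end Pc0b458L
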